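import Pool.Agent.AEW.Defs
import Pool.Agent.AEV.WndSub

/-!
# The window average changes little with the dilation
-/

set_option autoImplicit false

open MeasureTheory Set
open Pool.AET (integrable_bd abs_integral_bd)
open Pool.AEV (Vec IsFlow fub_box)

namespace Pool.AEW

variable {k : ℕ} {Ω : Type*} [MeasurableSpace Ω] {μ : Measure Ω} {φ : Vec k → Ω → Ω}

theorem one_step (i : Fin (k + 1)) (u v : Vec k) (G : Vec k → ℝ) (hG : Measurable G)
    (h1 : ∀ y, |G y| ≤ 1) {R : ℝ} (huv : u ≤ v) (huv1 : ∀ j, v j - u j ≤ 2)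
    (hu : |u i| ≤ R) (hv : |v i| ≤ R) (D E : Vec k) (hE : E i ≠ 0) (hDE : ∀ j, j ≠ i → D j = E j) :
    |(∫ a in Icc u v, G (a * D)) - ∫ a in Icc u v, G (a * E)|
      ≤ 4 * R * |D i - E i| / |E i| * 2 ^ k := by
  have hR : 0 ≤ R := (abs_nonneg _).trans hu
  have hK : 0 ≤ 4 * R * |D i - E i| / |E i| := by positivity
  rw [fub_box i u v (fun a => G (a * D)) (hG.comp (by fun_prop)) (fun y => h1 _),
    fub_box i u v (fun a => G (a * E)) (hG.comp (by fun_prop)) (fun y => h1 _)]
  set B : Set (Fin k → ℝ) := Icc (i.removeNth u) (i.removeNth v) with hB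
  have hvol : volume B ≤ 2 ^ k := by
    rw [hB, Real.volume_Icc_pi]
    calc _ ≤ ∏ _j : Fin k, (2 : ENNReal) := by
          refine Finset.prod_le_prod' fun j _ => ?_
          rw [show (2 : ENNReal) = ENNReal.ofReal 2 by simp]
          exact ENNReal.ofReal_le_ofReal (huv1 _)
      _ = 2 ^ k := by simp
  have htop : (2 : ENNReal) ^ k < ⊤ := ENNReal.pow_lt_top (by simp)
  have hfin : IsFiniteMeasure (volume.restrict B) :=
    ⟨by rw [Measure.restrict_apply_univ]; exact lt_of_le_of_lt hvol htop⟩
  have hmeas : ∀ D : Vec k, Measurable (fun z : (Fin k → ℝ) × ℝ => G (i.insertNth z.2 z.1 * D)) := by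
    intro D
    refine hG.comp ?_
    have : Measurable (fun z : (Fin k → ℝ) × ℝ => (i.insertNth z.2 z.1 : Vec k)) :=
      (MeasurableEquiv.piFinSuccAbove (fun _ : Fin (k + 1) => ℝ) i).symm.measurable.comp
        (measurable_snd.prodMk measurable_fst)
    exact this.mul_const _
  have hI : ∀ D : Vec k, Integrable (fun b => ∫ s in Icc (u i) (v i), G (i.insertNth s b * D))
      (volume.restrict B) := by
    intro D
    refine Integrable.of_bound (C := v i - u i) ?_ (Filter.Eventually.of_forall fun b => ?_)
    · exact ((hmeas D).stronglyMeasurable.integral_prod_right).aestronglyMeasurable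
    · have := norm_setIntegral_le_of_norm_le_const (μ := volume) (s := Icc (u i) (v i)) (C := 1)
        (f := fun s => G (i.insertNth s b * D)) (by simp) (fun s _ => by simpa using h1 _)
      simpa [Real.volume_real_Icc_of_le (huv i)] using this
  rw [← integral_sub (hI D) (hI E)]
  have hb : ∀ b ∈ B, ‖(∫ s in Icc (u i) (v i), G (i.insertNth s b * D))
      - ∫ s in Icc (u i) (v i), G (i.insertNth s b * E)‖ ≤ 4 * R * |D i - E i| / |E i| := by
    intro b _
    have e : ∀ D' : Vec k, (∀ j, j ≠ i → D' j = E j) → ∀ s : ℝ,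
        (i.insertNth s b * D' : Vec k) = i.insertNth (s * D' i) (b * i.removeNth E) := by
      intro D' hD' s
      funext j
      rcases Fin.eq_self_or_eq_succAbove i j with rfl | ⟨j, rfl⟩
      · simp
      · simp only [Pi.mul_apply, Fin.insertNth_apply_succAbove]
        rw [hD' _ (Fin.succAbove_ne i j)]
        rfl
    simp only [e D hDE, e E (fun _ _ => rfl)]
    rw [integral_Icc_eq_integral_Ioc, integral_Icc_eq_integral_Ioc,
      ← intervalIntegral.integral_of_le (huv i), ← intervalIntegral.integral_of_le (huv i)]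
    refine Pool.AET.window_le (fun y => G (i.insertNth y (b * i.removeNth E))) ?_ (fun y => h1 _)
      hu hv (D i) (E i) hE
    refine hG.comp ?_
    exact (MeasurableEquiv.piFinSuccAbove (fun _ : Fin (k + 1) => ℝ) i).symm.measurable.comp
        (measurable_id.prodMk measurable_const)
  have := norm_setIntegral_le_of_norm_le_const (μ := volume) (lt_of_le_of_lt hvol htop) hb
  refine this.trans (mul_le_mul_of_nonneg_left ?_ hK)
  rw [Measure.real]
  calc (volume B).toReal ≤ ((2 : ENNReal) ^ k).toReal := ENNReal.toReal_mono htop.ne hvol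
    _ = 2 ^ k := by rw [ENNReal.toReal_pow]; norm_num

theorem all_steps (u v : Vec k) (G : Vec k → ℝ) (hG : Measurable G)
    (h1 : ∀ y, |G y| ≤ 1) {R : ℝ} (huv : u ≤ v) (huv1 : ∀ j, v j - u j ≤ 2)
    (hu : ∀ i, |u i| ≤ R) (hv : ∀ i, |v i| ≤ R) (D E : Vec k) (hE : ∀ i, E i ≠ 0 ∨ D i = E i)
    (s : Finset (Fin (k + 1))) :
    |(∫ a in Icc u v, G (a * D)) - ∫ a in Icc u v, G (a * s.piecewise E D)|
      ≤ ∑ i ∈ s, 4 * R * |D i - E i| / |E i| * 2 ^ k := by
  induction s using Finset.induction_on with
  | empty => simp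
  | insert i s his ih =>
    rw [Finset.sum_insert his]
    have h2 : |(∫ a in Icc u v, G (a * s.piecewise E D))
        - ∫ a in Icc u v, G (a * (insert i s).piecewise E D)|
        ≤ 4 * R * |D i - E i| / |E i| * 2 ^ k := by
      rcases hE i with h0 | h0
      · have h3 := one_step i u v G hG h1 huv huv1 (hu i) (hv i) (s.piecewise E D)
          ((insert i s).piecewise E D) (by simpa using h0) (fun j hj => by
            by_cases hjs : j ∈ s
            · rw [Finset.piecewise_eq_of_mem _ _ _ hjs,
                Finset.piecewise_eq_of_mem _ _ _ (Finset.mem_insert_of_mem hjs)]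
            · rw [Finset.piecewise_eq_of_notMem _ _ _ hjs,
                Finset.piecewise_eq_of_notMem]
              simp [hj, hjs])
        rw [Finset.piecewise_eq_of_notMem _ _ _ his,
          Finset.piecewise_eq_of_mem _ _ _ (Finset.mem_insert_self i s)] at h3
        exact h3
      · have h3 : (insert i s).piecewise E D = s.piecewise E D := by
          funext j
          by_cases hj : j = i
          · subst hj
            rw [Finset.piecewise_eq_of_mem _ _ _ (Finset.mem_insert_self j s),
              Finset.piecewise_eq_of_notMem _ _ _ his, h0]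
          · by_cases hjs : j ∈ s
            · rw [Finset.piecewise_eq_of_mem _ _ _ hjs,
                Finset.piecewise_eq_of_mem _ _ _ (Finset.mem_insert_of_mem hjs)]
            · rw [Finset.piecewise_eq_of_notMem _ _ _ hjs,
                Finset.piecewise_eq_of_notMem]
              simp [hj, hjs]
        rw [h3, sub_self, abs_zero, h0, sub_self, abs_zero]
        simp
    calc _ ≤ |(∫ a in Icc u v, G (a * D)) - ∫ a in Icc u v, G (a * s.piecewise E D)|
          + |(∫ a in Icc u v, G (a * s.piecewise E D))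
            - ∫ a in Icc u v, G (a * (insert i s).piecewise E D)| := abs_sub_le _ _ _
      _ ≤ _ := by linarith

omit [MeasurableSpace Ω] in
theorem wnd_box (f : Ω → ℝ) (α p D : Vec k) (i : Fin (k + 1)) (η s g : ℝ) (x : Ω) :
    wnd φ f i (kap α i η) s g p D x
      = ∫ a in Icc (α - Pi.single i η + Pi.single i s) (α + 1 + Pi.single i s),
      f (φ (-(a * D)) x) * f (φ (Pi.single i (g * p i) - a * D) x) := by
  unfold wnd kap
  have h := (measurePreserving_add_right (volume : Measure (Vec k))
    (Pi.single i s : Vec k)).setIntegral_preimage_emb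
    (measurableEmbedding_addRight (Pi.single i s : Vec k))
    (fun a => f (φ (-(a * D)) x) * f (φ (Pi.single i (g * p i) - a * D) x))
    (Icc (α - Pi.single i η + Pi.single i s) (α + 1 + Pi.single i s))
  rw [← h, Set.preimage_add_const_Icc]
  simp only [add_sub_cancel_right]

/-- As `AEV.all_steps`, for boxes of side lengths at most two, coordinates where `D = E` being
allowed to vanish. Change of variables `a = τ + s e_i` in `wnd`. -/
theorem wnd_sub_le (h : IsFlow μ φ) {f : Ω → ℝ} (hf : Measurable f) (hf1 : ∀ x, |f x| ≤ 1)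
    (α p D E : Vec k) (i : Fin (k + 1)) {η s g : ℝ} (hη : 0 ≤ η) (hη1 : η ≤ 1)
    (hs : s ∈ Icc 0 η) (hE : ∀ j, E j ≠ 0 ∨ D j = E j) (x : Ω) :
    |wnd φ f i (kap α i η) s g p D x - wnd φ f i (kap α i η) s g p E x|
      ≤ 2 ^ k * (4 * (‖α‖ + 3)) * ∑ j, |D j - E j| / |E j| := by
  rw [wnd_box, wnd_box]
  set G : Vec k → ℝ := fun r => f (φ (-r) x) * f (φ (Pi.single i (g * p i) - r) x) with hG
  have hGm : Measurable G := by
    refine (h.meas_comp hf ?_ measurable_const).mul (h.meas_comp hf ?_ measurable_const) <;> fun_prop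
  have hG1 : ∀ r, |G r| ≤ 1 := by
    intro r
    rw [hG]
    simp only [abs_mul]
    exact mul_le_one₀ (hf1 _) (abs_nonneg _) (hf1 _)
  obtain ⟨hs0, hs1⟩ := hs
  have hα : ∀ i, -‖α‖ ≤ α i ∧ α i ≤ ‖α‖ := fun i => abs_le.1 (norm_le_pi_norm α i)
  have hsing : ∀ (y : ℝ) (j : Fin (k + 1)), (Pi.single i y : Vec k) j = if j = i then y else 0 := by
    intro y j
    by_cases hj : j = i
    · subst hj
      simp
    · simp [hj]
  have h3 := all_steps (α - Pi.single i η + Pi.single i s) (α + 1 + Pi.single i s) G hGm hG1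
    (R := ‖α‖ + 3)
    (by
      intro j
      simp only [Pi.sub_apply, Pi.add_apply, Pi.one_apply, hsing]
      split_ifs <;> linarith)
    (by
      intro j
      simp only [Pi.sub_apply, Pi.add_apply, Pi.one_apply, hsing]
      split_ifs <;> linarith)
    (by
      intro j
      simp only [Pi.sub_apply, Pi.add_apply, hsing]
      rw [abs_le]
      split_ifs <;> constructor <;> linarith [(hα j).1, (hα j).2])
    (by
      intro j
      simp only [Pi.add_apply, Pi.one_apply, hsing]
      rw [abs_le]
      split_ifs <;> constructor <;> linarith [(hα j).1, (hα j).2])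
    D E hE Finset.univ
  rw [Finset.piecewise_univ] at h3
  refine h3.trans (le_of_eq ?_)
  rw [Finset.mul_sum]
  exact Finset.sum_congr rfl fun i _ => by ring

end Pool.AEW
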