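import Pool.Agent.AEW.Defs
import Pool.Agent.AEV.Cob

/-!
# Coboundaries in one direction
-/

set_option autoImplicit false

open MeasureTheory Set
open Pool.AET (integrable_bd abs_integral_bd)
open Pool.AEV (Vec IsFlow LipT)

namespace Pool.AEW

variable {k : ℕ} {Ω : Type*} [MeasurableSpace Ω] {μ : Measure Ω} {φ : Vec k → Ω → Ω}

/-- The average of the self correlation over a short interval of times multiplied by `l`. -/
theorem nu_dec {f : Ω → ℝ} {i : Fin (k + 1)} {S : ℝ} (hS : DecI μ φ f i S) {η : ℝ} (hη : 0 < η)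
    (s : ℝ) {l : ℝ} (hl : l ≠ 0) :
    |∫ s', ∫ x, f x * f (φ (Pi.single i ((s' - s) * l)) x) ∂μ ∂(nu η)| ≤ S / (η * |l|) := by
  set A : ℝ → ℝ := fun g => ∫ x, f x * f (φ (Pi.single i g) x) ∂μ with hA
  have h1 : ∫ s', ∫ x, f x * f (φ (Pi.single i ((s' - s) * l)) x) ∂μ ∂(nu η)
      = η⁻¹ * (l⁻¹ * ∫ g in ((0 - s) * l)..((η - s) * l), A g) := by
    unfold nu
    rw [integral_smul_measure, ENNReal.toReal_inv, ENNReal.toReal_ofReal hη.le, smul_eq_mul,
      integral_Icc_eq_integral_Ioc, ← intervalIntegral.integral_of_le hη.le]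
    rw [intervalIntegral.integral_comp_sub_right (fun u => A (u * l)) s,
      intervalIntegral.integral_comp_mul_right A hl, smul_eq_mul]
  rw [h1, abs_mul, abs_mul, abs_inv, abs_inv, abs_of_pos hη]
  have h2 := hS ((0 - s) * l) ((η - s) * l)
  have hl' : 0 < |l| := abs_pos.2 hl
  calc η⁻¹ * (|l|⁻¹ * |∫ g in ((0 - s) * l)..((η - s) * l), A g|)
      ≤ η⁻¹ * (|l|⁻¹ * S) := by gcongr
    _ = S / (η * |l|) := by field_simp

theorem cob_good [IsProbabilityMeasure μ] (hφ : IsFlow μ φ) {h : Ω → ℝ} (hh : Measurable h)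
    (hb : ∀ x, |h x| ≤ 1 / 2) {L : ℝ} (hL0 : 0 ≤ L) (hL : LipT φ h L) (i : Fin (k + 1)) (s : ℝ) :
    Good μ φ i (fun x => h x - h (φ (Pi.single i s) x)) where
  reg :=
    { meas := hh.sub (hφ.meas_comp hh measurable_const measurable_id)
      bd := fun x => by
        calc |h x - h (φ (Pi.single i s) x)| ≤ |h x| + |h (φ (Pi.single i s) x)| := abs_sub _ _
          _ ≤ 1 := by linarith [hb x, hb (φ (Pi.single i s) x)]
      lip := ⟨2 * L, by positivity, Pool.AEV.cob_lip hφ hL (Pi.single i s)⟩ }
  dec := by
    refine ⟨2 * |s|, ?_⟩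
    intro a b
    set f : Ω → ℝ := fun x => h x - h (φ (Pi.single i s) x) with hf
    have hfm : Measurable f := hh.sub (hφ.meas_comp hh measurable_const measurable_id)
    have hf1 : ∀ x, |f x| ≤ 1 := by
      intro x
      calc |h x - h (φ (Pi.single i s) x)| ≤ |h x| + |h (φ (Pi.single i s) x)| := abs_sub _ _
        _ ≤ 1 := by linarith [hb x, hb (φ (Pi.single i s) x)]
    set e : ℝ → ℝ := fun g => ∫ x, f x * h (φ (Pi.single i g) x) ∂μ with he
    have hsm := single_measurable (k := k) i
    have hem2 : Measurable (fun z : ℝ × Ω => f z.2 * h (φ (Pi.single i z.1) z.2)) :=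
      (hfm.comp measurable_snd).mul (hφ.meas_comp hh (hsm.comp measurable_fst) measurable_snd)
    have hem : Measurable e := (hem2.stronglyMeasurable.integral_prod_right).measurable
    have heb0 : ∀ t x, |f x * h (φ t x)| ≤ 1 := by
      intro t x
      rw [abs_mul]
      exact mul_le_one₀ (hf1 _) (abs_nonneg _) (by linarith [hb (φ t x)])
    have heb : ∀ g, |e g| ≤ 1 := fun g => abs_integral_bd 1 (heb0 _)
    have hei : ∀ a b : ℝ, IntervalIntegrable e volume a b := by
      intro a b
      rw [intervalIntegrable_iff]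
      have : IsFiniteMeasure (volume.restrict (Set.uIoc a b)) :=
        ⟨by rw [Measure.restrict_apply_univ]; exact measure_Ioc_lt_top⟩
      exact integrable_bd hem 1 heb
    have h1 : ∀ g : ℝ, ∫ x, f x * f (φ (Pi.single i g) x) ∂μ = e g - e (g + s) := by
      intro g
      rw [he]
      simp only
      rw [← integral_sub]
      · refine integral_congr_ae (Filter.Eventually.of_forall fun x => ?_)
        simp only [hf]
        rw [← hφ.add, ← Pi.single_add, add_comm s g]
        ring
      · exact integrable_bd (hfm.mul (hφ.meas_comp hh measurable_const measurable_id)) 1 (heb0 _)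
      · exact integrable_bd (hfm.mul (hφ.meas_comp hh measurable_const measurable_id)) 1 (heb0 _)
    simp_rw [h1]
    have hei2 : IntervalIntegrable (fun g => e (g + s)) volume a b := by
      have := (hei (a + s) (b + s)).comp_add_right s
      simpa using this
    rw [intervalIntegral.integral_sub (hei a b) hei2, intervalIntegral.integral_comp_add_right]
    have h2 : (∫ g in a..b, e g) - ∫ g in (a + s)..(b + s), e g
        = (∫ g in a..(a + s), e g) - ∫ g in b..(b + s), e g := by
      have h3 := intervalIntegral.integral_add_adjacent_intervals (hei a b) (hei b (b + s))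
      have h4 := intervalIntegral.integral_add_adjacent_intervals (hei a (a + s))
        (hei (a + s) (b + s))
      linarith
    rw [h2]
    have h3 : ∀ a : ℝ, |∫ g in a..(a + s), e g| ≤ |s| := by
      intro a
      have := intervalIntegral.norm_integral_le_of_norm_le_const (a := a) (b := a + s) (C := 1)
        (f := e) (fun x _ => by simpa using heb x)
      rw [Real.norm_eq_abs, one_mul, add_sub_cancel_left] at this
      exact this
    calc |(∫ g in a..(a + s), e g) - ∫ g in b..(b + s), e g|
        ≤ |∫ g in a..(a + s), e g| + |∫ g in b..(b + s), e g| := abs_sub _ _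
      _ ≤ 2 * |s| := by linarith [h3 a, h3 b]

end Pool.AEW
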