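import Pool.Agent.AEW.SqCorr
import Pool.Agent.AEW.BoxWin
import Pool.Agent.AEW.NuDec
import Pool.Agent.AET.Block

/-!
# The block estimate
-/

set_option autoImplicit false

open MeasureTheory Set Finset
open Pool.AET (integrable_bd abs_integral_bd cs_bd harm_two)
open Pool.AEV (Vec IsFlow)

namespace Pool.AEW

variable {k : ℕ} {Ω : Type*} [MeasurableSpace Ω] {μ : Measure Ω} {φ : Vec k → Ω → Ω}

theorem DecI.nonneg {f : Ω → ℝ} {i : Fin (k + 1)} {S : ℝ} (hS : DecI μ φ f i S) : 0 ≤ S := by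
  have h := hS 0 0
  have h2 := (abs_nonneg _).trans h
  simpa using h2

theorem nu_mem (η : ℝ) : ∀ᵐ s ∂(nu η), s ∈ Icc (0 : ℝ) η := by
  unfold nu
  exact Measure.ae_smul_measure (ae_restrict_mem measurableSet_Icc) _

/-- The second moment of the sum over the block, for a fixed `s`. -/
theorem block_sq [IsProbabilityMeasure μ] (h : IsFlow μ φ) {f : Ω → ℝ} (hf : Measurable f)
    (hf1 : ∀ x, |f x| ≤ 1) {i : Fin (k + 1)} {S : ℝ} (hS : DecI μ φ f i S) (q : ℕ → ℝ)
    (K : ℕ) {c η : ℝ} (hc : 0 < c) (hη : 0 < η)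
    (hsep : ∀ m < K, ∀ l < K, c * |(m : ℝ) - l| ≤ |q m - q l|) (s : ℝ) :
    ∫ s', ∫ x, (∑ m ∈ range K, f (φ (Pi.single i ((s' - s) * q m)) x)) ^ 2 ∂μ ∂(nu η)
      ≤ K + 4 * (S / (η * c)) * K * Real.sqrt K := by
  have hν := nu_prob hη
  have hS0 : 0 ≤ S := hS.nonneg
  have hsm := single_measurable i
  have hmg : ∀ (g : ℝ) m, Measurable (fun x : Ω => f (φ (Pi.single i (g * q m)) x)) := fun g m =>
    h.meas_comp hf measurable_const measurable_id
  have hb : ∀ (g : ℝ) m l x, |f (φ (Pi.single i (g * q m)) x) * f (φ (Pi.single i (g * q l)) x)|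
      ≤ 1 := by
    intro g m l x
    rw [abs_mul]
    exact mul_le_one₀ (hf1 _) (abs_nonneg _) (hf1 _)
  have h1 : ∀ g : ℝ, ∫ x, (∑ m ∈ range K, f (φ (Pi.single i (g * q m)) x)) ^ 2 ∂μ
      = ∑ m ∈ range K, ∑ l ∈ range K,
        ∫ x, f x * f (φ (Pi.single i (g * (q l - q m))) x) ∂μ := by
    intro g
    have h2 : ∀ x, (∑ m ∈ range K, f (φ (Pi.single i (g * q m)) x)) ^ 2
        = ∑ m ∈ range K, ∑ l ∈ range K,
          f (φ (Pi.single i (g * q m)) x) * f (φ (Pi.single i (g * q l)) x) := by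
      intro x
      rw [sq, Finset.sum_mul_sum]
    simp_rw [h2]
    rw [integral_finsetSum]
    · refine Finset.sum_congr rfl fun m _ => ?_
      rw [integral_finsetSum]
      · refine Finset.sum_congr rfl fun l _ => ?_
        rw [← h.integral_comp (Pi.single i (g * q m))
          (g := fun x => f x * f (φ (Pi.single i (g * (q l - q m))) x))
          (hf.mul (h.meas_comp hf measurable_const measurable_id))]
        refine integral_congr_ae (Filter.Eventually.of_forall fun x => ?_)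
        simp only
        rw [← h.add, ← Pi.single_add]
        have r : g * (q l - q m) + g * q m = g * q l := by ring
        rw [r]
      · intro l _
        exact integrable_bd ((hmg g m).mul (hmg g l)) 1 (hb g m l)
    · intro m _
      apply integrable_finsetSum
      intro l _
      exact integrable_bd ((hmg g m).mul (hmg g l)) 1 (hb g m l)
  simp_rw [h1]
  have hint : ∀ l : ℝ, Integrable (fun s' : ℝ => ∫ x, f x * f (φ (Pi.single i ((s' - s) * l)) x) ∂μ)
      (nu η) := by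
    intro l
    refine integrable_bd ?_ 1 ?_
    · have : Measurable (fun z : ℝ × Ω => f z.2 * f (φ (Pi.single i ((z.1 - s) * l)) z.2)) := by
        refine (hf.comp measurable_snd).mul (h.meas_comp hf ?_ measurable_snd)
        exact hsm.comp ((measurable_fst.sub_const s).mul_const l)
      exact (this.stronglyMeasurable.integral_prod_right).measurable
    · intro g
      apply abs_integral_bd
      intro x
      rw [abs_mul]
      exact mul_le_one₀ (hf1 _) (abs_nonneg _) (hf1 _)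
  rw [integral_finsetSum _ (fun m _ => integrable_finsetSum _ fun l _ => hint _)]
  simp_rw [integral_finsetSum _ (fun l (_ : l ∈ range K) => hint _)]
  have h3 : ∀ m ∈ range K, ∀ l ∈ range K,
      ∫ s', ∫ x, f x * f (φ (Pi.single i ((s' - s) * (q l - q m))) x) ∂μ ∂(nu η)
        ≤ (if m = l then (1 : ℝ) else 0)
          + (S / (η * c)) * (if m = l then (0 : ℝ) else 1 / |(m : ℝ) - l|) := by
    intro m hm l hl
    rw [Finset.mem_range] at hm hl
    by_cases hml : m = l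
    · subst hml
      rw [if_pos rfl, if_pos rfl]
      have h4 : |∫ s', ∫ x, f x * f (φ (Pi.single i ((s' - s) * (q m - q m))) x) ∂μ ∂(nu η)| ≤ 1 := by
        refine abs_integral_bd 1 fun s' => abs_integral_bd 1 fun x => ?_
        rw [abs_mul]
        exact mul_le_one₀ (hf1 _) (abs_nonneg _) (hf1 _)
      rw [mul_zero, add_zero]
      exact (le_abs_self _).trans h4
    · rw [if_neg hml, if_neg hml]
      have hml' : (m : ℝ) ≠ l := by exact_mod_cast hml
      have h4 : 0 < |(m : ℝ) - l| := abs_pos.2 (sub_ne_zero.2 hml')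
      have h5 := hsep m hm l hl
      have h6 : 0 < |q m - q l| := lt_of_lt_of_le (by positivity) h5
      have h7 : q l - q m ≠ 0 := by
        intro h8
        have : q m - q l = 0 := by linarith
        rw [this] at h6
        simp at h6
      have h8 := nu_dec hS hη s h7
      rw [abs_sub_comm (q l) (q m)] at h8
      refine (le_abs_self _).trans (h8.trans ?_)
      rw [zero_add, div_mul_div_comm, mul_one]
      refine div_le_div_of_nonneg_left hS0 (by positivity) ?_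
      rw [mul_assoc]
      exact mul_le_mul_of_nonneg_left h5 hη.le
  calc _ ≤ ∑ m ∈ range K, ∑ l ∈ range K, ((if m = l then (1 : ℝ) else 0)
          + (S / (η * c)) * (if m = l then (0 : ℝ) else 1 / |(m : ℝ) - l|)) :=
        Finset.sum_le_sum fun m hm => Finset.sum_le_sum fun l hl => h3 m hm l hl
    _ = K + (S / (η * c)) * ∑ m ∈ range K, ∑ l ∈ range K,
          (if m = l then (0 : ℝ) else 1 / |(m : ℝ) - l|) := by
        simp_rw [Finset.sum_add_distrib, ← Finset.mul_sum]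
        congr 1
        have : ∀ m ∈ range K, ∑ l ∈ range K, (if m = l then (1 : ℝ) else 0) = 1 := by
          intro m hm
          rw [Finset.sum_ite_eq, if_pos hm]
        rw [Finset.sum_congr rfl this, Finset.sum_const, card_range, nsmul_eq_mul, mul_one]
    _ ≤ _ := by
        have := mul_le_mul_of_nonneg_left (harm_two K) (div_nonneg hS0 (mul_pos hη hc).le)
        nlinarith

theorem block_le [IsProbabilityMeasure μ] (h : IsFlow μ φ) {f : Ω → ℝ} (hf : Measurable f)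
    (hf1 : ∀ x, |f x| ≤ 1) {i : Fin (k + 1)} {S : ℝ} (hS : DecI μ φ f i S) (α p : Vec k)
    (q : ℕ → Vec k) (K : ℕ) {c ρ η : ℝ} (hc : 0 < c) (hη : 0 < η) (hη1 : η ≤ 1) (hρ : 0 ≤ ρ)
    (hsep : ∀ m < K, ∀ l < K, c * |(m : ℝ) - l| ≤ |q m i - q l i|)
    (hclose : ∀ m < K, ∀ j, |q m j - q 0 j| ≤ ρ * |q 0 j - p j|) :
    ∑ m ∈ range K, ∫ τ, ∫ x, (corr φ f i (nu η) τ p (q m) x) ^ 2 ∂μ ∂(kap α i η)
      ≤ 2 * Real.sqrt (K + 4 * (S / (η * c)) * K * Real.sqrt K)
        + 2 ^ k * (4 * (‖α‖ + 3)) * (k + 1) * ρ * K := by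
  have hν := nu_prob hη
  have hκ := kap_fin α i η
  have hκ2 := kap_univ α i hη.le hη1
  have hsm := single_measurable i
  set ν : Measure ℝ := nu η with hνdef
  set κ : Measure (Vec k) := kap α i η with hκdef
  set m₃ : Measure ((ℝ × ℝ) × Ω) := (ν.prod ν).prod μ with hm₃
  -- measurability
  have hmk : ∀ m, Measurable (fun z : (ℝ × ℝ) × Ω =>
      f (φ (Pi.single i ((z.1.2 - z.1.1) * q m i)) z.2)) := by
    intro m
    refine h.meas_comp hf ?_ measurable_snd
    exact hsm.comp ((by fun_prop : Measurable (fun z : (ℝ × ℝ) × Ω => (z.1.2 - z.1.1) * q m i)))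
  have hw : ∀ D, Measurable (fun z : (ℝ × ℝ) × Ω =>
      wnd φ f i κ z.1.1 (z.1.2 - z.1.1) p D z.2) := by
    intro D
    have h1 := wnd_measurable h hf i κ p D
    exact h1.comp (by fun_prop : Measurable (fun z : (ℝ × ℝ) × Ω =>
      ((z.1.1, z.1.2 - z.1.1), z.2)))
  have hfz : Measurable (fun z : (ℝ × ℝ) × Ω => f z.2) := hf.comp measurable_snd
  -- the terms
  have hT1 : ∀ m D, ∀ z : (ℝ × ℝ) × Ω,
      |f z.2 * f (φ (Pi.single i ((z.1.2 - z.1.1) * q m i)) z.2)
        * wnd φ f i κ z.1.1 (z.1.2 - z.1.1) p D z.2| ≤ 2 := by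
    intro m D z
    rw [abs_mul, abs_mul]
    have a1 : |f z.2| * |f (φ (Pi.single i ((z.1.2 - z.1.1) * q m i)) z.2)| ≤ 1 :=
      mul_le_one₀ (hf1 _) (abs_nonneg _) (hf1 _)
    have a2 : |wnd φ f i κ z.1.1 (z.1.2 - z.1.1) p D z.2| ≤ 2 :=
      (wnd_abs_le hf1 i κ _ _ _ _ _).trans hκ2
    calc _ ≤ 1 * 2 := mul_le_mul a1 a2 (abs_nonneg _) zero_le_one
      _ = 2 := one_mul _
  have hTi : ∀ m D, Integrable (fun z : (ℝ × ℝ) × Ω =>
      f z.2 * f (φ (Pi.single i ((z.1.2 - z.1.1) * q m i)) z.2)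
        * wnd φ f i κ z.1.1 (z.1.2 - z.1.1) p D z.2) m₃ := fun m D =>
    integrable_bd ((hfz.mul (hmk m)).mul (hw D)) 2 (hT1 m D)
  -- triple integrals
  have htrip : ∀ (G : (ℝ × ℝ) × Ω → ℝ) (C : ℝ), Measurable G → (∀ z, |G z| ≤ C) →
      ∫ s, ∫ s', ∫ x, G ((s, s'), x) ∂μ ∂ν ∂ν = ∫ z, G z ∂m₃ := by
    intro G C hG hC
    rw [hm₃, integral_prod _ (integrable_bd hG C hC), integral_prod]
    refine integrable_bd ?_ C fun z => abs_integral_bd C fun x => hC _
    exact (hG.stronglyMeasurable.integral_prod_right' (ν := μ)).measurable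
  have e1 : ∀ m, ∫ τ, ∫ x, (corr φ f i ν τ p (q m) x) ^ 2 ∂μ ∂κ
      = ∫ z, f z.2 * f (φ (Pi.single i ((z.1.2 - z.1.1) * q m i)) z.2)
        * wnd φ f i κ z.1.1 (z.1.2 - z.1.1) p (q m - p) z.2 ∂m₃ := by
    intro m
    rw [sq_corr h hf hf1 i ν κ p (q m)]
    exact htrip (fun z => f z.2 * f (φ (Pi.single i ((z.1.2 - z.1.1) * q m i)) z.2)
        * wnd φ f i κ z.1.1 (z.1.2 - z.1.1) p (q m - p) z.2) 2
        ((hfz.mul (hmk m)).mul (hw _)) (hT1 m _)
  have hae : ∀ᵐ z ∂m₃, z.1.1 ∈ Icc (0 : ℝ) η := by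
    have h1 : ∀ᵐ w ∂(ν.prod ν), w.1 ∈ Icc (0 : ℝ) η :=
      (Measure.quasiMeasurePreserving_fst (μ := ν) (ν := ν)).ae (nu_mem η)
    exact (Measure.quasiMeasurePreserving_fst (μ := ν.prod ν) (ν := μ)).ae h1
  have e2 : ∀ m < K, ∫ z, f z.2 * f (φ (Pi.single i ((z.1.2 - z.1.1) * q m i)) z.2)
        * wnd φ f i κ z.1.1 (z.1.2 - z.1.1) p (q m - p) z.2 ∂m₃
      ≤ (∫ z, f z.2 * f (φ (Pi.single i ((z.1.2 - z.1.1) * q m i)) z.2)
        * wnd φ f i κ z.1.1 (z.1.2 - z.1.1) p (q 0 - p) z.2 ∂m₃)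
        + 2 ^ k * (4 * (‖α‖ + 3)) * (k + 1) * ρ := by
    intro m hm
    have h1 : (∫ z, f z.2 * f (φ (Pi.single i ((z.1.2 - z.1.1) * q m i)) z.2)
        * wnd φ f i κ z.1.1 (z.1.2 - z.1.1) p (q m - p) z.2 ∂m₃)
        - (∫ z, f z.2 * f (φ (Pi.single i ((z.1.2 - z.1.1) * q m i)) z.2)
        * wnd φ f i κ z.1.1 (z.1.2 - z.1.1) p (q 0 - p) z.2 ∂m₃)
        = ∫ z, f z.2 * f (φ (Pi.single i ((z.1.2 - z.1.1) * q m i)) z.2)
          * (wnd φ f i κ z.1.1 (z.1.2 - z.1.1) p (q m - p) z.2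
            - wnd φ f i κ z.1.1 (z.1.2 - z.1.1) p (q 0 - p) z.2) ∂m₃ := by
      rw [← integral_sub (hTi _ _) (hTi _ _)]
      refine integral_congr_ae (Filter.Eventually.of_forall fun z => ?_)
      simp only
      ring
    have h2 : ∀ᵐ z ∂m₃, f z.2 * f (φ (Pi.single i ((z.1.2 - z.1.1) * q m i)) z.2)
          * (wnd φ f i κ z.1.1 (z.1.2 - z.1.1) p (q m - p) z.2
            - wnd φ f i κ z.1.1 (z.1.2 - z.1.1) p (q 0 - p) z.2)
        ≤ 2 ^ k * (4 * (‖α‖ + 3)) * ((k + 1) * ρ) := by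
      filter_upwards [hae] with z hz
      have h5 := wnd_sub_le h hf hf1 α p (q m - p) (q 0 - p) i (g := z.1.2 - z.1.1)
        hη.le hη1 hz (fun j => by
          by_cases h0 : q 0 j - p j = 0
          · right
            have := hclose m hm j
            rw [h0, abs_zero, mul_zero] at this
            have h8 : q m j - q 0 j = 0 := abs_eq_zero.1 (le_antisymm this (abs_nonneg _))
            simp only [Pi.sub_apply]
            linarith
          · left
            exact h0) z.2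
      have h6 : ∑ j, |(q m - p) j - (q 0 - p) j| / |(q 0 - p) j| ≤ (k + 1) * ρ := by
        have h7 : ∀ j ∈ (Finset.univ : Finset (Fin (k + 1))),
            |(q m - p) j - (q 0 - p) j| / |(q 0 - p) j| ≤ ρ := by
          intro j _
          simp only [Pi.sub_apply]
          have : q m j - p j - (q 0 j - p j) = q m j - q 0 j := by ring
          rw [this]
          exact div_le_of_le_mul₀ (abs_nonneg _) hρ (hclose m hm j)
        refine (Finset.sum_le_sum h7).trans (le_of_eq ?_)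
        rw [Finset.sum_const, Finset.card_univ, Fintype.card_fin, nsmul_eq_mul]
        push_cast
        ring
      have h8 := mul_le_mul_of_nonneg_left h6
        (by positivity : (0 : ℝ) ≤ 2 ^ k * (4 * (‖α‖ + 3)))
      refine (le_abs_self _).trans ?_
      rw [abs_mul, abs_mul]
      calc |f z.2| * |f (φ (Pi.single i ((z.1.2 - z.1.1) * q m i)) z.2)|
            * |wnd φ f i κ z.1.1 (z.1.2 - z.1.1) p (q m - p) z.2
            - wnd φ f i κ z.1.1 (z.1.2 - z.1.1) p (q 0 - p) z.2|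
          ≤ 1 * |wnd φ f i κ z.1.1 (z.1.2 - z.1.1) p (q m - p) z.2
            - wnd φ f i κ z.1.1 (z.1.2 - z.1.1) p (q 0 - p) z.2| :=
            mul_le_mul_of_nonneg_right (mul_le_one₀ (hf1 _) (abs_nonneg _) (hf1 _))
              (abs_nonneg _)
        _ ≤ _ := by
            rw [one_mul]
            exact h5.trans h8
    have h9 : ∫ z, f z.2 * f (φ (Pi.single i ((z.1.2 - z.1.1) * q m i)) z.2)
          * (wnd φ f i κ z.1.1 (z.1.2 - z.1.1) p (q m - p) z.2
            - wnd φ f i κ z.1.1 (z.1.2 - z.1.1) p (q 0 - p) z.2) ∂m₃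
        ≤ ∫ _, 2 ^ k * (4 * (‖α‖ + 3)) * ((k + 1) * ρ) ∂m₃ := by
      refine integral_mono_ae ?_ (integrable_const _) h2
      have : (fun z : (ℝ × ℝ) × Ω => f z.2 * f (φ (Pi.single i ((z.1.2 - z.1.1) * q m i)) z.2)
          * (wnd φ f i κ z.1.1 (z.1.2 - z.1.1) p (q m - p) z.2
            - wnd φ f i κ z.1.1 (z.1.2 - z.1.1) p (q 0 - p) z.2)) = fun z =>
            f z.2 * f (φ (Pi.single i ((z.1.2 - z.1.1) * q m i)) z.2)
              * wnd φ f i κ z.1.1 (z.1.2 - z.1.1) p (q m - p) z.2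
            - f z.2 * f (φ (Pi.single i ((z.1.2 - z.1.1) * q m i)) z.2)
              * wnd φ f i κ z.1.1 (z.1.2 - z.1.1) p (q 0 - p) z.2 := by
        funext z
        ring
      rw [this]
      exact (hTi _ _).sub (hTi _ _)
    rw [integral_const, probReal_univ, smul_eq_mul, one_mul] at h9
    have h10 : (2 : ℝ) ^ k * (4 * (‖α‖ + 3)) * ((k + 1) * ρ)
        = 2 ^ k * (4 * (‖α‖ + 3)) * (k + 1) * ρ := by ring
    rw [h10] at h9
    linarith
  -- the main term
  set F : (ℝ × ℝ) × Ω → ℝ := fun z =>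
    ∑ m ∈ range K, f (φ (Pi.single i ((z.1.2 - z.1.1) * q m i)) z.2) with hF
  have hFm : Measurable F := Finset.measurable_fun_sum _ fun m _ => hmk m
  have hFb : ∀ z, |F z| ≤ K := by
    intro z
    calc |F z| ≤ ∑ m ∈ range K, |f (φ (Pi.single i ((z.1.2 - z.1.1) * q m i)) z.2)| :=
          Finset.abs_sum_le_sum_abs _ _
      _ ≤ ∑ m ∈ range K, (1 : ℝ) := Finset.sum_le_sum fun m _ => hf1 _
      _ = K := by simp
  have e3 : ∑ m ∈ range K, ∫ z, f z.2 * f (φ (Pi.single i ((z.1.2 - z.1.1) * q m i)) z.2)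
        * wnd φ f i κ z.1.1 (z.1.2 - z.1.1) p (q 0 - p) z.2 ∂m₃ ≤ 2 * ∫ z, |F z| ∂m₃ := by
    rw [← integral_finsetSum _ fun m _ => hTi m _, ← integral_const_mul]
    refine integral_mono (integrable_finsetSum _ fun m _ => hTi m _) ?_ ?_
    · exact (integrable_bd hFm.abs K fun z => by
        rw [abs_abs]
        exact hFb z).const_mul 2
    · intro z
      simp only
      have h1 : ∑ m ∈ range K, f z.2 * f (φ (Pi.single i ((z.1.2 - z.1.1) * q m i)) z.2)
          * wnd φ f i κ z.1.1 (z.1.2 - z.1.1) p (q 0 - p) z.2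
          = f z.2 * wnd φ f i κ z.1.1 (z.1.2 - z.1.1) p (q 0 - p) z.2 * F z := by
        rw [hF, Finset.mul_sum]
        refine Finset.sum_congr rfl fun m _ => ?_
        ring
      rw [h1]
      refine (le_abs_self _).trans ?_
      rw [abs_mul, abs_mul]
      have a2 : |wnd φ f i κ z.1.1 (z.1.2 - z.1.1) p (q 0 - p) z.2| ≤ 2 :=
        (wnd_abs_le hf1 i κ _ _ _ _ _).trans hκ2
      calc |f z.2| * |wnd φ f i κ z.1.1 (z.1.2 - z.1.1) p (q 0 - p) z.2| * |F z|
          ≤ 1 * 2 * |F z| :=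
            mul_le_mul_of_nonneg_right (mul_le_mul (hf1 _) a2 (abs_nonneg _) zero_le_one)
              (abs_nonneg _)
        _ = 2 * |F z| := by ring
  have e4 : (∫ z, |F z| ∂m₃) ^ 2 ≤ K + 4 * (S / (η * c)) * K * Real.sqrt K := by
    have h1 := cs_bd (κ := m₃) hFm K hFb
    rw [probReal_univ, one_mul] at h1
    refine h1.trans ?_
    rw [← htrip (fun z => (F z) ^ 2) ((K : ℝ) ^ 2) (hFm.pow_const 2) (fun z => by
      rw [abs_pow]
      exact pow_le_pow_left₀ (abs_nonneg _) (hFb z) 2)]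
    have h2 : ∀ s, ∫ s', ∫ x, (F ((s, s'), x)) ^ 2 ∂μ ∂ν
        ≤ K + 4 * (S / (η * c)) * K * Real.sqrt K := fun s =>
      block_sq h hf hf1 hS (fun m => q m i) K hc hη hsep s
    have hS0 := hS.nonneg
    have h3 : ∫ s, ∫ s', ∫ x, (F ((s, s'), x)) ^ 2 ∂μ ∂ν ∂ν
        ≤ ∫ _, (K + 4 * (S / (η * c)) * K * Real.sqrt K : ℝ) ∂ν := by
      refine integral_mono_of_nonneg (Filter.Eventually.of_forall fun s => ?_)
        (integrable_const _) (Filter.Eventually.of_forall h2)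
      exact integral_nonneg fun s' => integral_nonneg fun x => sq_nonneg _
    rwa [integral_const, probReal_univ, one_smul] at h3
  have e5 : ∫ z, |F z| ∂m₃ ≤ Real.sqrt (K + 4 * (S / (η * c)) * K * Real.sqrt K) :=
    Real.le_sqrt_of_sq_le e4
  calc ∑ m ∈ range K, ∫ τ, ∫ x, (corr φ f i ν τ p (q m) x) ^ 2 ∂μ ∂κ
      = ∑ m ∈ range K, ∫ z, f z.2 * f (φ (Pi.single i ((z.1.2 - z.1.1) * q m i)) z.2)
        * wnd φ f i κ z.1.1 (z.1.2 - z.1.1) p (q m - p) z.2 ∂m₃ :=
        Finset.sum_congr rfl fun m _ => e1 m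
    _ ≤ ∑ m ∈ range K, ((∫ z, f z.2 * f (φ (Pi.single i ((z.1.2 - z.1.1) * q m i)) z.2)
        * wnd φ f i κ z.1.1 (z.1.2 - z.1.1) p (q 0 - p) z.2 ∂m₃)
        + 2 ^ k * (4 * (‖α‖ + 3)) * (k + 1) * ρ) :=
        Finset.sum_le_sum fun m hm => e2 m (Finset.mem_range.1 hm)
    _ ≤ _ := by
        rw [Finset.sum_add_distrib, Finset.sum_const, card_range, nsmul_eq_mul]
        have r : (K : ℝ) * (2 ^ k * (4 * (‖α‖ + 3)) * (k + 1) * ρ)
            = 2 ^ k * (4 * (‖α‖ + 3)) * (k + 1) * ρ * K := by ring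
        rw [r]
        linarith

end Pool.AEW
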