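import Pool.Agent.AEW.Block
import Pool.Agent.AEV.PolySum

/-!
# Summation over the blocks
-/

set_option autoImplicit false

open MeasureTheory Set Finset
open Pool.AET (GrowInc sum_blocks far_le growInc_C abs_integral_bd)
open Pool.AEV (Vec IsFlow)

namespace Pool.AEW

variable {k : ℕ} {Ω : Type*} [MeasurableSpace Ω] {μ : Measure Ω} {φ : Vec k → Ω → Ω}

theorem pair_le [IsProbabilityMeasure μ] (h : IsFlow μ φ) {f : Ω → ℝ} (hf : Measurable f)
    (hf1 : ∀ x, |f x| ≤ 1) {i : Fin (k + 1)} {S : ℝ} (hS : DecI μ φ f i S) (α : Vec k)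
    (q : ℕ → Vec k) {c C : ℝ} {e : Fin (k + 1) → ℕ} {E D : ℕ} (hE : ∀ l, e l ≤ E)
    (heD : e i ≤ D)
    (hc : 0 < c) (hqi : GrowInc (fun n => q n i) c C (e i))
    (hq : ∀ j, GrowInc (fun n => q n j) c C (e j) ∨ ∀ n, q n j = q 0 j)
    (Q M N : ℕ) (hQ : 1 ≤ Q) (hM : M = Q ^ (4 * D + 12)) (hN : N = M ^ 3) (n j : ℕ)
    (hj : M ^ 2 ≤ j * Q ^ 2)
    (hfar : n + M ^ 2 ≤ j * M ∨ j * M + M ^ 2 ≤ n) :
    ∑ m ∈ range M, ∫ τ, ∫ x, (corr φ f i (nu (((Q : ℝ) ^ 2 * (N : ℝ) ^ (e i))⁻¹)) τ (q n)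
        (q (j * M + m)) x) ^ 2 ∂μ ∂(kap α i (((Q : ℝ) ^ 2 * (N : ℝ) ^ (e i))⁻¹))
      ≤ (2 * Real.sqrt (1 + 4 * (S / c))
          + 2 ^ k * (4 * (‖α‖ + 3)) * (k + 1) * (C * 2 ^ E / c)) * (Q : ℝ) ^ (4 * D + 10) := by
  have hS0 : 0 ≤ S := hS.nonneg
  have hC := growInc_C hc hqi
  have hM1 : 1 ≤ M := by
    rw [hM]
    exact Nat.one_le_pow _ _ hQ
  have hM1' : (1 : ℝ) ≤ M := by exact_mod_cast hM1
  have hM0 : (0 : ℝ) < M := by linarith
  have hQ1 : (1 : ℝ) ≤ Q := by exact_mod_cast hQ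
  have hQ0 : (0 : ℝ) < Q := by linarith
  have hj0 : 1 ≤ j := by
    rcases Nat.eq_zero_or_pos j with h0 | h0
    · subst h0
      have : 1 ≤ M ^ 2 := Nat.one_le_pow _ _ hM1
      omega
    · exact h0
  have hj1 : (1 : ℝ) ≤ j := by exact_mod_cast hj0
  have hN1 : 1 ≤ N := by
    rw [hN]
    exact Nat.one_le_pow _ _ hM1
  have hN1' : (1 : ℝ) ≤ N := by exact_mod_cast hN1
  have hN0 : (0 : ℝ) < N := by linarith
  have hNM : (N : ℝ) = (M : ℝ) ^ 3 := by rw [hN]; push_cast; ring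
  set η : ℝ := ((Q : ℝ) ^ 2 * (N : ℝ) ^ (e i))⁻¹ with hη
  have hη0 : 0 < η := by positivity
  have hη1 : η ≤ 1 := by
    rw [hη]
    apply inv_le_one_of_one_le₀
    have a1 : (1 : ℝ) ≤ (Q : ℝ) ^ 2 := one_le_pow₀ hQ1
    have a2 : (1 : ℝ) ≤ (N : ℝ) ^ (e i) := one_le_pow₀ hN1'
    nlinarith
  -- the base point of the block is large
  have hbase : (N : ℝ) / (Q : ℝ) ^ 2 ≤ (j : ℝ) * M := by
    rw [div_le_iff₀ (by positivity), hNM]
    have h1 : ((M : ℝ)) ^ 2 ≤ (j : ℝ) * (Q : ℝ) ^ 2 := by exact_mod_cast hj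
    calc (M : ℝ) ^ 3 = (M : ℝ) ^ 2 * M := by ring
      _ ≤ ((j : ℝ) * (Q : ℝ) ^ 2) * M := mul_le_mul_of_nonneg_right h1 hM0.le
      _ = (j : ℝ) * M * (Q : ℝ) ^ 2 := by ring
  set cb : ℝ := c * ((N : ℝ) / (Q : ℝ) ^ 2) ^ (e i) with hcb
  have hcb0 : 0 < cb := by positivity
  have hfar' : ∀ l, GrowInc (fun n => q n l) c C (e l) →
      c * (M : ℝ) ^ 2 * ((j : ℝ) * M) ^ (e l) ≤ |q (j * M) l - q n l| := by
    intro l hl
    have := far_le hc hl (n := n) (m := j * M) (d := M ^ 2) (Nat.one_le_pow _ _ hM1) hfar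
    push_cast at this
    exact this
  have hb := block_le h hf hf1 hS α (q n) (fun m => q (j * M + m)) M (c := cb)
    (ρ := C * 2 ^ E / (c * M)) (η := η) hcb0 hη0 hη1 (by positivity) ?_ ?_
  · refine hb.trans ?_
    have hMc : (M : ℝ) = (Q : ℝ) ^ (4 * D + 12) := by rw [hM]; push_cast; rfl
    have hηcb : η * cb = c / (Q : ℝ) ^ (2 * (e i) + 2) := by
      rw [hη, hcb, div_pow, ← pow_mul, pow_add, pow_mul]
      have : (N : ℝ) ^ (e i) ≠ 0 := by positivity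
      field_simp
    have hsq : Real.sqrt (M : ℝ) = (Q : ℝ) ^ (2 * D + 6) := by
      rw [hMc, show (Q : ℝ) ^ (4 * D + 12) = ((Q : ℝ) ^ (2 * D + 6)) ^ 2 by
        rw [← pow_mul]; congr 1; ring]
      exact Real.sqrt_sq (by positivity)
    have h1 : 2 * Real.sqrt (M + 4 * (S / (η * cb)) * M * Real.sqrt M)
        ≤ 2 * Real.sqrt (1 + 4 * (S / c)) * (Q : ℝ) ^ (4 * D + 10) := by
      rw [mul_assoc 2 (Real.sqrt (1 + 4 * (S / c)))]
      apply mul_le_mul_of_nonneg_left _ (by norm_num)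
      have h2 : Real.sqrt (1 + 4 * (S / c)) * (Q : ℝ) ^ (4 * D + 10)
          = Real.sqrt ((1 + 4 * (S / c)) * ((Q : ℝ) ^ (4 * D + 10)) ^ 2) := by
        rw [Real.sqrt_mul (by positivity), Real.sqrt_sq (by positivity)]
      rw [h2]
      apply Real.sqrt_le_sqrt
      rw [hηcb, hsq, hMc, add_mul, one_mul]
      have h3 : S / (c / (Q : ℝ) ^ (2 * (e i) + 2)) = (S / c) * (Q : ℝ) ^ (2 * (e i) + 2) := by
        field_simp
      rw [h3]
      have h4 : ((Q : ℝ) ^ (4 * D + 10)) ^ 2 = (Q : ℝ) ^ (8 * D + 20) := by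
        rw [← pow_mul]
        congr 1
        ring
      rw [h4]
      have h5 : (Q : ℝ) ^ (4 * D + 12) ≤ (Q : ℝ) ^ (8 * D + 20) :=
        pow_le_pow_right₀ hQ1 (by omega)
      have h6 : (Q : ℝ) ^ (2 * (e i) + 2) * (Q : ℝ) ^ (4 * D + 12) * (Q : ℝ) ^ (2 * D + 6)
          ≤ (Q : ℝ) ^ (8 * D + 20) := by
        rw [← pow_add, ← pow_add]
        exact pow_le_pow_right₀ hQ1 (by omega)
      have h7 : 0 ≤ 4 * (S / c) := by positivity
      have h8 := mul_le_mul_of_nonneg_left h6 h7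
      have h9 : 4 * (S / c * (Q : ℝ) ^ (2 * (e i) + 2)) * (Q : ℝ) ^ (4 * D + 12)
          * (Q : ℝ) ^ (2 * D + 6)
          = 4 * (S / c) * ((Q : ℝ) ^ (2 * (e i) + 2) * (Q : ℝ) ^ (4 * D + 12)
            * (Q : ℝ) ^ (2 * D + 6)) := by ring
      rw [h9]
      linarith
    have h2 : 2 ^ k * (4 * (‖α‖ + 3)) * (k + 1) * (C * 2 ^ E / (c * M)) * M
        ≤ 2 ^ k * (4 * (‖α‖ + 3)) * (k + 1) * (C * 2 ^ E / c) * (Q : ℝ) ^ (4 * D + 10) := by
      have h3 : C * 2 ^ E / (c * M) * M = C * 2 ^ E / c := by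
        field_simp
      rw [mul_assoc (2 ^ k * (4 * (‖α‖ + 3)) * ((k : ℝ) + 1)), h3]
      have h4 : (1 : ℝ) ≤ (Q : ℝ) ^ (4 * D + 10) := one_le_pow₀ hQ1
      have h5 : 0 ≤ 2 ^ k * (4 * (‖α‖ + 3)) * ((k : ℝ) + 1) * (C * 2 ^ E / c) := by
        positivity
      nlinarith
    rw [add_mul]
    exact add_le_add h1 h2
  · intro m _ l _
    have haux : ∀ m l : ℕ, m < l →
        cb * |(m : ℝ) - l| ≤ |q (j * M + m) i - q (j * M + l) i| := by
      intro m l hml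
      have h1 := (hqi (j * M + m) (j * M + l) (by omega)).1
      have hml' : (m : ℝ) < l := by exact_mod_cast hml
      rw [abs_sub_comm (q (j * M + m) i), abs_of_neg (by linarith : (m : ℝ) - l < 0)]
      refine le_trans ?_ h1
      push_cast
      have h2 : ((N : ℝ) / (Q : ℝ) ^ 2) ^ (e i) ≤ ((j : ℝ) * M + l + 1) ^ (e i) := by
        apply pow_le_pow_left₀ (by positivity)
        have : (0 : ℝ) ≤ (l : ℝ) := by positivity
        linarith
      have h3 : 0 ≤ c * (l - m) := mul_nonneg hc.le (by linarith)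
      have h4 : (j : ℝ) * M + l - (j * M + m) = l - m := by ring
      rw [h4, hcb]
      have h5 := mul_le_mul_of_nonneg_left h2 h3
      calc c * ((N : ℝ) / (Q : ℝ) ^ 2) ^ (e i) * -((m : ℝ) - l)
          = c * (l - m) * ((N : ℝ) / (Q : ℝ) ^ 2) ^ (e i) := by ring
        _ ≤ _ := h5
    rcases lt_trichotomy m l with hml | hml | hml
    · exact haux m l hml
    · subst hml
      simp
    · rw [abs_sub_comm (m : ℝ), abs_sub_comm (q (j * M + m) i)]
      exact haux l m hml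
  · intro m hm l
    simp only [add_zero]
    rcases hq l with hl | hl
    swap
    · rw [hl (j * M + m), hl (j * M), sub_self, abs_zero]
      positivity
    rcases Nat.eq_zero_or_pos m with hm0 | hm0
    · subst hm0
      simp only [add_zero, sub_self, abs_zero]
      positivity
    · have h1 := (hl (j * M) (j * M + m) (by omega)).2
      refine h1.trans ?_
      push_cast
      have h4 : (j : ℝ) * M + m - (j * M) = m := by ring
      rw [h4]
      have hmM : (m : ℝ) + 1 ≤ M := by exact_mod_cast hm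
      have h5 : ((j : ℝ) * M + m + 1) ^ (e l) ≤ (2 * ((j : ℝ) * M)) ^ (e l) := by
        apply pow_le_pow_left₀ (by positivity)
        nlinarith
      rw [mul_pow] at h5
      have h6 : (2 : ℝ) ^ (e l) ≤ 2 ^ E := pow_le_pow_right₀ (by norm_num) (hE l)
      calc C * m * ((j : ℝ) * M + m + 1) ^ (e l)
          ≤ C * M * (2 ^ (e l) * ((j : ℝ) * M) ^ (e l)) := by
            apply mul_le_mul _ h5 (by positivity) (by positivity)
            exact mul_le_mul_of_nonneg_left (by linarith) hC.le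
        _ ≤ C * M * (2 ^ E * ((j : ℝ) * M) ^ (e l)) := by
            apply mul_le_mul_of_nonneg_left _ (by positivity)
            exact mul_le_mul_of_nonneg_right h6 (by positivity)
        _ = C * 2 ^ E / (c * M) * (c * (M : ℝ) ^ 2 * ((j : ℝ) * M) ^ (e l)) := by
            field_simp
        _ ≤ C * 2 ^ E / (c * M) * |q (j * M) l - q n l| := by
            exact mul_le_mul_of_nonneg_left (hfar' l hl) (by positivity)

theorem corr_sq_le [IsProbabilityMeasure μ] {f : Ω → ℝ} (hf1 : ∀ x, |f x| ≤ 1) (α : Vec k)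
    (i : Fin (k + 1)) {η : ℝ} (hη : 0 < η) (hη1 : η ≤ 1) (p q : Vec k) :
    ∫ τ, ∫ x, (corr φ f i (nu η) τ p q x) ^ 2 ∂μ ∂(kap α i η) ≤ 2 := by
  have hν := nu_prob hη
  have hκ := kap_fin α i η
  have hκ2 := kap_univ α i hη.le hη1
  have h1 := norm_integral_le_of_norm_le_const (μ := kap α i η) (C := 1)
    (f := fun τ => ∫ x, (corr φ f i (nu η) τ p q x) ^ 2 ∂μ)
    (Filter.Eventually.of_forall fun τ => by
      rw [Real.norm_eq_abs]
      refine abs_integral_bd 1 fun x => ?_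
      rw [abs_pow]
      exact pow_le_one₀ (abs_nonneg _) (corr_abs_le hf1 _ _ _ _ _ _))
  rw [one_mul, Real.norm_eq_abs] at h1
  exact (le_abs_self _).trans (h1.trans hκ2)

theorem poly_sum [IsProbabilityMeasure μ] (h : IsFlow μ φ) {f : Ω → ℝ} (hf : Measurable f)
    (hf1 : ∀ x, |f x| ≤ 1) {i : Fin (k + 1)} {S : ℝ} (hS : DecI μ φ f i S) (α : Vec k)
    (q : ℕ → Vec k) {c C : ℝ} {e : Fin (k + 1) → ℕ} {D : ℕ} (heD : e i ≤ D)
    (hc : 0 < c) (hqi : GrowInc (fun n => q n i) c C (e i))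
    (hq : ∀ j, GrowInc (fun n => q n j) c C (e j) ∨ ∀ n, q n j = q 0 j) :
    ∃ B : ℝ, 0 ≤ B ∧ ∀ Q N : ℕ, 1 ≤ Q → N = (Q ^ (4 * D + 12)) ^ 3 →
      ∑ n ∈ range N, ∑ n' ∈ range N,
        ∫ τ, ∫ x, (corr φ f i (nu (((Q : ℝ) ^ 2 * (N : ℝ) ^ (e i))⁻¹)) τ (q n) (q n') x) ^ 2 ∂μ
          ∂(kap α i (((Q : ℝ) ^ 2 * (N : ℝ) ^ (e i))⁻¹)) ≤ B * (N : ℝ) ^ 2 / (Q : ℝ) ^ 2 := by
  classical
  have hC := growInc_C hc hqi
  have hS0 : 0 ≤ S := hS.nonneg
  set E : ℕ := Finset.univ.sup e with hEdef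
  have hE : ∀ l, e l ≤ E := fun l => Finset.le_sup (Finset.mem_univ l)
  set B₁ : ℝ := 2 * Real.sqrt (1 + 4 * (S / c))
          + 2 ^ k * (4 * (‖α‖ + 3)) * (k + 1) * (C * 2 ^ E / c) with hB₁
  have hB₁0 : 0 ≤ B₁ := by positivity
  refine ⟨B₁ + 6, by positivity, ?_⟩
  intro Q N hQ hN
  have hQ1 : (1 : ℝ) ≤ Q := by exact_mod_cast hQ
  have hQ0 : (0 : ℝ) < Q := by linarith
  set M : ℕ := Q ^ (4 * D + 12) with hM
  have hM1 : 1 ≤ M := Nat.one_le_pow _ _ hQ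
  have hMc : (M : ℝ) = (Q : ℝ) ^ (4 * D + 12) := by rw [hM]; push_cast; rfl
  have hM0 : (0 : ℝ) ≤ M := Nat.cast_nonneg _
  have hN1 : 1 ≤ N := by
    rw [hN]
    exact Nat.one_le_pow _ _ hM1
  have hN1' : (1 : ℝ) ≤ N := by exact_mod_cast hN1
  have hη0 : 0 < ((Q : ℝ) ^ 2 * (N : ℝ) ^ (e i))⁻¹ := by positivity
  have hη1 : ((Q : ℝ) ^ 2 * (N : ℝ) ^ (e i))⁻¹ ≤ 1 := by
    apply inv_le_one_of_one_le₀
    have a1 : (1 : ℝ) ≤ (Q : ℝ) ^ 2 := one_le_pow₀ hQ1
    have a2 : (1 : ℝ) ≤ (N : ℝ) ^ (e i) := one_le_pow₀ hN1'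
    nlinarith
  set I : ℕ → ℕ → ℝ := fun n n' =>
    ∫ τ, ∫ x, (corr φ f i (nu (((Q : ℝ) ^ 2 * (N : ℝ) ^ (e i))⁻¹)) τ (q n) (q n') x) ^ 2 ∂μ
          ∂(kap α i (((Q : ℝ) ^ 2 * (N : ℝ) ^ (e i))⁻¹)) with hI
  have hI2 : ∀ n n', I n n' ≤ 2 := fun n n' => corr_sq_le hf1 α i hη0 hη1 (q n) (q n')
  have h1 : ∀ n : ℕ, ∑ n' ∈ range N, I n n'
      = ∑ j ∈ range (M ^ 2), ∑ m ∈ range M, I n (j * M + m) := by
    intro n
    rw [hN, pow_succ M 2, sum_blocks]
  have h2 : ∀ n j : ℕ, ∑ m ∈ range M, I n (j * M + m)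
      ≤ B₁ * (Q : ℝ) ^ (4 * D + 10) + (if j * Q ^ 2 < M ^ 2 then 2 * (M : ℝ) else 0)
        + (if n < j * M + M ^ 2 ∧ j * M < n + M ^ 2 then 2 * (M : ℝ) else 0) := by
    intro n j
    have htriv : ∑ m ∈ range M, I n (j * M + m) ≤ 2 * M := by
      calc _ ≤ ∑ m ∈ range M, (2 : ℝ) := Finset.sum_le_sum fun m _ => hI2 _ _
        _ = 2 * M := by
          rw [Finset.sum_const, card_range, nsmul_eq_mul]
          ring
    have hB₁Q : 0 ≤ B₁ * (Q : ℝ) ^ (4 * D + 10) := by positivity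
    by_cases hj : j * Q ^ 2 < M ^ 2
    · rw [if_pos hj]
      have : (0 : ℝ) ≤ (if n < j * M + M ^ 2 ∧ j * M < n + M ^ 2 then 2 * (M : ℝ) else 0) := by
        split_ifs <;> positivity
      linarith
    · by_cases hn : n < j * M + M ^ 2 ∧ j * M < n + M ^ 2
      · rw [if_neg hj, if_pos hn]
        linarith
      · rw [if_neg hj, if_neg hn]
        have := pair_le h hf hf1 hS α q hE heD hc hqi hq Q M N hQ hM hN n j
          (not_lt.1 hj) (by
          rw [not_and_or] at hn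
          rcases hn with hn | hn
          · right
            exact not_lt.1 hn
          · left
            exact not_lt.1 hn)
        rw [add_zero, add_zero]
        exact this
  have h3 : ∀ j : ℕ, ∑ n ∈ range N,
      (if n < j * M + M ^ 2 ∧ j * M < n + M ^ 2 then 2 * (M : ℝ) else 0)
        ≤ 2 * (M : ℝ) ^ 2 * (2 * M) := by
    intro j
    rw [← Finset.sum_filter, Finset.sum_const, nsmul_eq_mul]
    apply mul_le_mul_of_nonneg_right _ (by positivity)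
    have h4 : ((range N).filter (fun n => n < j * M + M ^ 2 ∧ j * M < n + M ^ 2)).card
        ≤ 2 * M ^ 2 := by
      calc _ ≤ (Finset.Ico (j * M - M ^ 2) (j * M + M ^ 2)).card := by
            apply Finset.card_le_card
            intro n hn
            simp only [Finset.mem_filter, Finset.mem_range, Finset.mem_Ico] at hn ⊢
            omega
        _ ≤ 2 * M ^ 2 := by
            rw [Nat.card_Ico]
            omega
    exact_mod_cast h4
  have hMQ : M ^ 2 = Q ^ (8 * D + 22) * Q ^ 2 := by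
    rw [hM, ← pow_mul, ← pow_add]
    congr 1
    ring
  have h4 : ∑ j ∈ range (M ^ 2), (if j * Q ^ 2 < M ^ 2 then 2 * (M : ℝ) else 0)
      ≤ (Q : ℝ) ^ (8 * D + 22) * (2 * M) := by
    rw [← Finset.sum_filter, Finset.sum_const, nsmul_eq_mul]
    apply mul_le_mul_of_nonneg_right _ (by positivity)
    have h5 : ((range (M ^ 2)).filter (fun j => j * Q ^ 2 < M ^ 2)).card ≤ Q ^ (8 * D + 22) := by
      calc _ ≤ (Finset.range (Q ^ (8 * D + 22))).card := by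
            apply Finset.card_le_card
            intro j hj
            simp only [Finset.mem_filter, Finset.mem_range] at hj ⊢
            obtain ⟨_, hj⟩ := hj
            rw [hMQ] at hj
            exact lt_of_mul_lt_mul_right hj (Nat.zero_le _)
        _ = _ := Finset.card_range _
    exact_mod_cast h5
  have hNM : (N : ℝ) = (M : ℝ) ^ 3 := by rw [hN]; push_cast; ring
  calc ∑ n ∈ range N, ∑ n' ∈ range N, I n n'
      = ∑ n ∈ range N, ∑ j ∈ range (M ^ 2), ∑ m ∈ range M, I n (j * M + m) :=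
        Finset.sum_congr rfl fun n _ => h1 n
    _ ≤ ∑ n ∈ range N, ∑ j ∈ range (M ^ 2), (B₁ * (Q : ℝ) ^ (4 * D + 10)
          + (if j * Q ^ 2 < M ^ 2 then 2 * (M : ℝ) else 0)
          + (if n < j * M + M ^ 2 ∧ j * M < n + M ^ 2 then 2 * (M : ℝ) else 0)) :=
        Finset.sum_le_sum fun n _ => Finset.sum_le_sum fun j _ => h2 n j
    _ = N * ((M : ℝ) ^ 2 * (B₁ * (Q : ℝ) ^ (4 * D + 10)))
          + N * (∑ j ∈ range (M ^ 2), (if j * Q ^ 2 < M ^ 2 then 2 * (M : ℝ) else 0))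
          + ∑ j ∈ range (M ^ 2), ∑ n ∈ range N,
            (if n < j * M + M ^ 2 ∧ j * M < n + M ^ 2 then 2 * (M : ℝ) else 0) := by
        simp_rw [Finset.sum_add_distrib]
        congr 1
        · congr 1
          · simp only [Finset.sum_const, card_range, nsmul_eq_mul]
            push_cast
            ring
          · rw [Finset.sum_const, card_range, nsmul_eq_mul]
        · rw [Finset.sum_comm]
    _ ≤ N * ((M : ℝ) ^ 2 * (B₁ * (Q : ℝ) ^ (4 * D + 10)))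
          + N * ((Q : ℝ) ^ (8 * D + 22) * (2 * M))
          + (M : ℝ) ^ 2 * (2 * (M : ℝ) ^ 2 * (2 * M)) := by
        have h5 : ∑ j ∈ range (M ^ 2), ∑ n ∈ range N,
            (if n < j * M + M ^ 2 ∧ j * M < n + M ^ 2 then 2 * (M : ℝ) else 0)
            ≤ ∑ j ∈ range (M ^ 2), 2 * (M : ℝ) ^ 2 * (2 * M) :=
          Finset.sum_le_sum fun j _ => h3 j
        rw [Finset.sum_const, card_range, nsmul_eq_mul] at h5
        push_cast at h5
        have h6 := mul_le_mul_of_nonneg_left h4 (by positivity : (0 : ℝ) ≤ (N : ℝ))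
        linarith
    _ ≤ (B₁ + 6) * (N : ℝ) ^ 2 / (Q : ℝ) ^ 2 := by
        rw [hNM, le_div_iff₀ (by positivity)]
        have a1 : (Q : ℝ) ^ (4 * D + 10) * (Q : ℝ) ^ 2 = M := by
          rw [hMc, ← pow_add]
        have a2 : (Q : ℝ) ^ (8 * D + 22) * (Q : ℝ) ^ 2 = (M : ℝ) ^ 2 := by
          rw [hMc, ← pow_add, ← pow_mul]
          congr 1
          ring
        have a3 : (Q : ℝ) ^ 2 ≤ M := by
          rw [hMc]
          exact pow_le_pow_right₀ hQ1 (by omega)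
        have a4 : 4 * (M : ℝ) ^ 5 * (Q : ℝ) ^ 2 ≤ 4 * (M : ℝ) ^ 5 * M :=
          mul_le_mul_of_nonneg_left a3 (by positivity)
        have e1 : ((M : ℝ) ^ 3 * ((M : ℝ) ^ 2 * (B₁ * (Q : ℝ) ^ (4 * D + 10)))
            + (M : ℝ) ^ 3 * ((Q : ℝ) ^ (8 * D + 22) * (2 * M))
            + (M : ℝ) ^ 2 * (2 * (M : ℝ) ^ 2 * (2 * M))) * (Q : ℝ) ^ 2
            = (M : ℝ) ^ 5 * B₁ * ((Q : ℝ) ^ (4 * D + 10) * (Q : ℝ) ^ 2)
              + 2 * (M : ℝ) ^ 4 * ((Q : ℝ) ^ (8 * D + 22) * (Q : ℝ) ^ 2)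
              + 4 * (M : ℝ) ^ 5 * (Q : ℝ) ^ 2 := by ring
        rw [e1, a1, a2]
        nlinarith [a4]

end Pool.AEW
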