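import Pool.Agent.AEW.Second
import Pool.Agent.AEW.PolySum

/-!
# The second moment over a box of times
-/

set_option autoImplicit false

open MeasureTheory Set Finset
open Pool.AET (GrowInc integrable_bd abs_integral_bd)
open Pool.AEV (Vec IsFlow)

namespace Pool.AEW

variable {k : ℕ} {Ω : Type*} [MeasurableSpace Ω] {μ : Measure Ω} {φ : Vec k → Ω → Ω}

/-- Averages over short intervals in the direction `i`. -/
theorem box_shift_le (G : Vec k → ℝ) (hG : Measurable G) {C : ℝ} (hG0 : ∀ t, 0 ≤ G t)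
    (hG1 : ∀ t, G t ≤ C) (α : Vec k) (i : Fin (k + 1)) {η : ℝ} (hη : 0 < η) :
    ∫ t in Icc α (α + 1), G t ≤ ∫ τ, ∫ s, G (τ + Pi.single i s) ∂(nu η) ∂(kap α i η) := by
  have hν := nu_prob hη
  have hκ := kap_fin α i η
  have hsm := single_measurable i
  have habs : ∀ t, |G t| ≤ C := fun t => by
    rw [abs_of_nonneg (hG0 t)]
    exact hG1 t
  have hm : Measurable (fun z : Vec k × ℝ => G (z.1 + Pi.single i z.2)) :=
    hG.comp (measurable_fst.add (hsm.comp measurable_snd))
  have hi : Integrable (Function.uncurry (fun (τ : Vec k) (s : ℝ) => G (τ + Pi.single i s)))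
      ((kap α i η).prod (nu η)) := integrable_bd hm C fun z => habs _
  rw [integral_integral_swap hi]
  have hae : ∀ᵐ s ∂(nu η), s ∈ Icc (0 : ℝ) η := by
    unfold nu
    exact Measure.ae_smul_measure (ae_restrict_mem measurableSet_Icc) _
  have hIm : Measurable (fun s : ℝ => ∫ τ, G (τ + Pi.single i s) ∂(kap α i η)) := by
    have h1 : Measurable (fun z : ℝ × Vec k => G (z.2 + Pi.single i z.1)) :=
      hG.comp (measurable_snd.add (hsm.comp measurable_fst))
    exact (h1.stronglyMeasurable.integral_prod_right (ν := kap α i η)).measurable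
  have hIi : Integrable (fun s : ℝ => ∫ τ, G (τ + Pi.single i s) ∂(kap α i η)) (nu η) := by
    refine integrable_bd hIm (C * (kap α i η).real univ) fun s => ?_
    have h2 := norm_integral_le_of_norm_le_const (μ := kap α i η) (C := C)
      (f := fun τ => G (τ + Pi.single i s))
      (Filter.Eventually.of_forall fun τ => by
        rw [Real.norm_eq_abs]
        exact habs _)
    rwa [Real.norm_eq_abs] at h2
  have key : ∀ s ∈ Icc (0 : ℝ) η,
      ∫ t in Icc α (α + 1), G t ≤ ∫ τ, G (τ + Pi.single i s) ∂(kap α i η) := by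
    intro s hs
    have hle : (0 : Vec k) ≤ Pi.single i s := by
      intro j
      by_cases hj : j = i
      · subst hj
        simpa using hs.1
      · simp [Pi.single_eq_of_ne hj]
    have hle2 : (Pi.single i s : Vec k) ≤ Pi.single i η := by
      intro j
      by_cases hj : j = i
      · subst hj
        simpa using hs.2
      · simp [Pi.single_eq_of_ne hj]
    have e1 : ∫ t in Icc α (α + 1), G t
        = ∫ τ : Vec k, (Icc α (α + 1)).indicator G (τ + (Pi.single i s : Vec k)) := by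
      rw [integral_add_right_eq_self (μ := (volume : Measure (Vec k)))
        (fun t => (Icc α (α + 1)).indicator G t) (Pi.single i s : Vec k)]
      exact (integral_indicator measurableSet_Icc).symm
    rw [e1]
    unfold kap
    rw [← integral_indicator measurableSet_Icc]
    have hi2 : Integrable ((Icc (α - Pi.single i η) (α + 1)).indicator
        (fun τ => G (τ + Pi.single i s))) volume := by
      rw [integrable_indicator_iff measurableSet_Icc]
      have : IsFiniteMeasure (volume.restrict (Icc (α - Pi.single i η) (α + 1))) := hκ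
      exact integrable_bd (hG.comp (measurable_id.add_const _)) C fun τ => habs _
    have hi1 : Integrable (fun τ : Vec k =>
        (Icc α (α + 1)).indicator G (τ + (Pi.single i s : Vec k))) volume := by
      have h3 : Integrable ((Icc α (α + 1)).indicator G) (volume : Measure (Vec k)) := by
        rw [integrable_indicator_iff measurableSet_Icc]
        have : IsProbabilityMeasure (volume.restrict (Icc α (α + 1))) :=
          Pool.AEV.isProb_box α
        exact integrable_bd hG C habs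
      exact h3.comp_add_right (Pi.single i s)
    refine integral_mono hi1 hi2 fun τ => ?_
    simp only
    by_cases hτ : τ + Pi.single i s ∈ Icc α (α + 1)
    · have hτ2 : τ ∈ Icc (α - Pi.single i η) (α + 1) := by
        constructor
        · have h4 := hτ.1
          calc α - Pi.single i η ≤ (τ + Pi.single i s) - Pi.single i s :=
                sub_le_sub h4 hle2
            _ = τ := by simp
        · calc τ ≤ τ + Pi.single i s := le_add_of_nonneg_right hle
            _ ≤ α + 1 := hτ.2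
      rw [indicator_of_mem hτ, indicator_of_mem hτ2]
    · rw [indicator_of_notMem hτ]
      exact indicator_nonneg (fun τ _ => hG0 _) τ
  calc ∫ t in Icc α (α + 1), G t = ∫ _, (∫ t in Icc α (α + 1), G t) ∂(nu η) := by
        rw [integral_const]
        simp
    _ ≤ _ := by
        refine integral_mono_ae (integrable_const _) hIi ?_
        filter_upwards [hae] with s hs
        exact key s hs

private theorem Box_sq {a b c : ℝ} (h : |a - b| ≤ c) : a ^ 2 ≤ 2 * b ^ 2 + 2 * c ^ 2 := by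
  have h5 := sq_le_sq' (abs_le.1 h).1 (abs_le.1 h).2
  nlinarith [sq_nonneg (a - 2 * b)]

/-- The second moment, the weights depending on the times, with a Lipschitz condition in the
direction `i`. -/
theorem box_le [IsProbabilityMeasure μ] (h : IsFlow μ φ) {f : Ω → ℝ} (hf : Measurable f)
    (hf1 : ∀ x, |f x| ≤ 1) {i : Fin (k + 1)} {S : ℝ} (hS : DecI μ φ f i S) (α : Vec k)
    (q : ℕ → Vec k) {c C : ℝ} {e : Fin (k + 1) → ℕ} {D : ℕ} (heD : e i ≤ D)
    (hc : 0 < c) (hqi : GrowInc (fun n => q n i) c C (e i))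
    (hq : ∀ j, GrowInc (fun n => q n j) c C (e j) ∨ ∀ n, q n j = q 0 j)
    (u : ℕ → Vec k → Ω → ℝ) (hu : ∀ n, Measurable (fun z : Vec k × Ω => u n z.1 z.2))
    (hu1 : ∀ n t x, |u n t x| ≤ 1) {Λ : ℝ}
    (hul : ∀ n t s x, |u n (t + Pi.single i s) x - u n t x| ≤ Λ * ((n : ℝ) + 1) ^ (e i) * |s|) :
    ∃ B : ℝ, 0 ≤ B ∧ ∀ Q N : ℕ, 1 ≤ Q → N = (Q ^ (4 * D + 12)) ^ 3 →
      ∫ t in Icc α (α + 1), ∫ x, ((N : ℝ)⁻¹ *
          ∑ n ∈ range N, u n t x * f (φ (t * q n) x)) ^ 2 ∂μ ≤ B / Q := by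
  classical
  obtain ⟨B, hB, hsum⟩ := poly_sum h hf hf1 hS α q heD hc hqi hq
  have hΩ : Nonempty Ω := by
    by_contra hne
    rw [not_nonempty_iff] at hne
    have h1 := IsProbabilityMeasure.measure_univ (μ := μ)
    rw [Set.univ_eq_empty_iff.2 hne, measure_empty] at h1
    exact zero_ne_one h1
  have hΛ : 0 ≤ Λ := by
    obtain ⟨x₀⟩ := hΩ
    have h1 := (abs_nonneg _).trans (hul 0 0 1 x₀)
    simpa using h1
  refine ⟨2 * Real.sqrt (2 * B) + 4 * Λ ^ 2, by positivity, fun Q N hQ hN => ?_⟩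
  have hsumQ := hsum Q N hQ hN
  have hQ1 : (1 : ℝ) ≤ Q := by exact_mod_cast hQ
  have hQ0 : (0 : ℝ) < Q := by linarith
  have hN1 : 1 ≤ N := by
    rw [hN]
    exact Nat.one_le_pow _ _ (Nat.one_le_pow _ _ hQ)
  have hN1' : (1 : ℝ) ≤ N := by exact_mod_cast hN1
  have hN0 : (0 : ℝ) < N := by linarith
  set η : ℝ := ((Q : ℝ) ^ 2 * (N : ℝ) ^ (e i))⁻¹ with hη
  have hη0 : 0 < η := by positivity
  have hη1 : η ≤ 1 := by
    rw [hη]
    apply inv_le_one_of_one_le₀
    have a1 : (1 : ℝ) ≤ (Q : ℝ) ^ 2 := one_le_pow₀ hQ1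
    have a2 : (1 : ℝ) ≤ (N : ℝ) ^ (e i) := one_le_pow₀ hN1'
    nlinarith
  have hν := nu_prob hη0
  have hκ := kap_fin α i η
  have hκ2 := kap_univ α i hη0.le hη1
  have hsm := single_measurable i
  -- the square of the average
  obtain ⟨A, hA⟩ : ∃ A : Vec k → Vec k → Ω → ℝ, ∀ τ t x, A τ t x =
    (N : ℝ)⁻¹ * ∑ n ∈ range N, u n τ x * f (φ (t * q n) x) := ⟨_, fun _ _ _ => rfl⟩
  have hA1 : ∀ τ t x, |A τ t x| ≤ 1 := by
    intro τ t x
    rw [hA, abs_mul, abs_of_nonneg (by positivity : (0 : ℝ) ≤ (N : ℝ)⁻¹)]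
    have h2 : |∑ n ∈ range N, u n τ x * f (φ (t * q n) x)| ≤ N := by
      refine (Finset.abs_sum_le_sum_abs _ _).trans ?_
      refine (Finset.sum_le_sum (g := fun _ => (1 : ℝ)) fun n _ => ?_).trans ?_
      · rw [abs_mul]
        exact mul_le_one₀ (hu1 _ _ _) (abs_nonneg _) (hf1 _)
      · simp
    calc (N : ℝ)⁻¹ * |∑ n ∈ range N, u n τ x * f (φ (t * q n) x)| ≤ (N : ℝ)⁻¹ * N := by gcongr
      _ = 1 := inv_mul_cancel₀ hN0.ne'
  have hA2 : ∀ τ t x, (A τ t x) ^ 2 ≤ 1 := by
    intro τ t x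
    rw [← sq_abs]
    exact pow_le_one₀ (abs_nonneg _) (hA1 τ t x)
  have hAm : Measurable (fun z : (Vec k × Vec k) × Ω => A z.1.1 z.1.2 z.2) := by
    simp only [hA]
    refine Measurable.const_mul ?_ _
    refine Finset.measurable_sum _ fun n _ => ?_
    exact ((hu n).comp (by fun_prop : Measurable
      (fun z : (Vec k × Vec k) × Ω => (z.1.1, z.2)))).mul
      (h.meas_comp hf ((measurable_snd.comp measurable_fst).mul_const _) measurable_snd)
  have hAx : ∀ τ t, Measurable (fun x => A τ t x) := fun τ t =>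
    hAm.comp (by fun_prop : Measurable (fun x : Ω => (((τ, t) : Vec k × Vec k), x)))
  have hIm : Measurable (fun z : Vec k × Vec k => ∫ x, (A z.1 z.2 x) ^ 2 ∂μ) :=
    ((hAm.pow_const 2).stronglyMeasurable.integral_prod_right' (ν := μ)).measurable
  have hI1 : ∀ τ t, |∫ x, (A τ t x) ^ 2 ∂μ| ≤ 1 := fun τ t =>
    abs_integral_bd 1 fun x => by
      rw [abs_of_nonneg (sq_nonneg _)]
      exact hA2 τ t x
  obtain ⟨G, hG⟩ : ∃ G : Vec k → ℝ, ∀ t, G t = ∫ x, (A t t x) ^ 2 ∂μ := ⟨_, fun _ => rfl⟩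
  have hGm : Measurable G := by
    have h1 : G = fun t => ∫ x, (A t t x) ^ 2 ∂μ := funext hG
    rw [h1]
    exact hIm.comp (by fun_prop : Measurable (fun t : Vec k => (t, t)))
  have hG0 : ∀ t, 0 ≤ G t := fun t => by
    rw [hG]
    exact integral_nonneg fun x => sq_nonneg _
  have hGa : ∀ t, |G t| ≤ 1 := fun t => by
    rw [hG]
    exact hI1 t t
  have hG1 : ∀ t, G t ≤ 1 := fun t => (le_abs_self _).trans (hGa t)
  have hbox := box_shift_le G hGm hG0 hG1 α i hη0
  have hae : ∀ᵐ s ∂(nu η), s ∈ Icc (0 : ℝ) η := by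
    unfold nu
    exact Measure.ae_smul_measure (ae_restrict_mem measurableSet_Icc) _
  -- the weights are almost constant
  have hcmp : ∀ τ : Vec k, ∀ s ∈ Icc (0 : ℝ) η, G (τ + Pi.single i s)
      ≤ 2 * ∫ x, (A τ (τ + Pi.single i s) x) ^ 2 ∂μ + 2 * (Λ / (Q : ℝ) ^ 2) ^ 2 := by
    intro τ s hs
    have hpt : ∀ x, (A (τ + Pi.single i s) (τ + Pi.single i s) x) ^ 2
        ≤ 2 * (A τ (τ + Pi.single i s) x) ^ 2 + 2 * (Λ / (Q : ℝ) ^ 2) ^ 2 := by
      intro x
      have hd : |A (τ + Pi.single i s) (τ + Pi.single i s) x - A τ (τ + Pi.single i s) x|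
          ≤ Λ / (Q : ℝ) ^ 2 := by
        rw [hA, hA, ← mul_sub, ← Finset.sum_sub_distrib, abs_mul,
          abs_of_nonneg (by positivity : (0 : ℝ) ≤ (N : ℝ)⁻¹)]
        have h2 : |∑ n ∈ range N, (u n (τ + Pi.single i s) x
            * f (φ ((τ + Pi.single i s) * q n) x)
            - u n τ x * f (φ ((τ + Pi.single i s) * q n) x))| ≤ N * (Λ / (Q : ℝ) ^ 2) := by
          refine (Finset.abs_sum_le_sum_abs _ _).trans ?_
          refine (Finset.sum_le_sum (g := fun _ => Λ / (Q : ℝ) ^ 2) fun n hn => ?_).trans ?_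
          · rw [← sub_mul, abs_mul]
            have hnN : (n : ℝ) + 1 ≤ N := by
              have : n + 1 ≤ N := Finset.mem_range.1 hn
              exact_mod_cast this
            calc |u n (τ + Pi.single i s) x - u n τ x|
                  * |f (φ ((τ + Pi.single i s) * q n) x)|
                ≤ (Λ * ((n : ℝ) + 1) ^ (e i) * |s|) * 1 :=
                  mul_le_mul (hul n τ s x) (hf1 _) (abs_nonneg _) (by positivity)
              _ ≤ (Λ * (N : ℝ) ^ (e i) * η) * 1 := by
                  have h3 : |s| ≤ η := by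
                    rw [abs_of_nonneg hs.1]
                    exact hs.2
                  gcongr
              _ = Λ / (Q : ℝ) ^ 2 := by
                  rw [hη]
                  field_simp
          · simp
        calc (N : ℝ)⁻¹ * |∑ n ∈ range N, (u n (τ + Pi.single i s) x
            * f (φ ((τ + Pi.single i s) * q n) x)
            - u n τ x * f (φ ((τ + Pi.single i s) * q n) x))|
            ≤ (N : ℝ)⁻¹ * (N * (Λ / (Q : ℝ) ^ 2)) := by gcongr
          _ = Λ / (Q : ℝ) ^ 2 := by field_simp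
      exact Box_sq hd
    have hx1 : Measurable (fun x => (A (τ + Pi.single i s) (τ + Pi.single i s) x) ^ 2) :=
      (hAx _ _).pow_const 2
    have hx2 : Measurable (fun x => (A τ (τ + Pi.single i s) x) ^ 2) :=
      (hAx _ _).pow_const 2
    have hi1 : Integrable (fun x => (A (τ + Pi.single i s) (τ + Pi.single i s) x) ^ 2) μ :=
      integrable_bd hx1 1 fun x => by
        rw [abs_of_nonneg (sq_nonneg _)]
        exact hA2 _ _ _
    have hi2 : Integrable (fun x => (A τ (τ + Pi.single i s) x) ^ 2) μ :=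
      integrable_bd hx2 1 fun x => by
        rw [abs_of_nonneg (sq_nonneg _)]
        exact hA2 _ _ _
    rw [hG]
    calc ∫ x, (A (τ + Pi.single i s) (τ + Pi.single i s) x) ^ 2 ∂μ
        ≤ ∫ x, (2 * (A τ (τ + Pi.single i s) x) ^ 2 + 2 * (Λ / (Q : ℝ) ^ 2) ^ 2) ∂μ :=
          integral_mono hi1 ((hi2.const_mul 2).add (integrable_const _)) hpt
      _ = _ := by
          rw [integral_add (hi2.const_mul 2) (integrable_const _), integral_const_mul,
            integral_const]
          simp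
  -- the second moment
  have hsec := second_moment h hf hf1 i (nu η) (kap α i η) q N hsumQ u hu hu1
  have hH : ∀ τ t : Vec k, ∫ x, (A τ t x) ^ 2 ∂μ
      = ((N : ℝ)⁻¹) ^ 2 * ∫ x, (∑ n ∈ range N, u n τ x * f (φ (t * q n) x)) ^ 2 ∂μ := by
    intro τ t
    rw [← integral_const_mul]
    refine integral_congr_ae (Filter.Eventually.of_forall fun x => ?_)
    simp only [hA]
    rw [mul_pow]
  have hJm : Measurable (fun z : Vec k × ℝ => ∫ x, (A z.1 (z.1 + Pi.single i z.2) x) ^ 2 ∂μ) :=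
    hIm.comp (measurable_fst.prodMk (measurable_fst.add (hsm.comp measurable_snd)) :
      Measurable (fun z : Vec k × ℝ => (z.1, z.1 + (Pi.single i z.2 : Vec k))))
  have hJs : ∀ τ : Vec k, Integrable (fun s : ℝ =>
      ∫ x, (A τ (τ + Pi.single i s) x) ^ 2 ∂μ) (nu η) := fun τ =>
    integrable_bd (hJm.comp (by fun_prop : Measurable (fun s : ℝ => (τ, s)))) 1
      fun s => hI1 _ _
  have hJt : Integrable (fun τ : Vec k => ∫ s, ∫ x, (A τ (τ + Pi.single i s) x) ^ 2 ∂μ ∂(nu η))
      (kap α i η) := by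
    refine integrable_bd ?_ 1 fun τ => abs_integral_bd 1 fun s => hI1 _ _
    exact (hJm.stronglyMeasurable.integral_prod_right (ν := nu η)).measurable
  have hGs : ∀ τ : Vec k, Integrable (fun s : ℝ => G (τ + Pi.single i s)) (nu η) := fun τ =>
    integrable_bd (hGm.comp (measurable_const.add hsm)) 1 fun s => hGa _
  have hGt : Integrable (fun τ : Vec k => ∫ s, G (τ + Pi.single i s) ∂(nu η)) (kap α i η) := by
    refine integrable_bd ?_ 1 fun τ => abs_integral_bd 1 fun s => hGa _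
    have h1 : Measurable (fun z : Vec k × ℝ => G (z.1 + Pi.single i z.2)) :=
      hGm.comp (measurable_fst.add (hsm.comp measurable_snd))
    exact (h1.stronglyMeasurable.integral_prod_right (ν := nu η)).measurable
  have hin : ∀ τ : Vec k, ∫ s, G (τ + Pi.single i s) ∂(nu η)
      ≤ 2 * (∫ s, ∫ x, (A τ (τ + Pi.single i s) x) ^ 2 ∂μ ∂(nu η))
        + 2 * (Λ / (Q : ℝ) ^ 2) ^ 2 := by
    intro τ
    calc ∫ s, G (τ + Pi.single i s) ∂(nu η)
        ≤ ∫ s, (2 * (∫ x, (A τ (τ + Pi.single i s) x) ^ 2 ∂μ)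
          + 2 * (Λ / (Q : ℝ) ^ 2) ^ 2) ∂(nu η) := by
          refine integral_mono_ae (hGs τ) (((hJs τ).const_mul 2).add (integrable_const _)) ?_
          filter_upwards [hae] with s hs
          exact hcmp τ s hs
      _ = _ := by
          rw [integral_add ((hJs τ).const_mul 2) (integrable_const _), integral_const_mul,
            integral_const]
          simp
  have hout : ∫ τ, ∫ s, G (τ + Pi.single i s) ∂(nu η) ∂(kap α i η)
      ≤ 2 * (∫ τ, ∫ s, ∫ x, (A τ (τ + Pi.single i s) x) ^ 2 ∂μ ∂(nu η) ∂(kap α i η))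
        + (kap α i η).real univ * (2 * (Λ / (Q : ℝ) ^ 2) ^ 2) := by
    calc ∫ τ, ∫ s, G (τ + Pi.single i s) ∂(nu η) ∂(kap α i η)
        ≤ ∫ τ, (2 * (∫ s, ∫ x, (A τ (τ + Pi.single i s) x) ^ 2 ∂μ ∂(nu η))
          + 2 * (Λ / (Q : ℝ) ^ 2) ^ 2) ∂(kap α i η) :=
          integral_mono hGt ((hJt.const_mul 2).add (integrable_const _)) hin
      _ = _ := by
          rw [integral_add (hJt.const_mul 2) (integrable_const _), integral_const_mul,
            integral_const]
          simp only [smul_eq_mul]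
  have hJ : ∫ τ, ∫ s, ∫ x, (A τ (τ + Pi.single i s) x) ^ 2 ∂μ ∂(nu η) ∂(kap α i η)
      ≤ Real.sqrt (2 * B) / Q := by
    have e1 : ∫ τ, ∫ s, ∫ x, (A τ (τ + Pi.single i s) x) ^ 2 ∂μ ∂(nu η) ∂(kap α i η)
        = ((N : ℝ)⁻¹) ^ 2 * ∫ τ, ∫ s, ∫ x, (∑ n ∈ range N,
          u n τ x * f (φ ((τ + Pi.single i s) * q n) x)) ^ 2 ∂μ ∂(nu η) ∂(kap α i η) := by
      simp_rw [hH, integral_const_mul]
    rw [e1]
    have e2 : Real.sqrt ((kap α i η).real univ * (B * (N : ℝ) ^ 2 / (Q : ℝ) ^ 2))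
        ≤ Real.sqrt (2 * B) * N / Q := by
      have e3 : Real.sqrt (2 * B) * N / Q
          = Real.sqrt (2 * (B * (N : ℝ) ^ 2 / (Q : ℝ) ^ 2)) := by
        have e4 : Real.sqrt (2 * B * ((N : ℝ) / Q) ^ 2) = Real.sqrt (2 * B) * (N / Q) := by
          rw [Real.sqrt_mul (by positivity) (((N : ℝ) / Q) ^ 2), Real.sqrt_sq (by positivity)]
        rw [show 2 * (B * (N : ℝ) ^ 2 / (Q : ℝ) ^ 2) = 2 * B * ((N : ℝ) / Q) ^ 2 by
          rw [div_pow]; ring, e4]
        ring
      rw [e3]
      apply Real.sqrt_le_sqrt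
      exact mul_le_mul_of_nonneg_right hκ2 (by positivity)
    calc ((N : ℝ)⁻¹) ^ 2 * ∫ τ, ∫ s, ∫ x, (∑ n ∈ range N,
          u n τ x * f (φ ((τ + Pi.single i s) * q n) x)) ^ 2 ∂μ ∂(nu η) ∂(kap α i η)
        ≤ ((N : ℝ)⁻¹) ^ 2 * (N * (Real.sqrt (2 * B) * N / Q)) := by
          apply mul_le_mul_of_nonneg_left _ (by positivity)
          exact hsec.trans (mul_le_mul_of_nonneg_left e2 hN0.le)
      _ = Real.sqrt (2 * B) / Q := by field_simp
  have hlast : (kap α i η).real univ * (2 * (Λ / (Q : ℝ) ^ 2) ^ 2) ≤ 4 * Λ ^ 2 / Q := by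
    have h1 : (kap α i η).real univ * (2 * (Λ / (Q : ℝ) ^ 2) ^ 2)
        ≤ 2 * (2 * (Λ / (Q : ℝ) ^ 2) ^ 2) := mul_le_mul_of_nonneg_right hκ2 (by positivity)
    refine h1.trans ?_
    have h2 : 2 * (2 * (Λ / (Q : ℝ) ^ 2) ^ 2) = 4 * Λ ^ 2 / (Q : ℝ) ^ 4 := by
      field_simp
      ring
    rw [h2]
    apply div_le_div_of_nonneg_left (by positivity) hQ0
    calc (Q : ℝ) = (Q : ℝ) ^ 1 := (pow_one _).symm
      _ ≤ (Q : ℝ) ^ 4 := pow_le_pow_right₀ hQ1 (by norm_num)
  have hfin : (∫ t in Icc α (α + 1), ∫ x, ((N : ℝ)⁻¹ *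
      ∑ n ∈ range N, u n t x * f (φ (t * q n) x)) ^ 2 ∂μ) = ∫ t in Icc α (α + 1), G t := by
    simp only [hG, hA]
  rw [hfin]
  calc ∫ t in Icc α (α + 1), G t
      ≤ ∫ τ, ∫ s, G (τ + Pi.single i s) ∂(nu η) ∂(kap α i η) := hbox
    _ ≤ 2 * (Real.sqrt (2 * B) / Q) + 4 * Λ ^ 2 / Q := by linarith
    _ = (2 * Real.sqrt (2 * B) + 4 * Λ ^ 2) / Q := by ring

end Pool.AEW
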