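import Pool.Agent.AEW.NuDec
import Pool.Agent.AEV.Dens
import Pool.Agent.AEV.InvLim

/-!
# Countable dense classes
-/

set_option autoImplicit false

open MeasureTheory Set Filter Topology Finset
open Pool.AEV (Vec IsFlow LipT cube_vol cube_int cube_abs cube_shift cube_meas cube_comp)

namespace Pool.AEW

variable {k : ℕ} {Ω : Type*} [MeasurableSpace Ω] {μ : Measure Ω} {φ : Vec k → Ω → Ω}

/-- A countable algebra of sets which generates. -/
private theorem dens_alg (Ω : Type*) [m : MeasurableSpace Ω] [MeasurableSpace.CountablyGenerated Ω] :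
    ∃ A : Set (Set Ω), A.Countable ∧ IsSetAlgebra A ∧ m = MeasurableSpace.generateFrom A := by
  obtain ⟨b, hb, hm⟩ := MeasurableSpace.CountablyGenerated.isCountablyGenerated (α := Ω)
  refine ⟨generateSetAlgebra b, countable_generateSetAlgebra hb, isSetAlgebra_generateSetAlgebra, ?_⟩
  rw [generateFrom_generateSetAlgebra_eq, hm]

omit [MeasurableSpace Ω] in
/-- An integrable function whose integral over the sets of a generating algebra is zero. -/
private theorem dens_zero {m : MeasurableSpace Ω} {μ : Measure Ω} [IsFiniteMeasure μ]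
    {A : Set (Set Ω)} (hA : IsSetAlgebra A)
    (hm : m = MeasurableSpace.generateFrom A) {w : Ω → ℝ} (hw : Integrable w μ)
    (h0 : ∀ s ∈ A, ∫ x in s, w x ∂μ = 0) : w =ᵐ[μ] 0 := by
  have hall : ∀ s, MeasurableSet s → ∫ x in s, w x ∂μ = 0 := by
    refine MeasurableSpace.induction_on_inter hm ?_ ?_ ?_ ?_ ?_
    · intro s hs t ht _
      exact hA.inter_mem hs ht
    · simp
    · intro t ht
      exact h0 t ht
    · intro t htm ht
      have h1 := integral_add_compl htm hw
      have h2 := h0 univ hA.univ_mem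
      rw [setIntegral_univ] at h2
      linarith
    · intro f hd hf h1
      rw [integral_iUnion hf hd hw.integrableOn]
      simp [h1]
  exact Integrable.ae_eq_zero_of_forall_setIntegral_eq_zero hw (fun s hs _ => hall s hs)

private theorem dens_memLp_bd [IsFiniteMeasure μ] {c : Ω → ℝ} (hc : Measurable c) (C : ℝ)
    (hb : ∀ x, |c x| ≤ C) : MemLp c 2 μ :=
  MemLp.of_bound hc.aestronglyMeasurable C (Eventually.of_forall fun x => by simpa using hb x)

/-- Orthogonal decomposition along the closed span of a set of bounded functions. -/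
private theorem dens_orth [IsProbabilityMeasure μ] (H : Set (Ω → ℝ))
    (hH : ∀ c ∈ H, Measurable c ∧ ∀ x, |c x| ≤ 1) (f : Ω → ℝ) (hf : MemLp f 2 μ) (ε : ℝ)
    (hε : 0 < ε) :
    ∃ (n : ℕ) (r : Fin n → ℝ) (c : Fin n → Ω → ℝ) (g : Ω → ℝ),
      (∀ i, c i ∈ H) ∧ Measurable g ∧ MemLp g 2 μ ∧ (∀ c ∈ H, ∫ x, g x * c x ∂μ = 0) ∧
      ∫ x, (f x - ∑ i, r i * c i x - g x) ^ 2 ∂μ ≤ ε := by
  set S : Set (Lp ℝ 2 μ) := {F | ∃ c ∈ H, F =ᵐ[μ] c} with hS
  set V : Submodule ℝ (Lp ℝ 2 μ) := Submodule.span ℝ S with hV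
  set W : Submodule ℝ (Lp ℝ 2 μ) := V.topologicalClosure with hW
  have : CompleteSpace W := (Submodule.isClosed_topologicalClosure V).completeSpace_coe
  set F : Lp ℝ 2 μ := hf.toLp f with hF
  obtain ⟨P, hP, G, hG, hPG⟩ := Submodule.exists_add_mem_mem_orthogonal (K := W) F
  have hP' : P ∈ closure (V : Set (Lp ℝ 2 μ)) := hP
  obtain ⟨Q, hQ, hPQ⟩ := Metric.mem_closure_iff.1 hP' (Real.sqrt ε) (Real.sqrt_pos.2 hε)
  obtain ⟨n, r, s, hs⟩ := (Submodule.mem_span_set' (R := ℝ)).1 hQ
  choose c hcH hc using fun i => (s i).2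
  refine ⟨n, r, c, G, hcH, (Lp.stronglyMeasurable G).measurable, Lp.memLp G, ?_, ?_⟩
  · intro k hk
    have hkm : MemLp k 2 μ := dens_memLp_bd (hH k hk).1 1 (hH k hk).2
    have h1 : hkm.toLp k ∈ W := by
      refine V.le_topologicalClosure (Submodule.subset_span ?_)
      exact ⟨k, hk, hkm.coeFn_toLp⟩
    have h2 := (Submodule.mem_orthogonal' W G).1 hG _ h1
    rw [L2.inner_def] at h2
    rw [← h2]
    refine integral_congr_ae ?_
    filter_upwards [hkm.coeFn_toLp] with x hx
    rw [hx]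
    simp [mul_comm]
  · have h1 : ‖P - Q‖ ^ 2 = ∫ x, (f x - ∑ i, r i * c i x - G x) ^ 2 ∂μ := by
      rw [← real_inner_self_eq_norm_sq, L2.inner_def]
      refine integral_congr_ae ?_
      have e1 : P - Q = F - Q - G := by rw [hPG]; abel
      have e2 : (Q : Ω → ℝ) =ᵐ[μ] fun x => ∑ i, r i * c i x := by
        rw [← hs]
        have a1 : ((∑ i, r i • (s i : Lp ℝ 2 μ) : Lp ℝ 2 μ) : Ω → ℝ) =ᵐ[μ]
            fun x => ∑ i, (r i • (s i : Lp ℝ 2 μ) : Lp ℝ 2 μ) x := by
          have := Lp.coeFn_finsetSum (p := (2 : ENNReal)) (μ := μ) Finset.univ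
            (fun i => (r i • (s i : Lp ℝ 2 μ) : Lp ℝ 2 μ))
          filter_upwards [this] with x hx
          rw [hx]
          simp
        have a2 : ∀ i, ((r i • (s i : Lp ℝ 2 μ) : Lp ℝ 2 μ) : Ω → ℝ) =ᵐ[μ]
            fun x => r i * c i x := by
          intro i
          filter_upwards [Lp.coeFn_smul (r i) (s i : Lp ℝ 2 μ), hc i] with x hx hx2
          rw [hx, Pi.smul_apply, hx2, smul_eq_mul]
        filter_upwards [a1, ae_all_iff.2 a2] with x hx hx2
        rw [hx]
        exact Finset.sum_congr rfl fun i _ => hx2 i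
      rw [e1]
      filter_upwards [Lp.coeFn_sub (F - Q) G, Lp.coeFn_sub F Q, hf.coeFn_toLp, e2] with x h1 h2 h3 h4
      rw [h1, Pi.sub_apply, h2, Pi.sub_apply, h4, hF, h3]
      simp [pow_two]
    rw [← h1]
    have h2 : ‖P - Q‖ < Real.sqrt ε := by rwa [dist_eq_norm] at hPQ
    calc ‖P - Q‖ ^ 2 ≤ (Real.sqrt ε) ^ 2 := by
          exact pow_le_pow_left₀ (norm_nonneg _) h2.le 2
      _ = ε := Real.sq_sqrt hε.le

omit [MeasurableSpace Ω] in
private theorem dens_ind_zero {m : MeasurableSpace Ω} {μ : Measure Ω} [IsFiniteMeasure μ]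
    {A : Set (Set Ω)} (hA : IsSetAlgebra A)
    (hm : m = MeasurableSpace.generateFrom A) {w : Ω → ℝ} (hw : Integrable w μ)
    (h0 : ∀ s ∈ A, ∫ x, w x * (s.indicator (fun _ => (1 : ℝ)) x) ∂μ = 0) : w =ᵐ[μ] 0 := by
  refine dens_zero hA hm hw fun s hs => ?_
  rw [← h0 s hs, ← integral_indicator (by rw [hm]; exact MeasurableSpace.measurableSet_generateFrom hs)]
  refine integral_congr_ae (Eventually.of_forall fun x => ?_)
  by_cases hx : x ∈ s <;> simp [hx]


/-- The average of `f ∘ φ r` over `r` in the cube `closedBall 0 δ`, multiplied by `1/2`. -/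
private noncomputable def dens_h (φ : Vec k → Ω → Ω) (f : Ω → ℝ) (δ : ℝ) (x : Ω) : ℝ :=
  (2 * (2 * δ) ^ (k + 1))⁻¹ * ∫ r in Metric.closedBall (0 : Vec k) δ, f (φ r x)


private theorem dens_h_meas (hφ : IsFlow μ φ) {f : Ω → ℝ} (hf : Measurable f) (δ : ℝ) :
    Measurable (dens_h φ f δ) := (cube_meas hφ hf 0 δ).const_mul _

omit [MeasurableSpace Ω] in
private theorem dens_h_bd {f : Ω → ℝ}
    (hb : ∀ x, |f x| ≤ 1) {δ : ℝ} (hδ : 0 < δ) (x : Ω) : |dens_h φ f δ x| ≤ 1 / 2 := by
  unfold dens_h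
  have h0 : (0 : ℝ) < (2 * δ) ^ (k + 1) := by positivity
  rw [abs_mul, abs_of_pos (by positivity : (0 : ℝ) < (2 * (2 * δ) ^ (k + 1))⁻¹)]
  have h1 := cube_abs (f := fun r => f (φ r x)) (fun r => hb _) (0 : Vec k) hδ.le
  rw [one_mul] at h1
  calc _ ≤ (2 * (2 * δ) ^ (k + 1))⁻¹ * (2 * δ) ^ (k + 1) :=
        mul_le_mul_of_nonneg_left h1 (by positivity)
    _ = 1 / 2 := by field_simp

private theorem dens_h_lip (hφ : IsFlow μ φ) {f : Ω → ℝ} (hf : Measurable f)
    (hb : ∀ x, |f x| ≤ 1) {δ : ℝ} (hδ : 0 < δ) :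
    LipT φ (dens_h φ f δ) ((k + 1 : ℕ) / δ) := by
  intro t x
  unfold dens_h
  have h0 : (0 : ℝ) < (2 * δ) ^ (k + 1) := by positivity
  rw [cube_comp hφ, zero_add, ← mul_sub, abs_mul,
    abs_of_pos (by positivity : (0 : ℝ) < (2 * (2 * δ) ^ (k + 1))⁻¹)]
  have h1 := cube_shift (f := fun r => f (φ r x)) (hφ.meas_comp hf measurable_id measurable_const)
    (B := 1) (fun r => hb _) t hδ
  calc _ ≤ (2 * (2 * δ) ^ (k + 1))⁻¹ * (2 * 1 * (2 * δ) ^ (k + 1) * ((k + 1 : ℕ) * ‖t‖ / δ)) :=
        mul_le_mul_of_nonneg_left h1 (by positivity)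
    _ = (k + 1 : ℕ) / δ * ‖t‖ := by field_simp

/-- The correlation of `g` with `f` along the action. -/
private noncomputable def dens_E (μ : Measure Ω) (φ : Vec k → Ω → Ω) (g f : Ω → ℝ) (r : Vec k) :
    ℝ := ∫ x, g x * f (φ r x) ∂μ

private theorem dens_E_meas [IsProbabilityMeasure μ] (hφ : IsFlow μ φ) {g f : Ω → ℝ}
    (hg : Measurable g) (hf : Measurable f) : Measurable (dens_E μ φ g f) := by
  have hm : Measurable (fun z : Vec k × Ω => g z.2 * f (φ z.1 z.2)) :=
    (hg.comp measurable_snd).mul (hφ.meas_comp hf measurable_fst measurable_snd)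
  exact (hm.stronglyMeasurable.integral_prod_right').measurable

private theorem dens_E_bd {g f : Ω → ℝ}
    (hgi : Integrable g μ) (hb : ∀ x, |f x| ≤ 1) (r : Vec k) :
    |dens_E μ φ g f r| ≤ ∫ x, |g x| ∂μ := by
  unfold dens_E
  refine (abs_integral_le_integral_abs).trans ?_
  refine integral_mono_of_nonneg (Eventually.of_forall fun x => abs_nonneg _) hgi.abs
    (Eventually.of_forall fun x => ?_)
  simp only [abs_mul]
  exact mul_le_of_le_one_right (abs_nonneg _) (hb _)

private theorem dens_fub [IsProbabilityMeasure μ] (hφ : IsFlow μ φ) {g f : Ω → ℝ}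
    (hg : Measurable g) (hgi : Integrable g μ) (hf : Measurable f) (hb : ∀ x, |f x| ≤ 1)
    (t : Vec k) (δ : ℝ) :
    ∫ x, g x * (∫ r in Metric.closedBall t δ, f (φ r x)) ∂μ
      = ∫ r in Metric.closedBall t δ, dens_E μ φ g f r := by
  unfold dens_E
  simp only [← integral_const_mul]
  refine integral_integral_swap ?_
  have hfin : IsFiniteMeasure (volume.restrict (Metric.closedBall t δ)) :=
    ⟨by rw [Measure.restrict_apply_univ]; exact measure_closedBall_lt_top⟩
  have hm : Measurable (fun z : Ω × Vec k => g z.1 * f (φ z.2 z.1)) :=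
    (hg.comp measurable_fst).mul (hφ.meas_comp hf measurable_snd measurable_fst)
  refine Integrable.mono (g := fun z : Ω × Vec k => g z.1) ?_ hm.aestronglyMeasurable ?_
  · exact hgi.comp_fst _
  · filter_upwards with z
    simp only [Function.uncurry, norm_mul]
    exact mul_le_of_le_one_right (norm_nonneg _) (by simpa using hb _)

/-- Integrals over translated cubes. -/
private theorem dens_I [IsProbabilityMeasure μ] (hφ : IsFlow μ φ) {g f : Ω → ℝ}
    (hg : Measurable g) (hgi : Integrable g μ) (hf : Measurable f) (hb : ∀ x, |f x| ≤ 1)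
    {δ : ℝ} (hδ : 0 < δ) (t : Vec k) :
    ∫ x, g x * dens_h φ f δ (φ t x) ∂μ
      = (2 * (2 * δ) ^ (k + 1))⁻¹ * ∫ r in Metric.closedBall t δ, dens_E μ φ g f r := by
  rw [← dens_fub hφ hg hgi hf hb, ← integral_const_mul]
  refine integral_congr_ae (Eventually.of_forall fun x => ?_)
  have := hδ
  simp only [dens_h]
  rw [cube_comp hφ, zero_add]
  ring

private theorem dens_hint [IsProbabilityMeasure μ] (hφ : IsFlow μ φ) {g f : Ω → ℝ}
    (hg : Measurable g) (hgi : Integrable g μ) (hf : Measurable f) (hb : ∀ x, |f x| ≤ 1)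
    {δ : ℝ} (hδ : 0 < δ) (t : Vec k) : Integrable (fun x => g x * dens_h φ f δ (φ t x)) μ := by
  have hm : Measurable (fun x => g x * dens_h φ f δ (φ t x)) :=
    hg.mul (hφ.meas_comp (dens_h_meas hφ hf δ) measurable_const measurable_id)
  refine Integrable.mono hgi hm.aestronglyMeasurable ?_
  filter_upwards with x
  rw [norm_mul]
  refine mul_le_of_le_one_right (norm_nonneg _) ?_
  rw [Real.norm_eq_abs]
  linarith [dens_h_bd (φ := φ) hb hδ (φ t x)]

/-- The rational vector. -/
private noncomputable def dens_v (u : Fin (k + 1) → ℚ) : Vec k := fun i => (u i : ℝ)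


/-! ### Cube integrals of a bounded function -/

private theorem dens_cube_cont {E : Vec k → ℝ} (hEm : Measurable E) {Bd : ℝ}
    (hEb : ∀ r, |E r| ≤ Bd) {δ : ℝ} (hδ : 0 < δ) :
    Continuous (fun u : Vec k => ∫ r in Metric.closedBall u δ, E r) := by
  have hshift : ∀ u v : Vec k, |(∫ r in Metric.closedBall (u + v) δ, E r)
      - ∫ r in Metric.closedBall v δ, E r| ≤ 2 * Bd * (2 * δ) ^ (k + 1)
        * ((k + 1 : ℕ) * ‖u‖ / δ) := by
    intro u v
    have e1 : ∀ w : Vec k, ∫ r in Metric.closedBall (w + v) δ, E r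
        = ∫ r in Metric.closedBall w δ, E (r + v) := by
      intro w
      rw [← integral_indicator measurableSet_closedBall,
        ← integral_indicator measurableSet_closedBall,
        ← integral_add_right_eq_self (fun r => (Metric.closedBall (w + v) δ).indicator E r) v]
      refine integral_congr_ae (Eventually.of_forall fun r => ?_)
      simp only [Set.indicator, Metric.mem_closedBall, dist_add_right]
    have e2 := e1 0
    rw [zero_add] at e2
    rw [e1, e2]
    exact cube_shift (f := fun r => E (r + v)) (hEm.comp (by fun_prop)) (fun r => hEb _) u hδ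
  rw [continuous_iff_continuousAt]
  intro v
  rw [ContinuousAt, tendsto_iff_norm_sub_tendsto_zero]
  have hlim : Tendsto (fun w : Vec k => 2 * Bd * (2 * δ) ^ (k + 1)
      * ((k + 1 : ℕ) * ‖w - v‖ / δ)) (𝓝 v) (𝓝 (2 * Bd * (2 * δ) ^ (k + 1)
      * ((k + 1 : ℕ) * ‖v - v‖ / δ))) := by
    apply Continuous.tendsto
    fun_prop
  rw [sub_self, norm_zero, mul_zero, zero_div, mul_zero] at hlim
  refine squeeze_zero (fun _ => norm_nonneg _) (fun w => ?_) hlim
  have := hshift (w - v) v
  rw [sub_add_cancel] at this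
  exact this

private theorem dens_v_dense : DenseRange (dens_v (k := k)) :=
  DenseRange.piMap (fun _ => Rat.denseRange_cast (𝕜 := ℝ))

/-- Lebesgue differentiation along cubes of radius `1/(n+1)`. -/
private theorem dens_leb {E : Vec k → ℝ} (hEm : Measurable E) {Bd : ℝ} (hEb : ∀ r, |E r| ≤ Bd) :
    ∀ᵐ r ∂(volume : Measure (Vec k)),
      Tendsto (fun n : ℕ => ⨍ y in Metric.closedBall r ((1 / ((n : ℚ) + 1) : ℚ) : ℝ), E y)
        atTop (𝓝 (E r)) := by
  have hloc : LocallyIntegrable E volume := by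
    rw [locallyIntegrable_iff]
    intro K hK
    obtain ⟨R, hR⟩ := hK.isBounded.subset_closedBall 0
    exact (cube_int hEm hEb 0 R).mono_set hR
  have hleb := IsUnifLocDoublingMeasure.ae_tendsto_average (μ := (volume : Measure (Vec k))) hloc 1
  have hseq : Tendsto (fun n : ℕ => ((1 / ((n : ℚ) + 1) : ℚ) : ℝ)) atTop (𝓝[>] 0) := by
    rw [tendsto_nhdsWithin_iff]
    refine ⟨?_, Eventually.of_forall fun n => ?_⟩
    · have := tendsto_one_div_add_atTop_nhds_zero_nat (𝕜 := ℝ)
      refine this.congr fun n => ?_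
      push_cast
      rfl
    · simp only [Set.mem_Ioi]
      have : (0 : ℚ) < 1 / ((n : ℚ) + 1) := by positivity
      exact_mod_cast this
  filter_upwards [hleb] with r hr
  exact hr (fun _ : ℕ => r) (fun n : ℕ => ((1 / ((n : ℚ) + 1) : ℚ) : ℝ)) hseq
    (Eventually.of_forall fun n => by
      apply Metric.mem_closedBall_self
      rw [one_mul]
      have : (0 : ℚ) ≤ 1 / ((n : ℚ) + 1) := by positivity
      exact_mod_cast this)

/-- A function whose integrals over the rational cubes vanish. -/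
private theorem dens_zeroE {E : Vec k → ℝ} (hEm : Measurable E) {Bd : ℝ} (hEb : ∀ r, |E r| ≤ Bd)
    (h0 : ∀ (δ : ℚ) (u : Fin (k + 1) → ℚ), 0 < δ →
      ∫ r in Metric.closedBall (dens_v u) (δ : ℝ), E r = 0) :
    ∀ᵐ r ∂(volume : Measure (Vec k)), E r = 0 := by
  have h1 : ∀ (δ : ℚ) (u : Vec k), 0 < δ → ∫ r in Metric.closedBall u (δ : ℝ), E r = 0 := by
    intro δ u hδ
    have hδ' : (0 : ℝ) < (δ : ℝ) := by exact_mod_cast hδ
    have hcl : IsClosed {u : Vec k | ∫ r in Metric.closedBall u (δ : ℝ), E r = 0} :=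
      isClosed_eq (dens_cube_cont hEm hEb hδ') continuous_const
    have hsub : Set.range (dens_v (k := k)) ⊆ {u : Vec k |
        ∫ r in Metric.closedBall u (δ : ℝ), E r = 0} := by
      rintro _ ⟨u, rfl⟩
      exact h0 δ u hδ
    exact hcl.closure_subset_iff.2 hsub (dens_v_dense u)
  filter_upwards [dens_leb hEm hEb] with r hr
  have h2 : ∀ n : ℕ, ⨍ y in Metric.closedBall r ((1 / ((n : ℚ) + 1) : ℚ) : ℝ), E y = 0 := by
    intro n
    rw [setAverage_eq, h1 _ r (by positivity), smul_zero]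
  simp_rw [h2] at hr
  exact (tendsto_nhds_unique hr tendsto_const_nhds)

/-- A function whose integrals over cubes do not change under rational translations in one
direction. -/
private theorem dens_dirE {E : Vec k → ℝ} (hEm : Measurable E) {Bd : ℝ} (hEb : ∀ r, |E r| ≤ Bd)
    (i : Fin (k + 1))
    (h0 : ∀ (δ s : ℚ) (u : Fin (k + 1) → ℚ), 0 < δ →
      ∫ r in Metric.closedBall (dens_v u) (δ : ℝ), E r
        = ∫ r in Metric.closedBall (dens_v u + Pi.single i (s : ℝ)) (δ : ℝ), E r) (s : ℝ) :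
    ∀ᵐ r ∂(volume : Measure (Vec k)), E r = E (r + Pi.single i s) := by
  have h1 : ∀ (δ s : ℚ) (u : Vec k), 0 < δ →
      ∫ r in Metric.closedBall u (δ : ℝ), E r
        = ∫ r in Metric.closedBall (u + Pi.single i (s : ℝ)) (δ : ℝ), E r := by
    intro δ s u hδ
    have hδ' : (0 : ℝ) < (δ : ℝ) := by exact_mod_cast hδ
    have hc := dens_cube_cont hEm hEb hδ'
    have hcl : IsClosed {u : Vec k | ∫ r in Metric.closedBall u (δ : ℝ), E r
        = ∫ r in Metric.closedBall (u + Pi.single i (s : ℝ)) (δ : ℝ), E r} :=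
      isClosed_eq hc (hc.comp (continuous_id.add continuous_const))
    have hsub : Set.range (dens_v (k := k)) ⊆ {u : Vec k |
        ∫ r in Metric.closedBall u (δ : ℝ), E r
        = ∫ r in Metric.closedBall (u + Pi.single i (s : ℝ)) (δ : ℝ), E r} := by
      rintro _ ⟨u, rfl⟩
      exact h0 δ s u hδ
    exact hcl.closure_subset_iff.2 hsub (dens_v_dense u)
  have h2 : ∀ (δ : ℚ) (s : ℝ) (u : Vec k), 0 < δ →
      ∫ r in Metric.closedBall u (δ : ℝ), E r
        = ∫ r in Metric.closedBall (u + Pi.single i s) (δ : ℝ), E r := by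
    intro δ s u hδ
    have hδ' : (0 : ℝ) < (δ : ℝ) := by exact_mod_cast hδ
    have hc := dens_cube_cont hEm hEb hδ'
    have hsc : Continuous (fun s : ℝ => (Pi.single i s : Vec k)) :=
      continuous_single (A := fun _ : Fin (k + 1) => ℝ) i
    have hcl : IsClosed {s : ℝ | ∫ r in Metric.closedBall u (δ : ℝ), E r
        = ∫ r in Metric.closedBall (u + Pi.single i s) (δ : ℝ), E r} :=
      isClosed_eq continuous_const (hc.comp (continuous_const.add hsc))
    have hsub : Set.range (fun q : ℚ => (q : ℝ)) ⊆ {s : ℝ |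
        ∫ r in Metric.closedBall u (δ : ℝ), E r
        = ∫ r in Metric.closedBall (u + Pi.single i s) (δ : ℝ), E r} := by
      rintro _ ⟨q, rfl⟩
      exact h1 δ q u hδ
    exact hcl.closure_subset_iff.2 hsub ((Rat.denseRange_cast (𝕜 := ℝ)) s)
  have hl := dens_leb hEm hEb
  have hl2 := (measurePreserving_add_right (volume : Measure (Vec k))
    (Pi.single i s)).quasiMeasurePreserving.ae hl
  filter_upwards [hl, hl2] with r hr hr2
  have h3 : ∀ n : ℕ, ⨍ y in Metric.closedBall r ((1 / ((n : ℚ) + 1) : ℚ) : ℝ), E y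
      = ⨍ y in Metric.closedBall (r + Pi.single i s) ((1 / ((n : ℚ) + 1) : ℚ) : ℝ), E y := by
    intro n
    have hpos : (0 : ℚ) < 1 / ((n : ℚ) + 1) := by positivity
    have hpos' : (0 : ℝ) ≤ ((1 / ((n : ℚ) + 1) : ℚ) : ℝ) := by exact_mod_cast hpos.le
    rw [setAverage_eq, setAverage_eq, h2 _ s r hpos, cube_vol r hpos', cube_vol _ hpos']
  simp_rw [h3] at hr
  exact tendsto_nhds_unique hr hr2

private theorem dens_E_comp [IsProbabilityMeasure μ] (hφ : IsFlow μ φ) {g f : Ω → ℝ}
    (hg : Measurable g) (hf : Measurable f) (r : Vec k) :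
    dens_E μ φ g f r = ∫ x, g (φ (-r) x) * f x ∂μ := by
  unfold dens_E
  have h9 := hφ.integral_comp (-r) (g := fun x => g x * f (φ r x))
    (hg.mul (hφ.meas_comp hf measurable_const measurable_id))
  rw [← h9]
  refine integral_congr_ae (Eventually.of_forall fun x => ?_)
  simp only
  rw [hφ.neg_right]

private theorem dens_k1 {A : Set (Set Ω)} (hAm : ∀ s ∈ A, MeasurableSet s) :
    ∀ s ∈ A, Measurable (s.indicator (fun _ => (1 : ℝ))) :=
  fun s hs => measurable_const.indicator (hAm s hs)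

omit [MeasurableSpace Ω] in
private theorem dens_k2 (s : Set Ω) (x : Ω) : |s.indicator (fun _ => (1 : ℝ)) x| ≤ 1 := by
  by_cases hx : x ∈ s <;> simp [hx]

/-- The averages, translated by a rational vector. -/
private noncomputable def dens_hh (φ : Vec k → Ω → Ω)
    (z : Set Ω × ℚ × (Fin (k + 1) → ℚ)) (x : Ω) : ℝ :=
  dens_h φ (z.1.indicator (fun _ => (1 : ℝ))) (z.2.1 : ℝ) (φ (dens_v z.2.2) x)

private theorem dens_hh_meas (hφ : IsFlow μ φ) {z : Set Ω × ℚ × (Fin (k + 1) → ℚ)}
    (hz : MeasurableSet z.1) : Measurable (dens_hh φ z) :=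
  hφ.meas_comp (dens_h_meas hφ (measurable_const.indicator hz) _) measurable_const measurable_id

omit [MeasurableSpace Ω] in
private theorem dens_hh_bd {z : Set Ω × ℚ × (Fin (k + 1) → ℚ)} (hz : 0 < z.2.1) (x : Ω) :
    |dens_hh φ z x| ≤ 1 / 2 :=
  dens_h_bd (dens_k2 _) (by exact_mod_cast hz) _

private theorem dens_hh_lip (hφ : IsFlow μ φ) {z : Set Ω × ℚ × (Fin (k + 1) → ℚ)}
    (hz1 : MeasurableSet z.1) (hz : 0 < z.2.1) :
    LipT φ (dens_hh φ z) ((k + 1 : ℕ) / (z.2.1 : ℝ)) := by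
  intro t x
  have h1 := dens_h_lip hφ (measurable_const.indicator hz1) (dens_k2 z.1)
    (by exact_mod_cast hz : (0 : ℝ) < (z.2.1 : ℝ)) t (φ (dens_v z.2.2) x)
  simp only [dens_hh]
  rw [← hφ.add, add_comm (dens_v z.2.2) t, hφ.add]
  exact h1

private theorem dens_memLp_int [IsProbabilityMeasure μ] {g : Ω → ℝ} (hg : MemLp g 2 μ) :
    Integrable g μ := hg.integrable (by norm_num)

/-- A countable class of regular functions with dense span (averages of indicators over small
cubes). -/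
theorem dens_all [MeasurableSpace.CountablyGenerated Ω] [IsProbabilityMeasure μ]
    (hφ : IsFlow μ φ) :
    ∃ H : Set (Ω → ℝ), H.Countable ∧ (∀ c ∈ H, Reg φ c) ∧
      ∀ f : Ω → ℝ, MemLp f 2 μ → ∀ ε : ℝ, 0 < ε →
        ∃ (n : ℕ) (r : Fin n → ℝ) (c : Fin n → Ω → ℝ), (∀ l, c l ∈ H) ∧
          ∫ x, (f x - ∑ l, r l * c l x) ^ 2 ∂μ ≤ ε := by
  obtain ⟨A, hAc, hA, hm⟩ := dens_alg Ω
  have hAm : ∀ s ∈ A, MeasurableSet s := by
    intro s hs
    rw [hm]
    exact MeasurableSpace.measurableSet_generateFrom hs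
  set J : Set (Set Ω × ℚ × (Fin (k + 1) → ℚ)) := {z | z.1 ∈ A ∧ 0 < z.2.1} with hJ
  have hJc : J.Countable := by
    have : J ⊆ A ×ˢ (Set.univ : Set (ℚ × (Fin (k + 1) → ℚ))) := fun z hz => ⟨hz.1, mem_univ _⟩
    exact (hAc.prod (Set.to_countable _)).mono this
  have hreg : ∀ c ∈ dens_hh φ '' J, Reg φ c := by
    rintro c ⟨z, hz, rfl⟩
    have hδ : (0 : ℝ) < (z.2.1 : ℝ) := by exact_mod_cast hz.2
    refine ⟨dens_hh_meas hφ (hAm _ hz.1), fun x => ?_, _, ?_,
      dens_hh_lip hφ (hAm _ hz.1) hz.2⟩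
    · linarith [dens_hh_bd (φ := φ) hz.2 x]
    · positivity
  refine ⟨dens_hh φ '' J, hJc.image _, hreg, fun f hf ε hε => ?_⟩
  obtain ⟨n, r, c, g, h1, h2, h3, h4, h5⟩ := dens_orth (dens_hh φ '' J)
    (fun c hc => ⟨(hreg c hc).meas, (hreg c hc).bd⟩) f hf ε hε
  refine ⟨n, r, c, h1, ?_⟩
  have hgi : Integrable g μ := dens_memLp_int h3
  have h6 : ∀ s ∈ A, ∀ᵐ r ∂(volume : Measure (Vec k)),
      dens_E μ φ g (s.indicator (fun _ => (1 : ℝ))) r = 0 := by
    intro s hs
    refine dens_zeroE (dens_E_meas hφ h2 (dens_k1 hAm s hs))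
      (fun r => dens_E_bd hgi (dens_k2 s) r) fun δ u hδ => ?_
    have hδ' : (0 : ℝ) < (δ : ℝ) := by exact_mod_cast hδ
    have h7 := h4 _ ⟨(s, δ, u), ⟨hs, hδ⟩, rfl⟩
    simp only [dens_hh] at h7
    rw [dens_I hφ h2 hgi (dens_k1 hAm s hs) (dens_k2 s) hδ'] at h7
    have h8 : (2 * (2 * (δ : ℝ)) ^ (k + 1))⁻¹ ≠ 0 := by positivity
    rcases mul_eq_zero.1 h7 with h | h
    · exact absurd h h8
    · exact h
  have h8 : ∀ᵐ r ∂(volume : Measure (Vec k)), ∀ s ∈ A,
      dens_E μ φ g (s.indicator (fun _ => (1 : ℝ))) r = 0 := (ae_ball_iff hAc).2 h6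
  obtain ⟨r', hr⟩ := h8.exists
  have hcomp : Integrable (fun x => g (φ (-r') x)) μ :=
    (hφ.mp (-r')).integrable_comp_of_integrable hgi
  have h9 : (fun x => g (φ (-r') x)) =ᵐ[μ] 0 := by
    refine dens_ind_zero hA hm hcomp fun s hs => ?_
    rw [← dens_E_comp hφ h2 (dens_k1 hAm s hs)]
    exact hr s hs
  have h10 : g =ᵐ[μ] 0 := by
    have h11 := (hφ.mp r').quasiMeasurePreserving.ae h9
    filter_upwards [h11] with x hx
    simpa [hφ.neg_left] using hx
  refine le_trans (le_of_eq (integral_congr_ae ?_)) h5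
  filter_upwards [h10] with x hx
  rw [hx, Pi.zero_apply, sub_zero]

/-- The flow in one direction. -/
private theorem dens_flow (hφ : IsFlow μ φ) (i : Fin (k + 1)) :
    IsFlow (k := 0) μ (fun t => φ (Pi.single i (t 0))) := by
  have hs : Measurable (fun t : Vec 0 => (Pi.single i (t 0) : Vec k)) :=
    (single_measurable i).comp (measurable_pi_apply 0)
  refine ⟨?_, fun s t x => ?_, fun x => ?_, fun t => hφ.mp _⟩
  · exact hφ.meas.comp ((hs.comp measurable_fst).prodMk measurable_snd)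
  · rw [← hφ.add]
    congr 1
    rw [← Pi.single_add]
    rfl
  · simp only [Pi.zero_apply, Pi.single_zero]
    exact hφ.zero x

private noncomputable def dens_clip (K y : ℝ) : ℝ := max (-K) (min y K)

private theorem dens_clip_abs_le {K : ℝ} (hK : 0 ≤ K) (y : ℝ) : |dens_clip K y| ≤ K := by
  unfold dens_clip
  rw [abs_le]
  exact ⟨le_max_left _ _, max_le (by linarith) (min_le_right _ _)⟩

private theorem dens_clip_eq {K y : ℝ} (h : |y| ≤ K) : dens_clip K y = y := by
  unfold dens_clip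
  rw [abs_le] at h
  rw [min_eq_left h.2, max_eq_right h.1]

private theorem dens_clip_le {K : ℝ} (hK : 0 ≤ K) (y : ℝ) : |dens_clip K y| ≤ |y| := by
  by_cases h : |y| ≤ K
  · rw [dens_clip_eq h]
  · exact (dens_clip_abs_le hK y).trans (not_le.1 h).le

private theorem dens_clip_measurable (K : ℝ) {g : Ω → ℝ} (hg : Measurable g) :
    Measurable (fun x => dens_clip K (g x)) :=
  measurable_const.max (hg.min measurable_const)

/-- A bounded function without conditional expectation is orthogonal to the invariant functions. -/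
private theorem dens_inv_orth [IsProbabilityMeasure μ] (hφ : IsFlow μ φ) (i : Fin (k + 1))
    {f : Ω → ℝ} (hf : Measurable f) {B : ℝ} (hB : ∀ x, |f x| ≤ B)
    (h0 : μ[f | ⨅ s : ℝ, MeasurableSpace.invariants (φ (Pi.single i s))] =ᵐ[μ] 0)
    {g : Ω → ℝ} (hg : Measurable g) (hgi : Integrable g μ)
    (hinv : ∀ s : ℝ, (fun x => g (φ (Pi.single i s) x)) =ᵐ[μ] g) :
    ∫ x, f x * g x ∂μ = 0 := by
  have hψ := dens_flow hφ i
  have hI : (⨅ t : Vec 0, MeasurableSpace.invariants (φ (Pi.single i (t 0))))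
      = ⨅ s : ℝ, MeasurableSpace.invariants (φ (Pi.single i s)) := by
    refine Function.Surjective.iInf_congr (fun t : Vec 0 => t 0) ?_ fun t => rfl
    intro s
    exact ⟨fun _ => s, rfl⟩
  have hIle : (⨅ s : ℝ, MeasurableSpace.invariants (φ (Pi.single i s))) ≤ ‹MeasurableSpace Ω› :=
    (iInf_le _ (0 : ℝ)).trans (MeasurableSpace.invariants_le _)
  have hfi : Integrable f μ := Integrable.of_bound hf.aestronglyMeasurable B
    (Eventually.of_forall fun x => by simpa using hB x)
  -- bounded invariant functions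
  have hb : ∀ K : ℝ, 0 ≤ K → ∫ x, f x * dens_clip K (g x) ∂μ = 0 := by
    intro K hK
    obtain ⟨G, hGm, hGK, hGe⟩ := Pool.AEV.inv_reg hψ (dens_clip_measurable K hg)
      (fun x => dens_clip_abs_le hK (g x)) (fun t => by
        filter_upwards [hinv (t 0)] with x hx
        rw [hx])
    rw [hI] at hGm
    have hGm' : Measurable G := hGm.mono hIle le_rfl
    have i1 : Integrable (fun x => f x * G x) μ := by
      refine Integrable.of_bound (hf.mul hGm').aestronglyMeasurable (B * K)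
        (Eventually.of_forall fun x => ?_)
      rw [Real.norm_eq_abs, abs_mul]
      exact mul_le_mul (hB x) (hGK x) (abs_nonneg _) ((abs_nonneg _).trans (hB x))
    have h1 : μ[(f * G) | ⨅ s : ℝ, MeasurableSpace.invariants (φ (Pi.single i s))] =ᵐ[μ]
        μ[f | ⨅ s : ℝ, MeasurableSpace.invariants (φ (Pi.single i s))] * G :=
      condExp_mul_of_stronglyMeasurable_right hGm.stronglyMeasurable i1 hfi
    have h3 : ∫ x, (μ[(f * G) | ⨅ s : ℝ, MeasurableSpace.invariants (φ (Pi.single i s))]) x ∂μ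
        = ∫ x, (f * G) x ∂μ := integral_condExp hIle
    have h4 : ∫ x, f x * dens_clip K (g x) ∂μ = ∫ x, (f * G) x ∂μ := by
      refine integral_congr_ae ?_
      filter_upwards [hGe] with x hx
      rw [Pi.mul_apply, hx]
    rw [h4, ← h3, ← integral_zero Ω ℝ (μ := μ)]
    refine integral_congr_ae ?_
    filter_upwards [h1, h0] with x hx hx2
    rw [hx, Pi.mul_apply, hx2, Pi.zero_apply, zero_mul]
  have hlim : Tendsto (fun n : ℕ => ∫ x, f x * dens_clip (n : ℝ) (g x) ∂μ) atTop
      (𝓝 (∫ x, f x * g x ∂μ)) := by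
    refine tendsto_integral_of_dominated_convergence (fun x => B * |g x|) ?_
      (hgi.abs.const_mul B) ?_ ?_
    · intro n
      exact (hf.mul (dens_clip_measurable _ hg)).aestronglyMeasurable
    · intro n
      refine Eventually.of_forall fun x => ?_
      rw [Real.norm_eq_abs, abs_mul]
      exact mul_le_mul (hB x) (dens_clip_le (Nat.cast_nonneg n) _) (abs_nonneg _)
        ((abs_nonneg _).trans (hB x))
    · refine Eventually.of_forall fun x => ?_
      obtain ⟨n₀, hn₀⟩ := exists_nat_ge (|g x|)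
      refine tendsto_const_nhds.congr' ?_
      filter_upwards [eventually_ge_atTop n₀] with n hn
      have : |g x| ≤ (n : ℝ) := by
        have : (n₀ : ℝ) ≤ n := by exact_mod_cast hn
        linarith
      rw [dens_clip_eq this]
  have h5 : ∀ n : ℕ, ∫ x, f x * dens_clip (n : ℝ) (g x) ∂μ = 0 := fun n => hb n (Nat.cast_nonneg n)
  simp_rw [h5] at hlim
  exact tendsto_nhds_unique hlim tendsto_const_nhds

/-- A countable class of functions which are good in the direction `i`, whose span is dense in the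
orthogonal complement of the invariant functions of that direction. -/
theorem dens_dir [MeasurableSpace.CountablyGenerated Ω] [IsProbabilityMeasure μ]
    (hφ : IsFlow μ φ) (i : Fin (k + 1)) :
    ∃ H : Set (Ω → ℝ), H.Countable ∧ (∀ c ∈ H, Good μ φ i c) ∧
      ∀ f : Ω → ℝ, Measurable f → (∃ B : ℝ, ∀ x, |f x| ≤ B) →
        μ[f | ⨅ s : ℝ, MeasurableSpace.invariants (φ (Pi.single i s))] =ᵐ[μ] 0 →
        ∀ ε : ℝ, 0 < ε →
        ∃ (n : ℕ) (r : Fin n → ℝ) (c : Fin n → Ω → ℝ), (∀ l, c l ∈ H) ∧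
          ∫ x, (f x - ∑ l, r l * c l x) ^ 2 ∂μ ≤ ε := by
  obtain ⟨A, hAc, hA, hm⟩ := dens_alg Ω
  have hAm : ∀ s ∈ A, MeasurableSet s := by
    intro s hs
    rw [hm]
    exact MeasurableSpace.measurableSet_generateFrom hs
  set J : Set ((Set Ω × ℚ × (Fin (k + 1) → ℚ)) × ℚ) := {z | z.1.1 ∈ A ∧ 0 < z.1.2.1} with hJ
  have hJc : J.Countable := by
    have : J ⊆ (A ×ˢ (Set.univ : Set (ℚ × (Fin (k + 1) → ℚ)))) ×ˢ (Set.univ : Set ℚ) :=
      fun z hz => ⟨⟨hz.1, mem_univ _⟩, mem_univ _⟩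
    exact ((hAc.prod (Set.to_countable _)).prod (Set.to_countable _)).mono this
  set co : (Set Ω × ℚ × (Fin (k + 1) → ℚ)) × ℚ → Ω → ℝ := fun z x =>
    dens_hh φ z.1 x - dens_hh φ z.1 (φ (Pi.single i (z.2 : ℝ)) x) with hco
  have hgood : ∀ c ∈ co '' J, Good μ φ i c := by
    rintro c ⟨z, hz, rfl⟩
    have hδ : (0 : ℝ) < (z.1.2.1 : ℝ) := by exact_mod_cast hz.2
    exact cob_good hφ (dens_hh_meas hφ (hAm _ hz.1)) (fun x => dens_hh_bd hz.2 x)
      (L := (k + 1 : ℕ) / (z.1.2.1 : ℝ)) (by positivity) (dens_hh_lip hφ (hAm _ hz.1) hz.2) i _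
  refine ⟨co '' J, hJc.image _, hgood, fun f hf ⟨B, hB⟩ hf0 ε hε => ?_⟩
  have hfL : MemLp f 2 μ := dens_memLp_bd hf B hB
  obtain ⟨n, r, c, g, h1, h2, h3, h4, h5⟩ := dens_orth (co '' J)
    (fun c hc => ⟨(hgood c hc).reg.meas, (hgood c hc).reg.bd⟩) f hfL ε hε
  refine ⟨n, r, c, h1, ?_⟩
  have hgi : Integrable g μ := dens_memLp_int h3
  have hcomp : ∀ t : Vec k, Integrable (fun x => g (φ t x)) μ := fun t =>
    (hφ.mp t).integrable_comp_of_integrable hgi
  -- invariance of `g`
  have hinv : ∀ s : ℝ, (fun x => g (φ (Pi.single i s) x)) =ᵐ[μ] g := by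
    intro s
    have h6 : ∀ S ∈ A, ∀ᵐ r ∂(volume : Measure (Vec k)),
        dens_E μ φ g (S.indicator (fun _ => (1 : ℝ))) r
          = dens_E μ φ g (S.indicator (fun _ => (1 : ℝ))) (r + Pi.single i s) := by
      intro S hS
      refine dens_dirE (dens_E_meas hφ h2 (dens_k1 hAm S hS))
        (fun r => dens_E_bd hgi (dens_k2 S) r) i (fun δ s' u hδ => ?_) s
      have hδ' : (0 : ℝ) < (δ : ℝ) := by exact_mod_cast hδ
      have h7 := h4 _ ⟨((S, δ, u), s'), ⟨hS, hδ⟩, rfl⟩
      simp only [hco, dens_hh] at h7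
      have e1 : ∀ x, g x * (dens_h φ (S.indicator (fun _ => (1 : ℝ))) δ (φ (dens_v u) x)
          - dens_h φ (S.indicator (fun _ => (1 : ℝ))) δ
            (φ (dens_v u) (φ (Pi.single i (s' : ℝ)) x)))
          = g x * dens_h φ (S.indicator (fun _ => (1 : ℝ))) δ (φ (dens_v u) x)
            - g x * dens_h φ (S.indicator (fun _ => (1 : ℝ))) δ
              (φ (dens_v u + Pi.single i (s' : ℝ)) x) := by
        intro x
        rw [hφ.add]
        ring
      simp_rw [e1] at h7
      rw [integral_sub (dens_hint hφ h2 hgi (dens_k1 hAm S hS) (dens_k2 S) hδ' _)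
        (dens_hint hφ h2 hgi (dens_k1 hAm S hS) (dens_k2 S) hδ' _),
        dens_I hφ h2 hgi (dens_k1 hAm S hS) (dens_k2 S) hδ',
        dens_I hφ h2 hgi (dens_k1 hAm S hS) (dens_k2 S) hδ', ← mul_sub] at h7
      have h8 : (2 * (2 * (δ : ℝ)) ^ (k + 1))⁻¹ ≠ 0 := by positivity
      rcases mul_eq_zero.1 h7 with h | h
      · exact absurd h h8
      · linarith
    have h8 : ∀ᵐ r ∂(volume : Measure (Vec k)), ∀ S ∈ A,
        dens_E μ φ g (S.indicator (fun _ => (1 : ℝ))) r
          = dens_E μ φ g (S.indicator (fun _ => (1 : ℝ))) (r + Pi.single i s) :=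
      (ae_ball_iff hAc).2 h6
    obtain ⟨r', hr⟩ := h8.exists
    have h11 : (fun x => g (φ (-r') x) - g (φ (-(r' + Pi.single i s)) x)) =ᵐ[μ] 0 := by
      refine dens_ind_zero hA hm ((hcomp _).sub (hcomp _)) fun S hS => ?_
      have e1 := hr S hS
      rw [dens_E_comp hφ h2 (dens_k1 hAm S hS), dens_E_comp hφ h2 (dens_k1 hAm S hS)] at e1
      have hI : ∀ t : Vec k,
          Integrable (fun x => g (φ t x) * S.indicator (fun _ => (1 : ℝ)) x) μ := by
        intro t
        refine Integrable.mono (hcomp t) ((hcomp t).aestronglyMeasurable.mul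
          (dens_k1 hAm S hS).aestronglyMeasurable) ?_
        filter_upwards with x
        rw [norm_mul]
        exact mul_le_of_le_one_right (norm_nonneg _) (by simpa using dens_k2 S x)
      have e3 : ∫ x, (g (φ (-r') x) - g (φ (-(r' + Pi.single i s)) x))
            * S.indicator (fun _ => (1 : ℝ)) x ∂μ
          = (∫ x, g (φ (-r') x) * S.indicator (fun _ => (1 : ℝ)) x ∂μ)
            - ∫ x, g (φ (-(r' + Pi.single i s)) x) * S.indicator (fun _ => (1 : ℝ)) x ∂μ := by
        rw [← integral_sub (hI _) (hI _)]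
        refine integral_congr_ae (Eventually.of_forall fun x => ?_)
        simp only
        ring
      rw [e3, e1, sub_self]
    have h12 := (hφ.mp (r' + Pi.single i s)).quasiMeasurePreserving.ae h11
    filter_upwards [h12] with x hx
    simp only [Pi.zero_apply] at hx
    rw [← hφ.add, ← hφ.add] at hx
    have r1 : -r' + (r' + Pi.single i s) = Pi.single i s := by abel
    have r2 : -(r' + Pi.single i s) + (r' + Pi.single i s) = 0 := by abel
    rw [r1, r2, hφ.zero] at hx
    linarith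
  -- orthogonality
  have hfg : ∫ x, f x * g x ∂μ = 0 := dens_inv_orth hφ i hf hB hf0 h2 hgi hinv
  set w : Ω → ℝ := fun x => f x - ∑ l, r l * c l x with hw
  have hcm : ∀ l, Measurable (c l) := fun l => (hgood _ (h1 l)).reg.meas
  have hcb : ∀ l x, |c l x| ≤ 1 := fun l => (hgood _ (h1 l)).reg.bd
  have hwm : Measurable w :=
    hf.sub (Finset.measurable_fun_sum _ fun l _ => (hcm l).const_mul _)
  have hwb : ∀ x, |w x| ≤ B + ∑ l, |r l| := by
    intro x
    refine (abs_sub _ _).trans (add_le_add (hB x) ?_)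
    refine (Finset.abs_sum_le_sum_abs _ _).trans (Finset.sum_le_sum fun l _ => ?_)
    rw [abs_mul]
    exact mul_le_of_le_one_right (abs_nonneg _) (hcb l x)
  have hwL : MemLp w 2 μ := dens_memLp_bd hwm _ hwb
  have hcg : ∀ l, Integrable (fun x => c l x * g x) μ := by
    intro l
    refine Integrable.mono hgi ((hcm l).mul h2).aestronglyMeasurable ?_
    filter_upwards with x
    rw [norm_mul]
    exact mul_le_of_le_one_left (norm_nonneg _) (by simpa using hcb l x)
  have hfgi : Integrable (fun x => f x * g x) μ := by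
    refine Integrable.mono (hgi.const_mul B) (hf.mul h2).aestronglyMeasurable ?_
    filter_upwards with x
    rw [norm_mul, norm_mul]
    refine mul_le_mul_of_nonneg_right ?_ (norm_nonneg _)
    rw [Real.norm_eq_abs, Real.norm_eq_abs]
    exact (hB x).trans (le_abs_self B)
  have hcg0 : ∀ l, ∫ x, c l x * g x ∂μ = 0 := by
    intro l
    rw [← h4 _ (h1 l)]
    exact integral_congr_ae (Eventually.of_forall fun x => mul_comm _ _)
  have hwgi : ∀ x, w x * g x = f x * g x - ∑ l, r l * (c l x * g x) := by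
    intro x
    simp only [hw]
    rw [sub_mul, Finset.sum_mul]
    congr 1
    exact Finset.sum_congr rfl fun l _ => by ring
  have hwgI : Integrable (fun x => w x * g x) μ := by
    simp_rw [hwgi]
    exact hfgi.sub (integrable_finsetSum _ fun l _ => (hcg l).const_mul _)
  have hwg : ∫ x, w x * g x ∂μ = 0 := by
    simp_rw [hwgi]
    rw [integral_sub hfgi (integrable_finsetSum _ fun l _ => (hcg l).const_mul _), hfg,
      integral_finsetSum _ fun l _ => (hcg l).const_mul _]
    simp_rw [integral_const_mul, hcg0]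
    simp
  have h6 : 0 ≤ ∫ x, g x ^ 2 ∂μ := integral_nonneg fun x => sq_nonneg _
  have h7 : ∫ x, (w x - g x) ^ 2 ∂μ = ∫ x, w x ^ 2 ∂μ + ∫ x, g x ^ 2 ∂μ := by
    have e1 : ∀ x, (w x - g x) ^ 2 = (w x ^ 2 + g x ^ 2) - 2 * (w x * g x) := fun x => by ring
    have j1 : Integrable (fun x => w x ^ 2 + g x ^ 2) μ := hwL.integrable_sq.add h3.integrable_sq
    have j2 : Integrable (fun x => 2 * (w x * g x)) μ := hwgI.const_mul 2
    calc ∫ x, (w x - g x) ^ 2 ∂μ = ∫ x, ((w x ^ 2 + g x ^ 2) - 2 * (w x * g x)) ∂μ :=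
          integral_congr_ae (Eventually.of_forall e1)
      _ = ∫ x, (w x ^ 2 + g x ^ 2) ∂μ - ∫ x, 2 * (w x * g x) ∂μ := integral_sub j1 j2
      _ = ∫ x, w x ^ 2 ∂μ + ∫ x, g x ^ 2 ∂μ := by
          rw [integral_add hwL.integrable_sq h3.integrable_sq, integral_const_mul, hwg]
          ring
  have h8 : ∫ x, (w x - g x) ^ 2 ∂μ ≤ ε := h5
  linarith

end Pool.AEW
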