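import Pool.Agent.AEW.Exc
import Pool.Agent.AEW.Dens

/-!
# A function without invariant part in the dominating direction
-/

set_option autoImplicit false

open MeasureTheory Set Filter Topology Finset
open Pool.AET (MaxSq av countable_poly dens0 ext_step Rep)
open Pool.AEV (Vec IsFlow LipT maxSq_flow)

namespace Pool.AEW

variable {k : ℕ} {Ω : Type*} [MeasurableSpace Ω] {μ : Measure Ω} {d : ℕ}

/-- The average of the product. -/
private noncomputable def dcD {ι : Type*} [Fintype ι] (τ : ι → ℤ → Ω → Ω) (f : ι → Ω → ℝ)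
    (N : ℕ) (x : Ω) : ℝ := av (fun n => ∏ i, f i (τ i n x)) N

omit [MeasurableSpace Ω] in
private theorem dc_rep {ι : Type*} [Fintype ι] [DecidableEq ι] (τ : ι → ℤ → Ω → Ω) :
    Rep τ (dcD τ) := by
  intro f a N x
  refine ⟨fun n => ∏ i ∈ Finset.univ.erase a, f i (τ i n x), fun _ => 0, 0, ?_, ?_⟩
  · intro v
    have e1 : ∀ n, ∏ i, Function.update f a v i (τ i n x)
        = v (τ a n x) * ∏ i ∈ Finset.univ.erase a, f i (τ i n x) := by
      intro n
      rw [← Finset.mul_prod_erase Finset.univ _ (Finset.mem_univ a), Function.update_self]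
      congr 1
      refine Finset.prod_congr rfl fun i hi => ?_
      rw [Function.update_of_ne (Finset.ne_of_mem_erase hi)]
    unfold dcD
    simp_rw [e1]
    ring
  · intro B hB hf
    have hB0 : 0 ≤ B := by linarith
    refine ⟨fun n => ?_, fun n => ?_⟩
    · rw [Finset.abs_prod]
      calc ∏ i ∈ Finset.univ.erase a, |f i (τ i n x)| ≤ ∏ i ∈ Finset.univ.erase a, B :=
            Finset.prod_le_prod (fun _ _ => abs_nonneg _) fun i _ => hf i _
        _ = B ^ (Finset.univ.erase a).card := by rw [Finset.prod_const]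
        _ ≤ B ^ Fintype.card ι := by
          refine pow_le_pow_right₀ hB ?_
          exact (Finset.card_le_card (Finset.erase_subset _ _)).trans (le_of_eq Finset.card_univ)
    · rw [mul_zero, abs_zero]
      positivity

/-- All coordinates, for classes of functions. -/
private theorem dc_ext [IsProbabilityMeasure μ] {ι : Type*} [Fintype ι] [DecidableEq ι]
    {τ : ι → ℤ → Ω → Ω} {Δ : (ι → Ω → ℝ) → ℕ → Ω → ℝ} (hΔ : Rep τ Δ)
    (hmax : ∀ i, MaxSq μ (τ i)) (K : ι → (Ω → ℝ) → Prop)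
    (hK : ∀ i k, K i k → Measurable k ∧ ∀ x, |k x| ≤ 1) (Y : ι → (Ω → ℝ) → Prop)
    (hdens : ∀ i (f : Ω → ℝ), Measurable f → (∃ B : ℝ, ∀ x, |f x| ≤ B) → Y i f → ∀ ε : ℝ, 0 < ε →
      ∃ (m : ℕ) (r : Fin m → ℝ) (k : Fin m → Ω → ℝ), (∀ l, K i (k l)) ∧
      ∫ x, (f x - ∑ l, r l * k l x) ^ 2 ∂μ ≤ ε)
    (hbase : ∀ f : ι → Ω → ℝ, (∀ i, K i (f i)) →
      ∀ᵐ x ∂μ, Tendsto (fun N => Δ f N x) atTop (𝓝 0))
    (f : ι → Ω → ℝ) {B : ℝ} (hfm : ∀ i, Measurable (f i)) (hfB : ∀ i x, |f i x| ≤ B)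
    (hfY : ∀ i, Y i (f i)) :
    ∀ᵐ x ∂μ, Tendsto (fun N => Δ f N x) atTop (𝓝 0) := by
  have main : ∀ s : Finset ι, ∀ f : ι → Ω → ℝ, (∀ i, Measurable (f i)) →
      (∃ B : ℝ, ∀ i x, |f i x| ≤ B) → (∀ i, i ∉ s → K i (f i)) → (∀ i, i ∈ s → Y i (f i)) →
      ∀ᵐ x ∂μ, Tendsto (fun N => Δ f N x) atTop (𝓝 0) := by
    intro s
    induction s using Finset.induction_on with
    | empty =>
      intro f _ _ hf _
      exact hbase f fun i => hf i (by simp)
    | insert a s has ih =>
      intro f hfm hfB hf hY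
      obtain ⟨B, hB⟩ := hfB
      refine ext_step hΔ a (hmax a) (K a) (hK a) f (hfm a) hB
        (hdens a (f a) (hfm a) ⟨B, hB a⟩ (hY a (Finset.mem_insert_self a s))) ?_
      intro k hk
      apply ih
      · intro i
        by_cases hi : i = a
        · subst hi
          rw [Function.update_self]
          exact (hK _ k hk).1
        · rw [Function.update_of_ne hi]
          exact hfm i
      · refine ⟨max B 1, fun i x => ?_⟩
        by_cases hi : i = a
        · subst hi
          rw [Function.update_self]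
          exact ((hK _ k hk).2 x).trans (le_max_right _ _)
        · rw [Function.update_of_ne hi]
          exact (hB i x).trans (le_max_left _ _)
      · intro i his
        by_cases hi : i = a
        · subst hi
          rw [Function.update_self]
          exact hk
        · rw [Function.update_of_ne hi]
          apply hf
          simp [hi, his]
      · intro i his
        have hi : i ≠ a := fun h => has (h ▸ his)
        rw [Function.update_of_ne hi]
        exact hY i (Finset.mem_insert_of_mem his)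
  exact main Finset.univ f hfm ⟨B, hfB⟩ (fun i hi => absurd (Finset.mem_univ i) hi)
    fun i _ => hfY i

theorem dc [MeasurableSpace.CountablyGenerated Ω] [IsProbabilityMeasure μ]
    {Γ : Type*} [Countable Γ] {γ : Γ → ℤ → Ω → Ω} (hγ : ∀ p n, Measurable (γ p n))
    (hmax : ∀ p, MaxSq μ (γ p))
    {φ : Fin (d + 1) → Vec k → Ω → Ω} (hφ : ∀ j, IsFlow μ (φ j)) (D : ℕ) :
    ∃ E : Set (Vec k),
      dimH E ≤ ENNReal.ofReal (((k : ℝ) + 1) - 1 / (2 * (((48 * D + 144) * D : ℕ) : ℝ) + 4)) ∧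
      ∀ t ∉ E, ∀ Q : Fin (d + 1) → Fin (k + 1) → Polynomial ℤ,
        (∀ j i, (Q j i).natDegree ≤ D) → ∀ (i₀ : Fin (k + 1)) (j₀ : Fin (d + 1)),
        1 ≤ (Q j₀ i₀).natDegree →
        (∀ j, j ≠ j₀ → (Q j i₀).natDegree < (Q j₀ i₀).natDegree) →
        ∀ (m : ℕ) (p : Fin m → Γ) (F : Fin m → Ω → ℝ) (f : Fin (d + 1) → Ω → ℝ),
          (∀ l, Measurable (F l)) → (∀ j, Measurable (f j)) →
          ∀ B : ℝ, (∀ l x, |F l x| ≤ B) → (∀ j x, |f j x| ≤ B) →
          μ[f j₀ | ⨅ s : ℝ, MeasurableSpace.invariants (φ j₀ (Pi.single i₀ s))] =ᵐ[μ] 0 →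
          ∀ᵐ x ∂μ, Tendsto (fun N : ℕ =>
            av (fun n => (∏ l, F l (γ (p l) n x)) *
              ∏ j, f j (φ j (t * fun i => (((Q j i).eval n : ℤ) : ℝ)) x)) N) atTop (𝓝 0) := by
  classical
  have hctb : Countable (Polynomial ℤ) := countable_poly
  obtain ⟨H₀, hH₀c, hH₀p, hH₀d⟩ := dens0 μ
  choose Ha hHac hHap hHad using fun j => dens_all (hφ j)
  choose Hd hHdc hHdp hHdd using fun j i => dens_dir (hφ j) i
  set CC : Fin (k + 1) → Fin (d + 1) → Set (Fin (d + 1) → Ω → ℝ) := fun i₀ j₀ =>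
    Set.univ.pi (Function.update Ha j₀ (Hd j₀ i₀)) with hCC
  have hCCc : ∀ i₀ j₀, (CC i₀ j₀).Countable := by
    intro i₀ j₀
    refine Set.countable_univ_pi fun j => ?_
    by_cases hj : j = j₀
    · subst hj
      rw [Function.update_self]
      exact hHdc _ _
    · rw [Function.update_of_ne hj]
      exact hHac j
  have hCCr : ∀ i₀ j₀, ∀ c ∈ CC i₀ j₀, ∀ j, Reg (φ j) (c j) := by
    intro i₀ j₀ c hc j
    have h1 := hc j (Set.mem_univ j)
    by_cases hj : j = j₀
    · subst hj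
      rw [Function.update_self] at h1
      exact (hHdp _ _ _ h1).reg
    · rw [Function.update_of_ne hj] at h1
      exact hHap j _ h1
  have hCCg : ∀ i₀ j₀, ∀ c ∈ CC i₀ j₀, Good μ (φ j₀) i₀ (c j₀) := by
    intro i₀ j₀ c hc
    have h1 := hc j₀ (Set.mem_univ j₀)
    rw [Function.update_self] at h1
    exact hHdp _ _ _ h1
  set FF : (m : ℕ) → Set (Fin m → Ω → ℝ) := fun m => Set.univ.pi fun _ => H₀ with hFF
  have hFFc : ∀ m, (FF m).Countable := fun m => Set.countable_univ_pi fun _ => hH₀c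
  have hFFp : ∀ m, ∀ F ∈ FF m, ∀ l, Measurable (F l) ∧ ∀ x, |F l x| ≤ 1 := fun m F hF l =>
    hH₀p _ (hF l (Set.mem_univ l))
  set X : (Q : Fin (d + 1) → Fin (k + 1) → Polynomial ℤ) → Fin (k + 1) → Fin (d + 1) →
      (m : ℕ) → (Fin m → Γ) → (Fin m → Ω → ℝ) → (Fin (d + 1) → Ω → ℝ) → Set (Vec k) :=
    fun Q i₀ j₀ m p F c =>
    {t | ((∀ j i, (Q j i).natDegree ≤ D) ∧ 1 ≤ (Q j₀ i₀).natDegree ∧
        ∀ j, j ≠ j₀ → (Q j i₀).natDegree < (Q j₀ i₀).natDegree) ∧
      ¬ ∀ᵐ x ∂μ, Tendsto (fun N : ℕ => av (fun n => (∏ l, F l (γ (p l) n x)) *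
          ∏ j, c j (φ j (t * fun i => (((Q j i).eval n : ℤ) : ℝ)) x)) N) atTop (𝓝 0)} with hX
  refine ⟨⋃ Q : Fin (d + 1) → Fin (k + 1) → Polynomial ℤ, ⋃ i₀ : Fin (k + 1),
    ⋃ j₀ : Fin (d + 1), ⋃ m : ℕ, ⋃ p : Fin m → Γ,
    ⋃ F ∈ FF m, ⋃ c ∈ CC i₀ j₀, X Q i₀ j₀ m p F c, ?_, ?_⟩
  · rw [dimH_iUnion]
    refine iSup_le fun Q => ?_
    rw [dimH_iUnion]
    refine iSup_le fun i₀ => ?_
    rw [dimH_iUnion]
    refine iSup_le fun j₀ => ?_
    rw [dimH_iUnion]
    refine iSup_le fun m => ?_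
    rw [dimH_iUnion]
    refine iSup_le fun p => ?_
    rw [dimH_bUnion (hFFc m)]
    refine iSup₂_le fun F hF => ?_
    rw [dimH_bUnion (hCCc i₀ j₀)]
    refine iSup₂_le fun c hc => ?_
    by_cases hcond : (∀ j i, (Q j i).natDegree ≤ D) ∧ 1 ≤ (Q j₀ i₀).natDegree ∧
        ∀ j, j ≠ j₀ → (Q j i₀).natDegree < (Q j₀ i₀).natDegree
    · obtain ⟨hQD, hQ1, hQ2⟩ := hcond
      refine (dimH_mono ?_).trans (exc_gen hφ (w := fun n x => ∏ l, F l (γ (p l) n x)) ?_ ?_
        (c := c) (hCCr i₀ j₀ c hc) i₀ j₀ (hCCg i₀ j₀ c hc) Q hQD hQ1 hQ2)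
      · intro t ht
        exact ht.2
      · intro n
        refine Finset.measurable_fun_prod _ fun l _ => ?_
        exact (hFFp m F hF l).1.comp (hγ _ _)
      · intro n x
        rw [Finset.abs_prod]
        exact Finset.prod_le_one (fun _ _ => abs_nonneg _) fun l _ => (hFFp m F hF l).2 _
    · have : X Q i₀ j₀ m p F c = ∅ := by
        rw [Set.eq_empty_iff_forall_notMem]
        intro t ht
        exact hcond ht.1
      rw [this, dimH_empty]
      exact zero_le
  · intro t ht Q hQD i₀ j₀ hQ1 hQ2 m p F f hFm hfm B hFB hfB hf0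
    have hgood : ∀ F ∈ FF m, ∀ c ∈ CC i₀ j₀,
      ∀ᵐ x ∂μ, Tendsto (fun N : ℕ => av (fun n => (∏ l, F l (γ (p l) n x)) *
          ∏ j, c j (φ j (t * fun i => (((Q j i).eval n : ℤ) : ℝ)) x)) N) atTop (𝓝 0) := by
      intro F hF c hc
      by_contra hcon
      apply ht
      simp only [Set.mem_iUnion]
      exact ⟨Q, i₀, j₀, m, p, F, hF, c, hc, ⟨hQD, hQ1, hQ2⟩, hcon⟩
    set τ : Fin m ⊕ Fin (d + 1) → ℤ → Ω → Ω := fun i => match i with
      | Sum.inl l => fun n x => γ (p l) n x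
      | Sum.inr j => fun n => φ j (t * fun i => (((Q j i).eval n : ℤ) : ℝ)) with hτ
    set KK : Fin m ⊕ Fin (d + 1) → (Ω → ℝ) → Prop := fun i => match i with
      | Sum.inl _ => fun v => v ∈ H₀
      | Sum.inr j => fun v => v ∈ Function.update Ha j₀ (Hd j₀ i₀) j with hKK
    set Y : Fin m ⊕ Fin (d + 1) → (Ω → ℝ) → Prop := fun i v => i = Sum.inr j₀ →
      μ[v | ⨅ s : ℝ, MeasurableSpace.invariants (φ j₀ (Pi.single i₀ s))] =ᵐ[μ] 0 with hY
    set G : Fin m ⊕ Fin (d + 1) → Ω → ℝ := fun i => match i with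
      | Sum.inl l => F l
      | Sum.inr j => f j with hG
    have hmain := dc_ext (μ := μ) (dc_rep τ) ?_ KK ?_ Y ?_ ?_ G (B := B) ?_ ?_ ?_
    · filter_upwards [hmain] with x hx
      refine hx.congr fun N => ?_
      unfold dcD
      congr 1
      funext n
      rw [Fintype.prod_sum_type]
    · intro i
      rcases i with l | j
      · exact hmax (p l)
      · exact maxSq_flow (hφ j) t (Q j)
    · intro i v hv
      rcases i with l | j
      · exact hH₀p v hv
      · have hv' : v ∈ Function.update Ha j₀ (Hd j₀ i₀) j := hv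
        by_cases hj : j = j₀
        · subst hj
          rw [Function.update_self] at hv'
          exact ⟨(hHdp _ _ _ hv').reg.meas, (hHdp _ _ _ hv').reg.bd⟩
        · rw [Function.update_of_ne hj] at hv'
          exact ⟨(hHap j _ hv').meas, (hHap j _ hv').bd⟩
    · intro i g hg hgB hgY ε hε
      have hgL : MemLp g 2 μ := by
        obtain ⟨B', hB'⟩ := hgB
        exact MemLp.of_bound hg.aestronglyMeasurable B'
          (Filter.Eventually.of_forall fun x => by simpa using hB' x)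
      rcases i with l | j
      · obtain ⟨n, r, h, hh, hint⟩ := hH₀d g hgL ε hε
        exact ⟨n, r, h, fun l => hh l, hint⟩
      · by_cases hj : j = j₀
        · subst hj
          obtain ⟨n, r, h, hh, hint⟩ := hHdd j i₀ g hg hgB (hgY rfl) ε hε
          refine ⟨n, r, h, fun l => ?_, hint⟩
          show h l ∈ Function.update Ha j (Hd j i₀) j
          rw [Function.update_self]
          exact hh l
        · obtain ⟨n, r, h, hh, hint⟩ := hHad j g hgL ε hε
          refine ⟨n, r, h, fun l => ?_, hint⟩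
          show h l ∈ Function.update Ha j₀ (Hd j₀ i₀) j
          rw [Function.update_of_ne hj]
          exact hh l
    · intro G' hG'
      have hF' : (fun l => G' (Sum.inl l)) ∈ FF m := fun l _ => hG' (Sum.inl l)
      have hc' : (fun j => G' (Sum.inr j)) ∈ CC i₀ j₀ := fun j _ => hG' (Sum.inr j)
      filter_upwards [hgood _ hF' _ hc'] with x hx
      refine hx.congr fun N => ?_
      unfold dcD
      congr 1
      funext n
      rw [Fintype.prod_sum_type]
    · intro i
      rcases i with l | j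
      · exact hFm l
      · exact hfm j
    · intro i x
      rcases i with l | j
      · exact hFB l x
      · exact hfB j x
    · intro i
      rcases i with l | j
      · intro h
        simp at h
      · intro h
        have h1 : j = j₀ := Sum.inr_injective h
        subst h1
        exact hf0

end Pool.AEW
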