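import Pool.Agent.AEV.MainG

/-!
# Actions of a vector space at common times: definitions
-/

set_option autoImplicit false

open MeasureTheory Set
open Pool.AET (integrable_bd abs_integral_bd)
open Pool.AEV (Vec IsFlow LipT vol_box isProb_box)

namespace Pool.AEW

variable {k : ℕ} {Ω : Type*} [MeasurableSpace Ω] {μ : Measure Ω} {φ : Vec k → Ω → Ω}

/-- The integrals of the self correlations over the intervals of direction `i` are bounded. -/
def DecI (μ : Measure Ω) (φ : Vec k → Ω → Ω) (f : Ω → ℝ) (i : Fin (k + 1)) (S : ℝ) : Prop :=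
  ∀ a b : ℝ, |∫ g in a..b, ∫ x, f x * f (φ (Pi.single i g) x) ∂μ| ≤ S

/-- Regular functions. -/
structure Reg (φ : Vec k → Ω → Ω) (c : Ω → ℝ) : Prop where
  meas : Measurable c
  bd : ∀ x, |c x| ≤ 1
  lip : ∃ L : ℝ, 0 ≤ L ∧ LipT φ c L

/-- Functions which are good in the direction `i`. -/
structure Good (μ : Measure Ω) (φ : Vec k → Ω → Ω) (i : Fin (k + 1)) (c : Ω → ℝ) : Prop where
  reg : Reg φ c
  dec : ∃ S : ℝ, DecI μ φ c i S

/-- The uniform probability measure on `[0, η]`. -/
noncomputable def nu (η : ℝ) : Measure ℝ := (ENNReal.ofReal η)⁻¹ • volume.restrict (Icc 0 η)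

/-- Lebesgue measure on a box which is a little larger than `[α, α+1]`. -/
noncomputable def kap (α : Vec k) (i : Fin (k + 1)) (η : ℝ) : Measure (Vec k) :=
  volume.restrict (Icc (α - Pi.single i η) (α + 1))

theorem nu_prob {η : ℝ} (hη : 0 < η) : IsProbabilityMeasure (nu η) := by
  constructor
  unfold nu
  rw [Measure.smul_apply, Measure.restrict_apply_univ, Real.volume_Icc, sub_zero, smul_eq_mul]
  exact ENNReal.inv_mul_cancel (by simpa using hη) ENNReal.ofReal_ne_top

theorem kap_fin (α : Vec k) (i : Fin (k + 1)) (η : ℝ) : IsFiniteMeasure (kap α i η) :=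
  ⟨by
    unfold kap
    rw [Measure.restrict_apply_univ]
    exact isCompact_Icc.measure_lt_top⟩

theorem kap_univ (α : Vec k) (i : Fin (k + 1)) {η : ℝ} (hη : 0 ≤ η) (hη1 : η ≤ 1) :
    (kap α i η).real univ ≤ 2 := by
  unfold kap
  rw [measureReal_def, Measure.restrict_apply_univ, Real.volume_Icc_pi]
  rw [Finset.prod_eq_single i]
  · simp only [Pi.add_apply, Pi.sub_apply, Pi.one_apply, Pi.single_eq_same]
    rw [ENNReal.toReal_ofReal (by linarith)]
    linarith
  · intro j _ hj
    simp only [Pi.add_apply, Pi.sub_apply, Pi.one_apply, Pi.single_eq_of_ne hj]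
    simp
  · simp

/-- The correlation of `f ∘ φ (t p)` and `f ∘ φ (t q)` for `t = τ + s e_i`, on average over `s`. -/
noncomputable def corr (φ : Vec k → Ω → Ω) (f : Ω → ℝ) (i : Fin (k + 1)) (ν : Measure ℝ)
    (τ p q : Vec k) (x : Ω) : ℝ :=
  ∫ s, f (φ ((τ + Pi.single i s) * p) x) * f (φ ((τ + Pi.single i s) * q) x) ∂ν

/-- The window average. -/
noncomputable def wnd (φ : Vec k → Ω → Ω) (f : Ω → ℝ) (i : Fin (k + 1)) (κ : Measure (Vec k))
    (s g : ℝ) (p D : Vec k) (x : Ω) : ℝ :=
  ∫ τ, f (φ (-((τ + Pi.single i s) * D)) x)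
    * f (φ (Pi.single i (g * p i) - (τ + Pi.single i s) * D) x) ∂κ

theorem single_measurable (i : Fin (k + 1)) : Measurable (fun s : ℝ => (Pi.single i s : Vec k)) := by
  apply measurable_pi_lambda
  intro j
  by_cases h : j = i
  · subst h
    simp only [Pi.single_eq_same]
    exact measurable_id
  · simp only [Pi.single_eq_of_ne h]
    exact measurable_const

theorem corr_measurable (h : IsFlow μ φ) {f : Ω → ℝ} (hf : Measurable f) (i : Fin (k + 1))
    (ν : Measure ℝ) [IsProbabilityMeasure ν] (p q : Vec k) :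
    Measurable (fun z : Vec k × Ω => corr φ f i ν z.1 p q z.2) := by
  unfold corr
  have hs := single_measurable i
  have hm : Measurable (fun w : (Vec k × Ω) × ℝ =>
      f (φ ((w.1.1 + Pi.single i w.2) * p) w.1.2) * f (φ ((w.1.1 + Pi.single i w.2) * q) w.1.2)) := by
    refine (h.meas_comp hf ?_ (measurable_snd.comp measurable_fst)).mul
      (h.meas_comp hf ?_ (measurable_snd.comp measurable_fst))
    · exact ((measurable_fst.comp measurable_fst).add (hs.comp measurable_snd)).mul_const p
    · exact ((measurable_fst.comp measurable_fst).add (hs.comp measurable_snd)).mul_const q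
  exact (hm.stronglyMeasurable.integral_prod_right).measurable

omit [MeasurableSpace Ω] in
theorem corr_abs_le {f : Ω → ℝ} (hf1 : ∀ x, |f x| ≤ 1) (i : Fin (k + 1)) (ν : Measure ℝ)
    [IsProbabilityMeasure ν] (τ p q : Vec k) (x : Ω) : |corr φ f i ν τ p q x| ≤ 1 := by
  unfold corr
  apply abs_integral_bd
  intro a
  rw [abs_mul]
  exact mul_le_one₀ (hf1 _) (abs_nonneg _) (hf1 _)

theorem wnd_measurable (h : IsFlow μ φ) {f : Ω → ℝ} (hf : Measurable f) (i : Fin (k + 1))
    (κ : Measure (Vec k)) [IsFiniteMeasure κ] (p D : Vec k) :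
    Measurable (fun z : (ℝ × ℝ) × Ω => wnd φ f i κ z.1.1 z.1.2 p D z.2) := by
  unfold wnd
  have hs := single_measurable i
  have hm : Measurable (fun w : ((ℝ × ℝ) × Ω) × Vec k =>
      f (φ (-((w.2 + Pi.single i w.1.1.1) * D)) w.1.2)
        * f (φ (Pi.single i (w.1.1.2 * p i) - (w.2 + Pi.single i w.1.1.1) * D) w.1.2)) := by
    have h1 : Measurable (fun w : ((ℝ × ℝ) × Ω) × Vec k => (w.2 + Pi.single i w.1.1.1) * D) :=
      (measurable_snd.add (hs.comp (measurable_fst.comp (measurable_fst.comp measurable_fst)))).mul_const D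
    have h2 : Measurable (fun w : ((ℝ × ℝ) × Ω) × Vec k => (Pi.single i (w.1.1.2 * p i) : Vec k)) := by
      refine hs.comp ?_
      exact (measurable_snd.comp (measurable_fst.comp measurable_fst)).mul_const _
    exact (h.meas_comp hf h1.neg (measurable_snd.comp measurable_fst)).mul
      (h.meas_comp hf (h2.sub h1) (measurable_snd.comp measurable_fst))
  exact (hm.stronglyMeasurable.integral_prod_right).measurable

omit [MeasurableSpace Ω] in
theorem wnd_abs_le {f : Ω → ℝ} (hf1 : ∀ x, |f x| ≤ 1) (i : Fin (k + 1))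
    (κ : Measure (Vec k)) [IsFiniteMeasure κ] (s g : ℝ) (p D : Vec k) (x : Ω) :
    |wnd φ f i κ s g p D x| ≤ κ.real univ := by
  unfold wnd
  have := norm_integral_le_of_norm_le_const (μ := κ) (C := 1)
    (f := fun τ => f (φ (-((τ + Pi.single i s) * D)) x)
    * f (φ (Pi.single i (g * p i) - (τ + Pi.single i s) * D) x))
    (Filter.Eventually.of_forall fun τ => by
      rw [Real.norm_eq_abs, abs_mul]
      exact mul_le_one₀ (hf1 _) (abs_nonneg _) (hf1 _))
  rw [one_mul, Real.norm_eq_abs] at this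
  exact this

end Pool.AEW
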