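import Pool.Agent.AEW.Box

/-!
# The exceptional times of one family of functions
-/

set_option autoImplicit false

open MeasureTheory Set Filter Topology Finset
open Pool.AET (GrowInc av avg_abs_le fill ae_zero two_sided grow_shift poly_bd comp_neg_eval
  comp_neg_natDegree)
open Pool.AEV (Vec IsFlow LipT prodSeq)

namespace Pool.AEW

variable {k : ℕ} {Ω : Type*} [MeasurableSpace Ω] {μ : Measure Ω} {d : ℕ}

/-- the weights of the function `j₀` -/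
private noncomputable def exc_u (φ : Fin (d + 1) → Vec k → Ω → Ω) (u : ℕ → Ω → ℝ)
    (c : Fin (d + 1) → Ω → ℝ) (q : Fin (d + 1) → ℕ → Vec k) (j₀ : Fin (d + 1)) (n : ℕ)
    (t : Vec k) (x : Ω) : ℝ :=
  u n x * ∏ j ∈ univ.erase j₀, c j (φ j (t * q j n) x)

omit [MeasurableSpace Ω] in
private theorem exc_split (φ : Fin (d + 1) → Vec k → Ω → Ω) (u : ℕ → Ω → ℝ)
    (c : Fin (d + 1) → Ω → ℝ) (q : Fin (d + 1) → ℕ → Vec k) (j₀ : Fin (d + 1)) (n : ℕ)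
    (t : Vec k) (x : Ω) :
    prodSeq φ u c q (fun _ => t) n x =
      exc_u φ u c q j₀ n t x * c j₀ (φ j₀ (t * q j₀ n) x) := by
  unfold prodSeq exc_u
  rw [← Finset.mul_prod_erase univ _ (Finset.mem_univ j₀)]
  ring

private theorem exc_u_meas {φ : Fin (d + 1) → Vec k → Ω → Ω} (hφ : ∀ j, IsFlow μ (φ j))
    {u : ℕ → Ω → ℝ} (hu : ∀ n, Measurable (u n)) {c : Fin (d + 1) → Ω → ℝ}
    (hc : ∀ j, Measurable (c j)) (q : Fin (d + 1) → ℕ → Vec k) (j₀ : Fin (d + 1)) (n : ℕ) :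
    Measurable (fun z : Vec k × Ω => exc_u φ u c q j₀ n z.1 z.2) := by
  unfold exc_u
  refine ((hu n).comp measurable_snd).mul ?_
  refine Finset.measurable_fun_prod _ fun j _ => ?_
  exact (hφ j).meas_comp (hc j) (measurable_fst.mul_const _) measurable_snd

omit [MeasurableSpace Ω] in
private theorem exc_u_bd {φ : Fin (d + 1) → Vec k → Ω → Ω} {u : ℕ → Ω → ℝ}
    (hu1 : ∀ n x, |u n x| ≤ 1) {c : Fin (d + 1) → Ω → ℝ} (hc1 : ∀ j x, |c j x| ≤ 1)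
    (q : Fin (d + 1) → ℕ → Vec k) (j₀ : Fin (d + 1)) (n : ℕ) (t : Vec k) (x : Ω) :
    |exc_u φ u c q j₀ n t x| ≤ 1 := by
  unfold exc_u
  rw [abs_mul, Finset.abs_prod]
  exact mul_le_one₀ (hu1 _ _) (Finset.prod_nonneg fun _ _ => abs_nonneg _)
    (Finset.prod_le_one (fun _ _ => abs_nonneg _) fun j _ => hc1 _ _)

private theorem exc_u_lip {φ : Fin (d + 1) → Vec k → Ω → Ω} (hφ : ∀ j, IsFlow μ (φ j))
    {u : ℕ → Ω → ℝ} (hu1 : ∀ n x, |u n x| ≤ 1) {c : Fin (d + 1) → Ω → ℝ}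
    (hc1 : ∀ j x, |c j x| ≤ 1) {L : ℝ} (hL0 : 0 ≤ L) (hL : ∀ j, LipT (φ j) (c j) L)
    {q : Fin (d + 1) → ℕ → Vec k} {A' : ℝ} {e₀ : ℕ} (i₀ : Fin (k + 1)) (j₀ : Fin (d + 1))
    (hqi' : ∀ j, j ≠ j₀ → ∀ n, |q j n i₀| ≤ A' * ((n : ℝ) + 1) ^ e₀) (n : ℕ) (t : Vec k)
    (s : ℝ) (x : Ω) :
    |exc_u φ u c q j₀ n (t + Pi.single i₀ s) x - exc_u φ u c q j₀ n t x| ≤
      (d * L * A') * ((n : ℝ) + 1) ^ e₀ * |s| := by
  unfold exc_u
  rw [← mul_sub, abs_mul]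
  refine (mul_le_of_le_one_left (abs_nonneg _) (hu1 _ _)).trans ?_
  refine (Pool.AET.LipGAux.prod_sub_le _ _ _ (fun j => hc1 j _) (fun j => hc1 j _)).trans ?_
  have h1 : ∀ j ∈ univ.erase j₀,
      |c j (φ j ((t + Pi.single i₀ s) * q j n) x) - c j (φ j (t * q j n) x)| ≤
        L * (A' * ((n : ℝ) + 1) ^ e₀ * |s|) := by
    intro j hj
    have hjne : j ≠ j₀ := Finset.ne_of_mem_erase hj
    have h2 : φ j ((t + Pi.single i₀ s) * q j n) x =
        φ j (Pi.single i₀ (s * q j n i₀)) (φ j (t * q j n) x) := by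
      rw [← (hφ j).add]
      congr 1
      funext l
      by_cases hl : l = i₀
      · subst hl
        simp only [Pi.mul_apply, Pi.add_apply, Pi.single_eq_same]
        ring
      · simp only [Pi.mul_apply, Pi.add_apply, Pi.single_eq_of_ne hl]
        ring
    rw [h2]
    refine (hL j _ _).trans (mul_le_mul_of_nonneg_left ?_ hL0)
    rw [Pi.norm_single, Real.norm_eq_abs, abs_mul, mul_comm]
    exact mul_le_mul_of_nonneg_right (hqi' j hjne n) (abs_nonneg _)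
  refine (Finset.sum_le_sum h1).trans ?_
  rw [Finset.sum_const, Finset.card_erase_of_mem (Finset.mem_univ j₀), Finset.card_univ,
    Fintype.card_fin, nsmul_eq_mul, Nat.add_sub_cancel]
  apply le_of_eq
  ring

/-- One sided averages of a general sequence; the sequences of the other functions grow in the
coordinate `i₀` with a smaller exponent than the one of `j₀` (which is `e i₀ + 1`). -/
theorem exc_seq [IsProbabilityMeasure μ] {φ : Fin (d + 1) → Vec k → Ω → Ω}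
    (hφ : ∀ j, IsFlow μ (φ j))
    {u : ℕ → Ω → ℝ} (hu : ∀ n, Measurable (u n)) (hu1 : ∀ n x, |u n x| ≤ 1)
    {c : Fin (d + 1) → Ω → ℝ} (hc : ∀ j, Reg (φ j) (c j))
    (i₀ : Fin (k + 1)) (j₀ : Fin (d + 1)) (hj₀ : Good μ (φ j₀) i₀ (c j₀))
    {q : Fin (d + 1) → ℕ → Vec k} {a A : ℝ} {e : Fin (k + 1) → ℕ} {D : ℕ} (heD : e i₀ ≤ D)
    (ha : 0 < a)
    (hqi : GrowInc (fun n => q j₀ n i₀) a A (e i₀))
    (hq : ∀ l, GrowInc (fun n => q j₀ n l) a A (e l) ∨ ∀ n, q j₀ n l = q j₀ 0 l)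
    {A' : ℝ} (hqD : ∀ j n, ‖q j n‖ ≤ A' * ((n : ℝ) + 1) ^ D)
    (hqi' : ∀ j, j ≠ j₀ → ∀ n, |q j n i₀| ≤ A' * ((n : ℝ) + 1) ^ (e i₀)) :
    dimH {t : Vec k | ¬ ∀ᵐ x ∂μ, Tendsto (fun N : ℕ => (N : ℝ)⁻¹ *
        ∑ n ∈ range N, prodSeq φ u c q (fun _ => t) n x) atTop (𝓝 0)}
      ≤ ENNReal.ofReal (((k : ℝ) + 1) - 1 / (2 * (((48 * D + 144) * D : ℕ) : ℝ) + 4)) := by
  classical
  choose Lj hLj0 hLj using fun j => (hc j).lip
  set L : ℝ := ∑ j, Lj j with hLdef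
  have hL0 : 0 ≤ L := Finset.sum_nonneg fun j _ => hLj0 j
  have hL : ∀ j, LipT (φ j) (c j) L := by
    intro j t x
    refine (hLj j t x).trans (mul_le_mul_of_nonneg_right ?_ (norm_nonneg _))
    exact Finset.single_le_sum (f := Lj) (fun i _ => hLj0 i) (Finset.mem_univ j)
  obtain ⟨S, hS⟩ := hj₀.dec
  have hcm : ∀ j, Measurable (c j) := fun j => (hc j).meas
  have hc1 : ∀ j x, |c j x| ≤ 1 := fun j x => (hc j).bd x
  set Φ : Vec k → ℕ → Ω → ℝ := fun t r x =>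
    (((((((r + 1) ^ 4) ^ (4 * D + 12)) ^ 3 : ℕ)) : ℝ))⁻¹ *
      ∑ n ∈ range ((((r + 1) ^ 4) ^ (4 * D + 12)) ^ 3), prodSeq φ u c q (fun _ => t) n x with hΦ
  have hPm : ∀ (t : Vec k) n, Measurable (fun x => prodSeq φ u c q (fun _ => t) n x) := fun t n =>
    Pool.AEV.LipGAux.measurable_prodSeq hφ hu hcm q (fun _ => t) n
  have hΦm : ∀ t r, Measurable (Φ t r) := by
    intro t r
    refine Measurable.const_mul ?_ _
    exact Finset.measurable_fun_sum _ fun n _ => hPm t n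
  have hP1 : ∀ (t : Vec k) n x, |prodSeq φ u c q (fun _ => t) n x| ≤ 1 := fun t n x =>
    Pool.AEV.LipGAux.abs_prodSeq_le hu1 hc1 q (fun _ => t) n x
  have hΦ1 : ∀ t r x, |Φ t r x| ≤ 1 := fun t r x => avg_abs_le _ _ fun n => hP1 t n x
  set G : ℕ → Vec k → ℝ := fun r t => ∫ x, (Φ t r x) ^ 2 ∂μ with hG
  have hdim := Pool.AET.dim_le k ((48 * D + 144) * D) G
    (fun r t => integral_nonneg fun x => sq_nonneg _) (2 * (d + 1) * L * A') ?_ ?_
  · refine (dimH_mono ?_).trans hdim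
    intro t ht hev
    apply ht
    have h1 := ae_zero (μ := μ) (Φ t) (hΦm t) (hΦ1 t) hev
    filter_upwards [h1] with x hx
    refine fill (48 * D + 144) _ (fun n => hP1 t n x) ?_ (by omega)
    have e1 : ∀ r : ℕ, (((r + 1) ^ 4) ^ (4 * D + 12)) ^ 3 = (r + 1) ^ (48 * D + 144) :=
      fun r => by
        rw [← pow_mul, ← pow_mul]
        congr 1
        ring
    have e2 : (fun r : ℕ => ((((r + 1) ^ (48 * D + 144) : ℕ) : ℝ))⁻¹ *
        ∑ n ∈ range ((r + 1) ^ (48 * D + 144)), prodSeq φ u c q (fun _ => t) n x) =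
        fun r => Φ t r x := by
      funext r
      simp only [hΦ]
      rw [e1]
    rw [e2]
    exact hx
  · intro r t t'
    have h1 := Pool.AEV.lip_second hφ hu hu1 hcm hc1 hL hqD ((((r + 1) ^ 4) ^ (4 * D + 12)) ^ 3)
      (Nat.one_le_pow _ _ (Nat.pow_pos (Nat.pow_pos (Nat.succ_pos r)))) (fun _ => t) (fun _ => t')
    refine h1.trans (le_of_eq ?_)
    have e3 : ∀ b : ℝ, (((b ^ 4) ^ (4 * D + 12)) ^ 3) ^ D = b ^ ((48 * D + 144) * D) := by
      intro b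
      rw [← pow_mul, ← pow_mul, ← pow_mul]
      congr 1
      ring
    have e4 : ‖(fun _ => t : Fin (d + 1) → Vec k) - (fun _ => t')‖ = ‖t - t'‖ := by
      have : (fun _ => t : Fin (d + 1) → Vec k) - (fun _ => t') = fun _ => t - t' := rfl
      rw [this, pi_norm_const]
    rw [e4]
    push_cast
    rw [e3]
  · intro κ
    obtain ⟨B, _, hB⟩ := box_le (hφ j₀) (hcm j₀) (hc1 j₀) hS (fun j => (κ j : ℝ)) (q j₀) heD ha
      hqi hq (exc_u φ u c q j₀) (exc_u_meas hφ hu hcm q j₀) (exc_u_bd hu1 hc1 q j₀)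
      (exc_u_lip hφ hu1 hc1 hL0 hL i₀ j₀ hqi')
    refine ⟨B, fun r => ?_⟩
    have h1 := hB ((r + 1) ^ 4) ((((r + 1) ^ 4) ^ (4 * D + 12)) ^ 3)
      (Nat.one_le_pow _ _ (Nat.succ_pos r)) rfl
    refine le_trans (le_of_eq ?_) (h1.trans (le_of_eq ?_))
    · simp only [hG, hΦ, exc_split φ u c q j₀]
      rfl
    · push_cast
      ring

/-- One sided averages along polynomials. -/
private theorem exc_side [IsProbabilityMeasure μ] {φ : Fin (d + 1) → Vec k → Ω → Ω}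
    (hφ : ∀ j, IsFlow μ (φ j)) {w : ℕ → ℤ → Ω → ℝ} (hw : ∀ a n, Measurable (w a n))
    (hw1 : ∀ a n x, |w a n x| ≤ 1)
    {c : Fin (d + 1) → Ω → ℝ} (hc : ∀ j, Reg (φ j) (c j))
    (i₀ : Fin (k + 1)) (j₀ : Fin (d + 1)) (hj₀ : Good μ (φ j₀) i₀ (c j₀)) {D : ℕ}
    (P : Fin (d + 1) → Fin (k + 1) → Polynomial ℤ)
    (hPD : ∀ j i, (P j i).natDegree ≤ D) (hP₀ : 1 ≤ (P j₀ i₀).natDegree)
    (hP : ∀ j, j ≠ j₀ → (P j i₀).natDegree < (P j₀ i₀).natDegree) :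
    ∃ n₀ : ℕ, ∀ n₁ : ℕ, n₀ ≤ n₁ →
      dimH {t : Vec k | ¬ ∀ᵐ x ∂μ, Tendsto (fun N : ℕ => (N : ℝ)⁻¹ *
        ∑ n ∈ range N, (w n₁ n x *
          ∏ j, c j (φ j (t * fun i => (((P j i).eval ((n₁ : ℤ) + n) : ℤ) : ℝ)) x)))
          atTop (𝓝 0)}
      ≤ ENNReal.ofReal (((k : ℝ) + 1) - 1 / (2 * (((48 * D + 144) * D : ℕ) : ℝ) + 4)) := by
  classical
  -- growth of the nonconstant rows
  have hgrow : ∀ i, ∃ n₀ : ℕ, ∀ n₁ : ℕ, n₀ ≤ n₁ → 1 ≤ (P j₀ i).natDegree → ∃ c C : ℝ, 0 < c ∧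
      GrowInc (fun n => (((P j₀ i).eval ((n₁ : ℤ) + n) : ℤ) : ℝ)) c C
        ((P j₀ i).natDegree - 1) := by
    intro i
    by_cases hi : 1 ≤ (P j₀ i).natDegree
    · obtain ⟨n₀, hn₀⟩ := grow_shift (P j₀ i) hi
      exact ⟨n₀, fun n₁ hn₁ _ => hn₀ n₁ hn₁⟩
    · exact ⟨0, fun n₁ _ h => absurd h hi⟩
  choose n₀ hn₀ using hgrow
  refine ⟨Finset.univ.sup n₀, fun n₁ hn₁ => ?_⟩
  have hex : ∀ i, ∃ c C : ℝ, 0 < c ∧ (1 ≤ (P j₀ i).natDegree →
      GrowInc (fun n => (((P j₀ i).eval ((n₁ : ℤ) + n) : ℤ) : ℝ)) c C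
        ((P j₀ i).natDegree - 1)) := by
    intro i
    by_cases hi : 1 ≤ (P j₀ i).natDegree
    · obtain ⟨c, C, hc, h⟩ := hn₀ i n₁
        ((Finset.le_sup (f := n₀) (Finset.mem_univ i)).trans hn₁) hi
      exact ⟨c, C, hc, fun _ => h⟩
    · exact ⟨1, 1, one_pos, fun h => absurd h hi⟩
  choose a A ha hq using hex
  choose A' hA'0 hA' using fun j i => poly_bd (P j i) (hPD j i) n₁
  have hbd2 : ∀ j, ∃ A'' : ℝ, 0 ≤ A'' ∧ (j ≠ j₀ → ∀ n : ℕ,
      |(((P j i₀).eval ((n₁ : ℤ) + n) : ℤ) : ℝ)| ≤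
        A'' * ((n : ℝ) + 1) ^ ((P j₀ i₀).natDegree - 1)) := by
    intro j
    by_cases hj : j = j₀
    · exact ⟨0, le_rfl, fun h => absurd hj h⟩
    · obtain ⟨A'', h0, h1⟩ := poly_bd (P j i₀) (D := (P j₀ i₀).natDegree - 1)
        (by have := hP j hj; omega) n₁
      exact ⟨A'', h0, fun _ => h1⟩
  choose A'' hA''0 hA'' using hbd2
  obtain ⟨a₀, ha₀, ha₀'⟩ : ∃ a₀ : ℝ, 0 < a₀ ∧ ∀ i, a₀ ≤ a i := by
    refine ⟨Finset.univ.inf' Finset.univ_nonempty a, ?_, fun i =>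
      Finset.inf'_le _ (Finset.mem_univ i)⟩
    rw [Finset.lt_inf'_iff]
    exact fun i _ => ha i
  obtain ⟨A₀, hA₀⟩ : ∃ A₀ : ℝ, ∀ i, A i ≤ A₀ :=
    ⟨Finset.univ.sup' Finset.univ_nonempty A, fun i => Finset.le_sup' _ (Finset.mem_univ i)⟩
  have hq' : ∀ i, 1 ≤ (P j₀ i).natDegree →
      GrowInc (fun n => (((P j₀ i).eval ((n₁ : ℤ) + n) : ℤ) : ℝ)) a₀ A₀
        ((P j₀ i).natDegree - 1) := by
    intro i hi m n hmn
    have hmn' : (m : ℝ) < n := by exact_mod_cast hmn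
    have hpos : 0 ≤ ((n : ℝ) - m) * ((n : ℝ) + 1) ^ ((P j₀ i).natDegree - 1) :=
      mul_nonneg (by linarith) (by positivity)
    obtain ⟨h1, h2⟩ := hq i hi m n hmn
    constructor
    · refine le_trans ?_ h1
      rw [mul_assoc, mul_assoc]
      exact mul_le_mul_of_nonneg_right (ha₀' i) hpos
    · refine h2.trans ?_
      rw [mul_assoc, mul_assoc]
      exact mul_le_mul_of_nonneg_right (hA₀ i) hpos
  have hsum0 : 0 ≤ ∑ j, ∑ i, A' j i :=
    Finset.sum_nonneg fun j _ => Finset.sum_nonneg fun i _ => hA'0 j i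
  have hsum1 : 0 ≤ ∑ j, A'' j := Finset.sum_nonneg fun j _ => hA''0 j
  refine exc_seq hφ (u := fun n x => w n₁ n x)
    (fun n => hw _ _) (fun n x => hw1 _ _ _) hc i₀ j₀ hj₀
    (q := fun j n i => (((P j i).eval ((n₁ : ℤ) + n) : ℤ) : ℝ))
    (e := fun i => (P j₀ i).natDegree - 1) (D := D)
    (by have := hPD j₀ i₀; omega) ha₀ (hq' i₀ hP₀) ?_
    (A' := (∑ j, ∑ i, A' j i) + ∑ j, A'' j) ?_ ?_
  · intro l
    by_cases hl : 1 ≤ (P j₀ l).natDegree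
    · exact Or.inl (hq' l hl)
    · right
      intro n
      have h0 : (P j₀ l).natDegree = 0 := by omega
      rw [Polynomial.eq_C_of_natDegree_eq_zero h0, Polynomial.eval_C, Polynomial.eval_C]
  · intro j n
    rw [pi_norm_le_iff_of_nonneg (mul_nonneg (add_nonneg hsum0 hsum1) (by positivity))]
    intro i
    rw [Real.norm_eq_abs]
    refine (hA' j i n).trans (mul_le_mul_of_nonneg_right ?_ (by positivity))
    have h1 : A' j i ≤ ∑ j, ∑ i, A' j i := by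
      refine (Finset.single_le_sum (f := A' j) (fun i _ => hA'0 j i) (Finset.mem_univ i)).trans ?_
      exact Finset.single_le_sum (f := fun j => ∑ i, A' j i)
        (fun j _ => Finset.sum_nonneg fun i _ => hA'0 j i) (Finset.mem_univ j)
    linarith
  · intro j hj n
    refine (hA'' j hj n).trans (mul_le_mul_of_nonneg_right ?_ (by positivity))
    have h1 : A'' j ≤ ∑ j, A'' j :=
      Finset.single_le_sum (f := A'') (fun j _ => hA''0 j) (Finset.mem_univ j)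
    linarith

/-- Two sided averages along polynomials, with arbitrary bounded weights. -/
theorem exc_gen [IsProbabilityMeasure μ] {φ : Fin (d + 1) → Vec k → Ω → Ω}
    (hφ : ∀ j, IsFlow μ (φ j)) {w : ℤ → Ω → ℝ} (hw : ∀ n, Measurable (w n))
    (hw1 : ∀ n x, |w n x| ≤ 1)
    {c : Fin (d + 1) → Ω → ℝ} (hc : ∀ j, Reg (φ j) (c j))
    (i₀ : Fin (k + 1)) (j₀ : Fin (d + 1)) (hj₀ : Good μ (φ j₀) i₀ (c j₀)) {D : ℕ}
    (P : Fin (d + 1) → Fin (k + 1) → Polynomial ℤ)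
    (hPD : ∀ j i, (P j i).natDegree ≤ D) (hP₀ : 1 ≤ (P j₀ i₀).natDegree)
    (hP : ∀ j, j ≠ j₀ → (P j i₀).natDegree < (P j₀ i₀).natDegree) :
    dimH {t : Vec k | ¬ ∀ᵐ x ∂μ, Tendsto (fun N : ℕ => av (fun n =>
        w n x * ∏ j, c j (φ j (t * fun i => (((P j i).eval n : ℤ) : ℝ)) x)) N) atTop (𝓝 0)}
      ≤ ENNReal.ofReal (((k : ℝ) + 1) - 1 / (2 * (((48 * D + 144) * D : ℕ) : ℝ) + 4)) := by
  classical
  obtain ⟨a₀, ha₀⟩ := exc_side hφ (w := fun a n => w ((a : ℤ) + n)) (fun a n => hw _)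
    (fun a n x => hw1 _ _) hc i₀ j₀ hj₀ P hPD hP₀ hP
  obtain ⟨b₀, hb₀⟩ := exc_side hφ (w := fun a n => w (-((a : ℤ) + n))) (fun a n => hw _)
    (fun a n x => hw1 _ _) hc i₀ j₀ hj₀
    (fun j i => (P j i).comp (-Polynomial.X)) (fun j i => by
      rw [comp_neg_natDegree]
      exact hPD j i) (by
      rw [comp_neg_natDegree]
      exact hP₀) (fun j hj => by
      rw [comp_neg_natDegree, comp_neg_natDegree]
      exact hP j hj)
  have h1 := ha₀ (max a₀ b₀) (le_max_left _ _)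
  have h2 := hb₀ (max a₀ b₀) (le_max_right _ _)
  set n₁ := max a₀ b₀
  refine (dimH_mono ?_).trans ((dimH_union _ _).trans_le (max_le h1 h2))
  intro t ht
  by_contra hcon
  rw [Set.mem_union, not_or] at hcon
  obtain ⟨h3, h4⟩ := hcon
  simp only [Set.mem_ofPred_eq, not_not] at h3 h4
  apply ht
  filter_upwards [h3, h4] with x hx1 hx2
  refine two_sided n₁ (fun n => w n x *
    ∏ j, c j (φ j (t * fun i => (((P j i).eval n : ℤ) : ℝ)) x)) 1 ?_ hx1 ?_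
  · intro n
    rw [abs_mul, Finset.abs_prod]
    exact mul_le_one₀ (hw1 _ _) (Finset.prod_nonneg fun _ _ => abs_nonneg _)
      (Finset.prod_le_one (fun _ _ => abs_nonneg _) fun j _ => (hc j).bd _)
  · simp only [comp_neg_eval] at hx2
    exact hx2

end Pool.AEW
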