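import Pool.Agent.AEW.CplxG
import Pool.Agent.AET.Fin

/-!
# The final form
-/

set_option autoImplicit false

open MeasureTheory Set Filter Topology Finset
open Pool.AET (avC avC_eq avC_const countable_poly symm_mp_of orb_mp maxSq_orb)
open Pool.AEV (Vec IsFlow)

namespace Pool.AEW

variable {k : ℕ} {Ω : Type*} [MeasurableSpace Ω] {μ : Measure Ω} {d r : ℕ}

theorem main_final [MeasurableSpace.CountablyGenerated Ω] [IsProbabilityMeasure μ]
    (T : Fin r → Equiv.Perm Ω) (hT : ∀ i, MeasurePreserving (T i) μ μ)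
    (hT' : ∀ i, Measurable (T i).symm)
    (hnil : Group.IsNilpotent (Subgroup.closure (Set.range T)))
    {φ : Fin (d + 1) → Vec k → Ω → Ω} (hφ : ∀ j, IsFlow μ (φ j)) :
    ∃ E : ℕ → Set (Vec k), (∀ D, dimH (E D) < (k : ENNReal) + 1) ∧
      volume (⋃ D, E D) = 0 ∧
      ∀ (D : ℕ), ∀ t ∉ E D, ∀ Q : Fin (d + 1) → Fin (k + 1) → Polynomial ℤ,
        (∀ j i, Q j i = 0 ∨ 1 ≤ (Q j i).natDegree) → (∀ j i, (Q j i).natDegree ≤ D) →
        (∀ i j j', j ≠ j' → Q j i ≠ 0 → Q j' i ≠ 0 →
          (Q j i).natDegree ≠ (Q j' i).natDegree) →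
        ∀ (m : ℕ) (P : Fin m → Fin r → Polynomial ℤ) (F : Fin m → Ω → ℂ)
          (f : Fin (d + 1) → Ω → ℂ), (∀ l, MemLp (F l) ⊤ μ) → (∀ j, MemLp (f j) ⊤ μ) →
          ∀ᵐ x ∂μ,
            Tendsto (fun N : ℕ => avC (fun n => (∏ l, F l (Pool.Nil.orb T (P l) n x)) *
                ∏ j, f j (φ j (t * fun i => (((Q j i).eval n : ℤ) : ℝ)) x)) N
              - avC (fun n => ∏ l, F l (Pool.Nil.orb T (P l) n x)) N *
                ∏ j, (μ[f j | ⨅ v : Vec k, MeasurableSpace.invariants
                  (φ j (fun i => if Q j i = 0 then 0 else v i))]) x)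
              atTop (𝓝 0) ∧
            (m ≤ 1 → ∃ L : ℂ, Tendsto (fun N : ℕ =>
              avC (fun n => (∏ l, F l (Pool.Nil.orb T (P l) n x)) *
                ∏ j, f j (φ j (t * fun i => (((Q j i).eval n : ℤ) : ℝ)) x)) N)
              atTop (𝓝 L)) := by
  have hctb : Countable (Polynomial ℤ) := countable_poly
  have hTs : ∀ i, MeasurePreserving (T i).symm μ μ := fun i => symm_mp_of (T i) (hT i) (hT' i)
  choose E hE hmain using fun D : ℕ => main_cplxG (μ := μ) (Γ := Fin r → Polynomial ℤ)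
    (γ := fun P n x => Pool.Nil.orb T P n x) (fun P n => orb_mp T hT hT' P n)
    (fun P => maxSq_orb T hT hT' hnil P) hφ D
  refine ⟨E, hE, ?_, ?_⟩
  · rw [measure_iUnion_null_iff]
    intro D
    exact Pool.AET.volume_zero_of_dimH (hE D)
  · intro D t ht Q hQ hQD hrow m P F f hF hf
    have h1 := hmain D t ht Q hQ hQD hrow m P F f hF hf
    have h2 : ∀ᵐ x ∂μ, ∀ l, ∃ L : ℂ, Tendsto (fun N : ℕ =>
        avC (fun n => F l (Pool.Nil.orb T (P l) n x)) N) atTop (𝓝 L) := by
      rw [ae_all_iff]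
      intro l
      exact Pool.Nil.orb_conv T hT hTs hnil (P l) (F l) ((hF l).mono_exponent le_top)
    filter_upwards [h1, h2] with x hx1 hx2
    refine ⟨hx1.2, ?_⟩
    intro hm
    set A : ℂ := ∏ j, (μ[f j | ⨅ v : Vec k, MeasurableSpace.invariants
      (φ j (fun i => if Q j i = 0 then 0 else v i))]) x with hA
    have h3 : ∃ L : ℂ, Tendsto (fun N : ℕ =>
        avC (fun n => ∏ l, F l (Pool.Nil.orb T (P l) n x)) N) atTop (𝓝 L) := by
      rcases Nat.le_one_iff_eq_zero_or_eq_one.1 hm with h0 | h0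
      · subst h0
        refine ⟨1, ?_⟩
        have : (fun N : ℕ => avC (fun n => ∏ l : Fin 0, F l (Pool.Nil.orb T (P l) n x)) N)
            = fun _ => 1 := by
          funext N
          simp only [Finset.univ_eq_empty, Finset.prod_empty]
          exact avC_const N 1
        rw [this]
        exact tendsto_const_nhds
      · subst h0
        obtain ⟨L, hL⟩ := hx2 0
        refine ⟨L, ?_⟩
        have : (fun N : ℕ => avC (fun n => ∏ l : Fin 1, F l (Pool.Nil.orb T (P l) n x)) N)
            = fun N : ℕ => avC (fun n => F 0 (Pool.Nil.orb T (P 0) n x)) N := by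
          funext N
          congr 1
          funext n
          simp
        rw [this]
        exact hL
    obtain ⟨L, hL⟩ := h3
    refine ⟨0 + L * A, ?_⟩
    have h4 := hx1.2.add (hL.mul_const A)
    refine h4.congr fun N => ?_
    ring

end Pool.AEW
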