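import Pool.Agent.AEV.MainG

/-!
# The limit of the averages of one function
-/

set_option autoImplicit false

open MeasureTheory Set Filter Topology Finset
open Pool.AET (MaxSq av)
open Pool.AEV (Vec IsFlow)

namespace Pool.AEW

variable {k : ℕ} {Ω : Type*} [MeasurableSpace Ω] {μ : Measure Ω} {d : ℕ}

namespace FormulaAux

/-- The restriction of a vector to a set of coordinates. -/
def res (S : Finset (Fin (k + 1))) (v : Vec k) : Vec k := fun i => if i ∈ S then v i else 0

theorem res_measurable (S : Finset (Fin (k + 1))) : Measurable (res (k := k) S) := by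
  apply measurable_pi_lambda
  intro i
  unfold res
  by_cases h : i ∈ S
  · simp only [if_pos h]
    exact measurable_pi_apply i
  · simp only [if_neg h]
    exact measurable_const

theorem res_add (S : Finset (Fin (k + 1))) (s t : Vec k) : res S (s + t) = res S s + res S t := by
  funext i
  simp only [res, Pi.add_apply]
  split_ifs <;> simp

theorem res_zero (S : Finset (Fin (k + 1))) : res S (0 : Vec k) = 0 := by
  funext i
  simp [res]

theorem flow_res {φ : Vec k → Ω → Ω} (h : IsFlow μ φ) (S : Finset (Fin (k + 1))) :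
    IsFlow μ (fun v => φ (res S v)) where
  meas := h.meas.comp (((res_measurable S).comp measurable_fst).prodMk measurable_snd)
  add := fun s t x => by rw [res_add, h.add]
  zero := fun x => by rw [res_zero, h.zero]
  mp := fun t => h.mp _

theorem anti_const : AntilipschitzWith 1 (fun (t : Vec k) (_ : Fin (0 + 1)) => t) := by
  apply AntilipschitzWith.of_le_mul_dist
  intro x y
  rw [NNReal.coe_one, one_mul]
  exact dist_le_pi_dist (fun (_ : Fin (0 + 1)) => x) (fun _ => y) 0

end FormulaAux

open FormulaAux in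
/-- From `AEV.main_gen` with `d = 0` for the actions `v ↦ φ j (v restricted to S)`, `S` a set of
coordinates; the polynomials outside of `S` are replaced by `X`. -/
theorem single_lim [MeasurableSpace.CountablyGenerated Ω] [IsProbabilityMeasure μ]
    {φ : Fin (d + 1) → Vec k → Ω → Ω} (hφ : ∀ j, IsFlow μ (φ j)) (D : ℕ) :
    ∃ E : Set (Vec k), dimH E < (k : ENNReal) + 1 ∧
      ∀ t ∉ E, ∀ (j : Fin (d + 1)) (Q : Fin (k + 1) → Polynomial ℤ),
        (∀ i, Q i = 0 ∨ 1 ≤ (Q i).natDegree) → (∀ i, (Q i).natDegree ≤ D) →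
        ∀ f : Ω → ℝ, Measurable f → ∀ B : ℝ, (∀ x, |f x| ≤ B) →
          ∀ᵐ x ∂μ, Tendsto (fun N : ℕ =>
            av (fun n => f (φ j (t * fun i => (((Q i).eval n : ℤ) : ℝ)) x)) N)
            atTop (𝓝 ((μ[f | ⨅ v : Vec k, MeasurableSpace.invariants
              (φ j (fun i => if Q i = 0 then 0 else v i))]) x)) := by
  classical
  have hmain := fun (p : Fin (d + 1) × Finset (Fin (k + 1))) =>
    Pool.AEV.main_gen (μ := μ) (d := 0) (Γ := Empty) (γ := fun e => e.elim)
      (fun e => e.elim) (fun e => e.elim) (φ := fun _ v => φ p.1 (res p.2 v))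
      (fun _ => flow_res (hφ p.1) p.2) (max D 1)
  choose E hE hE2 using hmain
  refine ⟨⋃ p : Fin (d + 1) × Finset (Fin (k + 1)),
    (fun (t : Vec k) (_ : Fin (0 + 1)) => t) ⁻¹' E p, ?_, ?_⟩
  · rw [dimH_iUnion]
    have h1 : ∀ p : Fin (d + 1) × Finset (Fin (k + 1)),
        dimH ((fun (t : Vec k) (_ : Fin (0 + 1)) => t) ⁻¹' E p) ≤ ENNReal.ofReal
        ((((0 : ℕ) : ℝ) + 1) * ((k : ℝ) + 1) - 1 / (2 * ((96 * (max D 1) : ℕ) : ℝ) + 4)) :=
      fun p => (anti_const.dimH_preimage_le (E p)).trans (hE p)
    refine lt_of_le_of_lt (iSup_le h1) ?_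
    have h2 : ((k : ENNReal) + 1) = ENNReal.ofReal ((k : ℝ) + 1) := by
      rw [ENNReal.ofReal_add (by positivity) (by norm_num)]
      simp
    rw [h2]
    apply (ENNReal.ofReal_lt_ofReal_iff (by positivity)).2
    have h3 : (0 : ℝ) < 1 / (2 * ((96 * (max D 1) : ℕ) : ℝ) + 4) := by positivity
    simp only [Nat.cast_zero, zero_add, one_mul]
    linarith
  · intro t ht j Q hQ hQD f hf B hB
    set S : Finset (Fin (k + 1)) := Finset.univ.filter fun i => Q i ≠ 0 with hS
    have ht' : (fun (_ : Fin (0 + 1)) => t) ∉ E (j, S) := by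
      intro h
      exact ht (Set.mem_iUnion.2 ⟨(j, S), h⟩)
    have h1 := (hE2 (j, S) _ ht' (fun _ i => if Q i = 0 then Polynomial.X else Q i) (by
      intro _ i
      by_cases h : Q i = 0
      · simp only [if_pos h, Polynomial.natDegree_X]
        exact ⟨le_rfl, le_max_right _ _⟩
      · simp only [if_neg h]
        rcases hQ i with h' | h'
        · exact absurd h' h
        · exact ⟨h', (hQD i).trans (le_max_left _ _)⟩)).1 0 f hf B hB
    have h2 : ∀ n : ℤ, res S (t * fun i => (((if Q i = 0 then Polynomial.X else Q i).eval n : ℤ) : ℝ))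
        = t * fun i => (((Q i).eval n : ℤ) : ℝ) := by
      intro n
      funext i
      simp only [res, hS, Finset.mem_filter, Finset.mem_univ, true_and, Pi.mul_apply]
      by_cases h : Q i = 0
      · simp [h]
      · simp [h]
    have h3 : ∀ v : Vec k, res S v = fun i => if Q i = 0 then 0 else v i := by
      intro v
      funext i
      simp only [res, hS, Finset.mem_filter, Finset.mem_univ, true_and]
      by_cases h : Q i = 0
      · simp [h]
      · simp [h]
    simp only [h2, h3] at h1
    exact h1

end Pool.AEW
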