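import Pool.Agent.AEW.Red
import Pool.Agent.AEW.Formula

/-!
# Real bounded functions
-/

set_option autoImplicit false

open MeasureTheory Set Filter Topology Finset
open Pool.AET (MaxSq av)
open Pool.AEV (Vec IsFlow)

namespace Pool.AEW

variable {k : ℕ} {Ω : Type*} [MeasurableSpace Ω] {μ : Measure Ω} {d : ℕ}

theorem main_gen [MeasurableSpace.CountablyGenerated Ω] [IsProbabilityMeasure μ]
    {Γ : Type*} [Countable Γ] {γ : Γ → ℤ → Ω → Ω} (hγ : ∀ p n, Measurable (γ p n))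
    (hmax : ∀ p, MaxSq μ (γ p))
    {φ : Fin (d + 1) → Vec k → Ω → Ω} (hφ : ∀ j, IsFlow μ (φ j)) (D : ℕ) :
    ∃ E : Set (Vec k), dimH E < (k : ENNReal) + 1 ∧
      ∀ t ∉ E, ∀ Q : Fin (d + 1) → Fin (k + 1) → Polynomial ℤ,
        (∀ j i, Q j i = 0 ∨ 1 ≤ (Q j i).natDegree) → (∀ j i, (Q j i).natDegree ≤ D) →
        (∀ i j j', j ≠ j' → Q j i ≠ 0 → Q j' i ≠ 0 →
          (Q j i).natDegree ≠ (Q j' i).natDegree) →
        (∀ (j : Fin (d + 1)) (f : Ω → ℝ), Measurable f → ∀ B : ℝ, (∀ x, |f x| ≤ B) →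
          ∀ᵐ x ∂μ, Tendsto (fun N : ℕ =>
            av (fun n => f (φ j (t * fun i => (((Q j i).eval n : ℤ) : ℝ)) x)) N)
            atTop (𝓝 ((μ[f | ⨅ v : Vec k, MeasurableSpace.invariants
              (φ j (fun i => if Q j i = 0 then 0 else v i))]) x))) ∧
        ∀ (m : ℕ) (p : Fin m → Γ) (F : Fin m → Ω → ℝ) (f : Fin (d + 1) → Ω → ℝ),
          (∀ l, Measurable (F l)) → (∀ j, Measurable (f j)) →
          ∀ B : ℝ, (∀ l x, |F l x| ≤ B) → (∀ j x, |f j x| ≤ B) →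
          ∀ᵐ x ∂μ, Tendsto (fun N : ℕ =>
            av (fun n => (∏ l, F l (γ (p l) n x)) *
              ∏ j, f j (φ j (t * fun i => (((Q j i).eval n : ℤ) : ℝ)) x)) N
            - av (fun n => ∏ l, F l (γ (p l) n x)) N *
              ∏ j, av (fun n => f j (φ j (t * fun i => (((Q j i).eval n : ℤ) : ℝ)) x)) N)
            atTop (𝓝 0) := by
  obtain ⟨E₁, hE₁, h₁⟩ := dc hγ hmax hφ D
  obtain ⟨E₂, hE₂, h₂⟩ := single_lim hφ D
  refine ⟨E₁ ∪ E₂, ?_, ?_⟩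
  · rw [dimH_union]
    refine max_lt (lt_of_le_of_lt hE₁ ?_) hE₂
    have h1 : (k : ENNReal) + 1 = ENNReal.ofReal ((k : ℝ) + 1) := by
      rw [ENNReal.ofReal_add (by positivity) (by norm_num), ENNReal.ofReal_natCast,
        ENNReal.ofReal_one]
    rw [h1]
    refine (ENNReal.ofReal_lt_ofReal_iff (by positivity)).2 ?_
    have : (0 : ℝ) < 1 / (2 * (((48 * D + 144) * D : ℕ) : ℝ) + 4) := by positivity
    linarith
  · intro t ht Q hQ hQD hrow
    rw [Set.mem_union, not_or] at ht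
    refine ⟨fun j f hf B hB => h₂ t ht.2 j (Q j) (hQ j) (hQD j) f hf B hB, ?_⟩
    intro m p F f hF hf B hFB hfB
    exact red hφ D t (h₁ t ht.1) Q hQ hQD hrow m p F f hF hf B hFB hfB

end Pool.AEW
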