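import Pool.Agent.AEW.Dc

/-!
# Reduction to products of averages of single functions
-/

set_option autoImplicit false

open MeasureTheory Set Filter Topology Finset
open Pool.AET (MaxSq av)
open Pool.AEV (Vec IsFlow)

namespace Pool.AEW

variable {k : ℕ} {Ω : Type*} [MeasurableSpace Ω] {μ : Measure Ω} {d : ℕ}

namespace RedAux

omit [MeasurableSpace Ω] in
theorem clip_meas {m : MeasurableSpace Ω} (K : ℝ) {g : Ω → ℝ} (hg : Measurable[m] g) :
    Measurable[m] (fun x => Pool.AET.clip K (g x)) :=
  measurable_const.max (hg.min measurable_const)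

/-- A bounded version of the conditional expectation. -/
theorem exists_clip {X : Type*} {m mX : MeasurableSpace X} {ν : Measure X}
    [IsProbabilityMeasure ν] (hm : m ≤ mX) {f : X → ℝ} (hf : Measurable f) {B : ℝ}
    (hB0 : 0 ≤ B) (hB : ∀ x, |f x| ≤ B) :
    ∃ g : X → ℝ, Measurable[m] g ∧ (∀ x, |g x| ≤ B) ∧
      ν[(fun x => f x - g x) | m] =ᵐ[ν] 0 := by
  set g : X → ℝ := fun x => Pool.AET.clip B ((ν[f | m]) x) with hg
  have hgI : Measurable[m] g :=
    clip_meas B (stronglyMeasurable_condExp (m := m) (f := f) (μ := ν)).measurable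
  have hgm : Measurable g := hgI.mono hm le_rfl
  have hgB : ∀ x, |g x| ≤ B := fun x => Pool.AET.clip_abs_le hB0 _
  have hge : g =ᵐ[ν] ν[f | m] := by
    have h1 := ae_bdd_abs_condExp_of_ae_bdd_abs (R := B) (m := m) (μ := ν) (f := f)
      (Eventually.of_forall fun x => hB x)
    filter_upwards [h1] with x hx
    exact Pool.AET.clip_eq hx
  have hfi : Integrable f ν := Pool.AET.integrable_bd hf B hB
  have hgi : Integrable g ν := Pool.AET.integrable_bd hgm B hgB
  refine ⟨g, hgI, hgB, ?_⟩
  have h1 : ν[(fun x => f x - g x) | m] =ᵐ[ν] ν[f | m] - ν[g | m] :=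
    condExp_sub hfi hgi m
  have h2 : ν[g | m] = g := condExp_of_stronglyMeasurable hm hgI.stronglyMeasurable hgi
  filter_upwards [h1, hge] with x hx1 hx2
  rw [hx1, Pi.sub_apply, h2, hx2, sub_self, Pi.zero_apply]

/-- A bounded, strictly invariant version of the conditional expectation on the sets invariant in
one direction. -/
theorem exists_inv [IsProbabilityMeasure μ] {φ : Vec k → Ω → Ω} (i : Fin (k + 1))
    {f : Ω → ℝ} (hf : Measurable f) {B : ℝ} (hB0 : 0 ≤ B) (hB : ∀ x, |f x| ≤ B) :
    ∃ g : Ω → ℝ, Measurable g ∧ (∀ x, |g x| ≤ B) ∧ (∀ (s : ℝ) x, g (φ (Pi.single i s) x) = g x) ∧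
      μ[(fun x => f x - g x) | ⨅ s : ℝ, MeasurableSpace.invariants (φ (Pi.single i s))]
        =ᵐ[μ] 0 := by
  have hIle : (⨅ s : ℝ, MeasurableSpace.invariants (φ (Pi.single i s)))
      ≤ ‹MeasurableSpace Ω› :=
    (iInf_le _ (0 : ℝ)).trans (MeasurableSpace.invariants_le _)
  obtain ⟨g, hgI, hgB, hgc⟩ := exists_clip (ν := μ) hIle hf hB0 hB
  refine ⟨g, hgI.mono hIle le_rfl, hgB, ?_, hgc⟩
  intro s x
  have h1 : Measurable[MeasurableSpace.invariants (φ (Pi.single i s))] g :=
    fun u hu => (iInf_le (fun s : ℝ => MeasurableSpace.invariants (φ (Pi.single i s))) s) _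
      (hgI hu)
  exact congrFun (MeasurableSpace.comp_eq_of_measurable_invariants h1) x

/-- The algebra of the induction step. -/
theorem split (w a b c : ℤ → ℝ) (C : ℝ) (N : ℕ) :
    av (fun n => w n * ((a n + b n) * c n)) N
      - av (fun n => w n) N * ((av (fun n => a n + b n) N) * C)
      = (av (fun n => w n * (a n * c n)) N - av (fun n => w n) N * (av (fun n => a n) N * C))
        + av (fun n => w n * (b n * c n)) N
        - av (fun n => w n) N * (av (fun n => b n) N * C) := by
  have e1 : (fun n => w n * ((a n + b n) * c n))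
      = fun n => w n * (a n * c n) + w n * (b n * c n) := by
    funext n
    ring
  rw [e1, Pool.AET.av_add (fun n => w n * (a n * c n)) (fun n => w n * (b n * c n)),
    Pool.AET.av_add (fun n => a n) (fun n => b n)]
  ring

end RedAux

/-- Induction on the number of nonzero entries: choose a nonzero row `i₀`, in it the entry
`(j₀, i₀)` of the largest degree, replace `f j₀` by (a bounded, strictly invariant version of) its
conditional expectation on the sets invariant under `φ j₀ (s e_{i₀})`, and the entry by zero. -/
theorem red [IsProbabilityMeasure μ] {Γ : Type*} {γ : Γ → ℤ → Ω → Ω}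
    {φ : Fin (d + 1) → Vec k → Ω → Ω} (hφ : ∀ j, IsFlow μ (φ j)) (D : ℕ) (t : Vec k)
    (hdc : ∀ Q : Fin (d + 1) → Fin (k + 1) → Polynomial ℤ,
        (∀ j i, (Q j i).natDegree ≤ D) → ∀ (i₀ : Fin (k + 1)) (j₀ : Fin (d + 1)),
        1 ≤ (Q j₀ i₀).natDegree →
        (∀ j, j ≠ j₀ → (Q j i₀).natDegree < (Q j₀ i₀).natDegree) →
        ∀ (m : ℕ) (p : Fin m → Γ) (F : Fin m → Ω → ℝ) (f : Fin (d + 1) → Ω → ℝ),
          (∀ l, Measurable (F l)) → (∀ j, Measurable (f j)) →
          ∀ B : ℝ, (∀ l x, |F l x| ≤ B) → (∀ j x, |f j x| ≤ B) →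
          μ[f j₀ | ⨅ s : ℝ, MeasurableSpace.invariants (φ j₀ (Pi.single i₀ s))] =ᵐ[μ] 0 →
          ∀ᵐ x ∂μ, Tendsto (fun N : ℕ =>
            av (fun n => (∏ l, F l (γ (p l) n x)) *
              ∏ j, f j (φ j (t * fun i => (((Q j i).eval n : ℤ) : ℝ)) x)) N) atTop (𝓝 0))
    (Q : Fin (d + 1) → Fin (k + 1) → Polynomial ℤ)
    (hQ : ∀ j i, Q j i = 0 ∨ 1 ≤ (Q j i).natDegree) (hQD : ∀ j i, (Q j i).natDegree ≤ D)
    (hrow : ∀ i j j', j ≠ j' → Q j i ≠ 0 → Q j' i ≠ 0 →
      (Q j i).natDegree ≠ (Q j' i).natDegree)
    (m : ℕ) (p : Fin m → Γ) (F : Fin m → Ω → ℝ) (f : Fin (d + 1) → Ω → ℝ)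
    (hF : ∀ l, Measurable (F l)) (hf : ∀ j, Measurable (f j))
    (B : ℝ) (hFB : ∀ l x, |F l x| ≤ B) (hfB : ∀ j x, |f j x| ≤ B) :
    ∀ᵐ x ∂μ, Tendsto (fun N : ℕ =>
      av (fun n => (∏ l, F l (γ (p l) n x)) *
        ∏ j, f j (φ j (t * fun i => (((Q j i).eval n : ℤ) : ℝ)) x)) N
      - av (fun n => ∏ l, F l (γ (p l) n x)) N *
        ∏ j, av (fun n => f j (φ j (t * fun i => (((Q j i).eval n : ℤ) : ℝ)) x)) N)
      atTop (𝓝 0) := by
  classical
  have main : ∀ n : ℕ, ∀ Q : Fin (d + 1) → Fin (k + 1) → Polynomial ℤ,
      (Finset.univ.filter fun q : Fin (d + 1) × Fin (k + 1) => Q q.1 q.2 ≠ 0).card = n →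
      (∀ j i, Q j i = 0 ∨ 1 ≤ (Q j i).natDegree) → (∀ j i, (Q j i).natDegree ≤ D) →
      (∀ i j j', j ≠ j' → Q j i ≠ 0 → Q j' i ≠ 0 →
        (Q j i).natDegree ≠ (Q j' i).natDegree) →
      ∀ f : Fin (d + 1) → Ω → ℝ, (∀ j, Measurable (f j)) → (∀ j x, |f j x| ≤ B) →
      ∀ᵐ x ∂μ, Tendsto (fun N : ℕ =>
        av (fun n => (∏ l, F l (γ (p l) n x)) *
          ∏ j, f j (φ j (t * fun i => (((Q j i).eval n : ℤ) : ℝ)) x)) N
        - av (fun n => ∏ l, F l (γ (p l) n x)) N *
          ∏ j, av (fun n => f j (φ j (t * fun i => (((Q j i).eval n : ℤ) : ℝ)) x)) N)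
        atTop (𝓝 0) := by
    intro n
    induction n with
    | zero =>
      intro Q hcard _ _ _ f _ _
      have hz : ∀ j i, Q j i = 0 := by
        intro j i
        by_contra h
        have h1 := Finset.card_eq_zero.1 hcard
        have h2 : (j, i) ∈ Finset.univ.filter
            (fun q : Fin (d + 1) × Fin (k + 1) => Q q.1 q.2 ≠ 0) := by
          simp [h]
        rw [h1] at h2
        simp at h2
      refine Eventually.of_forall fun x => ?_
      have h1 : ∀ (j : Fin (d + 1)) (n : ℤ),
          φ j (t * fun i => (((Q j i).eval n : ℤ) : ℝ)) x = x := by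
        intro j n
        have h2 : (t * fun i => (((Q j i).eval n : ℤ) : ℝ)) = 0 := by
          funext i
          simp [hz j i]
        rw [h2, (hφ j).zero]
      refine tendsto_const_nhds.congr fun N => ?_
      simp_rw [h1]
      simp_rw [Pool.AET.av_const]
      have h3 : (fun n : ℤ => (∏ l, F l (γ (p l) n x)) * ∏ j, f j x)
          = fun n : ℤ => (∏ j, f j x) * ∏ l, F l (γ (p l) n x) := by
        funext n
        ring
      rw [h3, Pool.AET.av_const_mul (∏ j, f j x) (fun n : ℤ => ∏ l, F l (γ (p l) n x))]
      ring
    | succ n ih =>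
      intro Q hcard hQ hQD hrow f hf hfB
      obtain ⟨x₀⟩ : Nonempty Ω := nonempty_of_isProbabilityMeasure μ
      have hB0 : 0 ≤ B := (abs_nonneg _).trans (hfB 0 x₀)
      obtain ⟨⟨j₁, i₀⟩, hji⟩ : (Finset.univ.filter
          fun q : Fin (d + 1) × Fin (k + 1) => Q q.1 q.2 ≠ 0).Nonempty := by
        rw [← Finset.card_pos, hcard]
        exact Nat.succ_pos n
      rw [Finset.mem_filter] at hji
      have hji : Q j₁ i₀ ≠ 0 := hji.2
      obtain ⟨j₀, _, hmaxj⟩ := Finset.exists_max_image Finset.univ
        (fun j => (Q j i₀).natDegree) ⟨j₁, Finset.mem_univ _⟩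
      have h1 : 1 ≤ (Q j₀ i₀).natDegree :=
        ((hQ j₁ i₀).resolve_left hji).trans (hmaxj j₁ (Finset.mem_univ _))
      have hne : Q j₀ i₀ ≠ 0 := by
        intro h
        rw [h, Polynomial.natDegree_zero] at h1
        omega
      have h2 : ∀ j, j ≠ j₀ → (Q j i₀).natDegree < (Q j₀ i₀).natDegree := by
        intro j hj
        by_cases h : Q j i₀ = 0
        · rw [h, Polynomial.natDegree_zero]
          omega
        · exact lt_of_le_of_ne (hmaxj j (Finset.mem_univ _)) (hrow i₀ j j₀ hj h hne)
      obtain ⟨g, hgm, hgB, hginv, hgc⟩ := RedAux.exists_inv (μ := μ) (φ := φ j₀) i₀ (hf j₀) hB0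
        (hfB j₀)
      set h : Ω → ℝ := fun x => f j₀ x - g x with hh
      have hhm : Measurable h := (hf j₀).sub hgm
      have hhB : ∀ x, |h x| ≤ B + B := fun x =>
        (abs_sub _ _).trans (add_le_add (hfB j₀ x) (hgB x))
      -- the part without invariant part
      have A1 := hdc Q hQD i₀ j₀ h1 h2 m p F (Function.update f j₀ h) hF
        (fun j => by
          by_cases hj : j = j₀
          · subst hj
            rw [Function.update_self]
            exact hhm
          · rw [Function.update_of_ne hj]
            exact hf j) (B + B)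
        (fun l x => (hFB l x).trans (by linarith))
        (fun j x => by
          by_cases hj : j = j₀
          · subst hj
            rw [Function.update_self]
            exact hhB x
          · rw [Function.update_of_ne hj]
            exact (hfB j x).trans (by linarith))
        (by
          rw [Function.update_self]
          exact hgc)
      have A2 := hdc Q hQD i₀ j₀ h1 h2 0 (fun l => l.elim0) (fun l => l.elim0)
        (Function.update (fun _ _ => (1 : ℝ)) j₀ h) (fun l => l.elim0)
        (fun j => by
          by_cases hj : j = j₀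
          · subst hj
            rw [Function.update_self]
            exact hhm
          · rw [Function.update_of_ne hj]
            exact measurable_const) (B + B + 1)
        (fun l => l.elim0)
        (fun j x => by
          by_cases hj : j = j₀
          · subst hj
            rw [Function.update_self]
            exact (hhB x).trans (by linarith)
          · rw [Function.update_of_ne hj, abs_one]
            linarith)
        (by
          rw [Function.update_self]
          exact hgc)
      -- the invariant part
      set Q' : Fin (d + 1) → Fin (k + 1) → Polynomial ℤ :=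
        fun j i => if j = j₀ ∧ i = i₀ then 0 else Q j i with hQ'
      have hQ'1 : ∀ j i, Q' j i ≠ 0 → Q' j i = Q j i ∧ Q j i ≠ 0 := by
        intro j i hji
        rw [hQ'] at hji ⊢
        simp only at hji ⊢
        by_cases hc : j = j₀ ∧ i = i₀
        · rw [if_pos hc] at hji
          exact absurd rfl hji
        · rw [if_neg hc] at hji ⊢
          exact ⟨rfl, hji⟩
      have A3 := ih Q' (by
          have he : (Finset.univ.filter fun q : Fin (d + 1) × Fin (k + 1) => Q' q.1 q.2 ≠ 0)
              = (Finset.univ.filter fun q : Fin (d + 1) × Fin (k + 1) =>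
                Q q.1 q.2 ≠ 0).erase (j₀, i₀) := by
            ext ⟨j, i⟩
            rw [Finset.mem_erase, Finset.mem_filter, Finset.mem_filter, hQ']
            by_cases hc : j = j₀ ∧ i = i₀
            · simp only [if_pos hc]
              obtain ⟨rfl, rfl⟩ := hc
              simp
            · simp only [if_neg hc]
              have : (j, i) ≠ (j₀, i₀) := by
                intro he
                rw [Prod.mk.injEq] at he
                exact hc he
              simp [this]
          rw [he, Finset.card_erase_of_mem, hcard]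
          · simp
          · simp [hne])
        (by
          intro j i
          by_cases hz : Q' j i = 0
          · exact Or.inl hz
          · right
            rw [(hQ'1 j i hz).1]
            exact (hQ j i).resolve_left (hQ'1 j i hz).2)
        (by
          intro j i
          by_cases hz : Q' j i = 0
          · rw [hz, Polynomial.natDegree_zero]
            exact Nat.zero_le _
          · rw [(hQ'1 j i hz).1]
            exact hQD j i)
        (by
          intro i j j' hjj hz hz'
          rw [(hQ'1 j i hz).1, (hQ'1 j' i hz').1]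
          exact hrow i j j' hjj (hQ'1 j i hz).2 (hQ'1 j' i hz').2)
        (Function.update f j₀ g)
        (fun j => by
          by_cases hj : j = j₀
          · subst hj
            rw [Function.update_self]
            exact hgm
          · rw [Function.update_of_ne hj]
            exact hf j)
        (fun j x => by
          by_cases hj : j = j₀
          · subst hj
            rw [Function.update_self]
            exact hgB x
          · rw [Function.update_of_ne hj]
            exact hfB j x)
      filter_upwards [A1, A2, A3] with x hx1 hx2 hx3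
      set w : ℤ → ℝ := fun n => ∏ l, F l (γ (p l) n x) with hw
      set c : ℤ → ℝ := fun n => ∏ j ∈ Finset.univ.erase j₀,
        f j (φ j (t * fun i => (((Q j i).eval n : ℤ) : ℝ)) x) with hc
      set a : ℤ → ℝ := fun n => g (φ j₀ (t * fun i => (((Q j₀ i).eval n : ℤ) : ℝ)) x) with ha
      set b : ℤ → ℝ := fun n => h (φ j₀ (t * fun i => (((Q j₀ i).eval n : ℤ) : ℝ)) x) with hb
      set C : ℕ → ℝ := fun N => ∏ j ∈ Finset.univ.erase j₀,
        av (fun n => f j (φ j (t * fun i => (((Q j i).eval n : ℤ) : ℝ)) x)) N with hC
      have hab : ∀ n : ℤ, f j₀ (φ j₀ (t * fun i => (((Q j₀ i).eval n : ℤ) : ℝ)) x)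
          = a n + b n := by
        intro n
        rw [ha, hb, hh]
        ring
      have hg' : ∀ n : ℤ, g (φ j₀ (t * fun i => (((Q' j₀ i).eval n : ℤ) : ℝ)) x) = a n := by
        intro n
        have e1 : (t * fun i => (((Q j₀ i).eval n : ℤ) : ℝ))
            = Pi.single i₀ (t i₀ * (((Q j₀ i₀).eval n : ℤ) : ℝ))
              + (t * fun i => (((Q' j₀ i).eval n : ℤ) : ℝ)) := by
          funext i
          rw [Pi.add_apply, Pi.mul_apply, Pi.mul_apply, hQ']
          by_cases hi : i = i₀
          · subst hi
            simp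
          · rw [Pi.single_eq_of_ne hi]
            simp [hi]
        rw [ha]
        simp only
        rw [e1, (hφ j₀).add, hginv]
      have hother : ∀ j ∈ Finset.univ.erase j₀, ∀ n : ℤ,
          (Function.update f j₀ g) j (φ j (t * fun i => (((Q' j i).eval n : ℤ) : ℝ)) x)
          = f j (φ j (t * fun i => (((Q j i).eval n : ℤ) : ℝ)) x) := by
        intro j hj n
        have hj' := Finset.ne_of_mem_erase hj
        rw [Function.update_of_ne hj']
        have : ∀ i, Q' j i = Q j i := by
          intro i
          rw [hQ']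
          simp [hj']
        simp_rw [this]
      have P0 : ∀ n : ℤ, ∏ j, f j (φ j (t * fun i => (((Q j i).eval n : ℤ) : ℝ)) x)
          = (a n + b n) * c n := by
        intro n
        rw [← Finset.mul_prod_erase Finset.univ _ (Finset.mem_univ j₀), hab]
      have P1 : ∀ n : ℤ, ∏ j, (Function.update f j₀ h) j
          (φ j (t * fun i => (((Q j i).eval n : ℤ) : ℝ)) x) = b n * c n := by
        intro n
        rw [← Finset.mul_prod_erase Finset.univ _ (Finset.mem_univ j₀), Function.update_self]
        congr 1
        refine Finset.prod_congr rfl fun j hj => ?_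
        rw [Function.update_of_ne (Finset.ne_of_mem_erase hj)]
      have P2 : ∀ n : ℤ, ∏ j, (Function.update (fun _ _ => (1 : ℝ)) j₀ h
          : Fin (d + 1) → Ω → ℝ) j
          (φ j (t * fun i => (((Q j i).eval n : ℤ) : ℝ)) x) = b n := by
        intro n
        rw [← Finset.mul_prod_erase Finset.univ _ (Finset.mem_univ j₀), Function.update_self]
        rw [Finset.prod_eq_one, mul_one]
        intro j hj
        rw [Function.update_of_ne (Finset.ne_of_mem_erase hj)]
      have P3 : ∀ n : ℤ, ∏ j, (Function.update f j₀ g) j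
          (φ j (t * fun i => (((Q' j i).eval n : ℤ) : ℝ)) x) = a n * c n := by
        intro n
        rw [← Finset.mul_prod_erase Finset.univ _ (Finset.mem_univ j₀), Function.update_self,
          hg']
        congr 1
        exact Finset.prod_congr rfl fun j hj => hother j hj n
      have R0 : ∀ N : ℕ, ∏ j, av (fun n => f j
          (φ j (t * fun i => (((Q j i).eval n : ℤ) : ℝ)) x)) N
          = av (fun n => a n + b n) N * C N := by
        intro N
        rw [← Finset.mul_prod_erase Finset.univ _ (Finset.mem_univ j₀)]
        congr 1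
        simp_rw [hab]
      have R3 : ∀ N : ℕ, ∏ j, av (fun n => (Function.update f j₀ g) j
          (φ j (t * fun i => (((Q' j i).eval n : ℤ) : ℝ)) x)) N
          = av (fun n => a n) N * C N := by
        intro N
        rw [← Finset.mul_prod_erase Finset.univ _ (Finset.mem_univ j₀), Function.update_self]
        simp_rw [hg']
        congr 1
        refine Finset.prod_congr rfl fun j hj => ?_
        congr 1
        funext n
        exact hother j hj n
      simp_rw [P1] at hx1
      simp_rw [P2, Finset.univ_eq_empty, Finset.prod_empty, one_mul] at hx2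
      simp_rw [P3, R3] at hx3
      simp_rw [P0, R0]
      have hK : ∀ N : ℕ, |av (fun n => w n) N * (av (fun n => b n) N * C N)|
          ≤ (B ^ m * B ^ (Finset.univ.erase j₀).card) * |av (fun n => b n) N| := by
        intro N
        have b1 : |av (fun n => w n) N| ≤ B ^ m := by
          refine Pool.AET.abs_av_le_const (fun n => ?_) N
          rw [hw]
          simp only
          rw [Finset.abs_prod]
          calc ∏ l, |F l (γ (p l) n x)| ≤ ∏ _l : Fin m, B :=
                Finset.prod_le_prod (fun _ _ => abs_nonneg _) fun l _ => hFB l _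
            _ = B ^ m := by simp
        have b2 : |C N| ≤ B ^ (Finset.univ.erase j₀).card := by
          rw [hC]
          simp only
          rw [Finset.abs_prod]
          calc ∏ j ∈ Finset.univ.erase j₀, |av (fun n => f j
                (φ j (t * fun i => (((Q j i).eval n : ℤ) : ℝ)) x)) N|
              ≤ ∏ _j ∈ Finset.univ.erase j₀, B :=
                Finset.prod_le_prod (fun _ _ => abs_nonneg _) fun j _ =>
                  Pool.AET.abs_av_le_const (fun n => hfB j _) N
            _ = B ^ (Finset.univ.erase j₀).card := by rw [Finset.prod_const]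
        rw [abs_mul, abs_mul]
        calc |av (fun n => w n) N| * (|av (fun n => b n) N| * |C N|)
            ≤ B ^ m * (|av (fun n => b n) N| * B ^ (Finset.univ.erase j₀).card) := by
              gcongr
          _ = _ := by ring
      have hx4 : Tendsto (fun N : ℕ => av (fun n => w n) N * (av (fun n => b n) N * C N))
          atTop (𝓝 0) := by
        have hlim := hx2.abs.const_mul (B ^ m * B ^ (Finset.univ.erase j₀).card)
        rw [abs_zero, mul_zero] at hlim
        refine squeeze_zero_norm (fun N => ?_) hlim
        rw [Real.norm_eq_abs]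
        exact hK N
      have hx5 := (hx3.add hx1).sub hx4
      rw [add_zero, sub_zero] at hx5
      refine hx5.congr fun N => ?_
      rw [RedAux.split w a b c (C N) N]
  exact main _ Q rfl hQ hQD hrow f hf hfB

end Pool.AEW
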