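import Pool.Agent.AEW.SqCorr
import Pool.Agent.AEV.Second

/-!
# The second moment over the shifted times
-/

set_option autoImplicit false

open MeasureTheory Set Finset
open Pool.AET (integrable_bd abs_integral_bd cs_bd)
open Pool.AEV (Vec IsFlow)

namespace Pool.AEW

variable {k : ℕ} {Ω : Type*} [MeasurableSpace Ω] {μ : Measure Ω} {φ : Vec k → Ω → Ω}

/-- The second moment, with weights depending on `τ`. -/
theorem second_moment [IsProbabilityMeasure μ] (h : IsFlow μ φ) {f : Ω → ℝ} (hf : Measurable f)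
    (hf1 : ∀ x, |f x| ≤ 1) (i : Fin (k + 1)) (ν : Measure ℝ) [IsProbabilityMeasure ν]
    (κ : Measure (Vec k)) [IsFiniteMeasure κ] (q : ℕ → Vec k) (N : ℕ) {R : ℝ}
    (hsum : ∑ n ∈ range N, ∑ n' ∈ range N,
      ∫ τ, ∫ x, (corr φ f i ν τ (q n) (q n') x) ^ 2 ∂μ ∂κ ≤ R)
    (u : ℕ → Vec k → Ω → ℝ) (hu : ∀ n, Measurable (fun z : Vec k × Ω => u n z.1 z.2))
    (hu1 : ∀ n τ x, |u n τ x| ≤ 1) :
    ∫ τ, ∫ s, ∫ x, (∑ n ∈ range N, u n τ x * f (φ ((τ + Pi.single i s) * q n) x)) ^ 2 ∂μ ∂ν ∂κ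
      ≤ N * Real.sqrt (κ.real univ * R) := by
  classical
  have hsm := single_measurable i
  set H : ℕ → ℕ → Vec k → ℝ → Ω → ℝ := fun n n' τ s x =>
    (u n τ x * u n' τ x) * (f (φ ((τ + Pi.single i s) * q n) x)
      * f (φ ((τ + Pi.single i s) * q n') x)) with hH
  have hHm : ∀ n n', Measurable (fun z : (Vec k × ℝ) × Ω => H n n' z.1.1 z.1.2 z.2) := by
    intro n n'
    have m1 : Measurable (fun z : (Vec k × ℝ) × Ω => (z.1.1 + Pi.single i z.1.2)) :=
      (measurable_fst.comp measurable_fst).add (hsm.comp (measurable_snd.comp measurable_fst))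
    have m2 : Measurable (fun z : (Vec k × ℝ) × Ω => (z.1.1, z.2)) := by fun_prop
    exact (((hu n).comp m2).mul ((hu n').comp m2)).mul
      ((h.meas_comp hf (m1.mul_const _) measurable_snd).mul
        (h.meas_comp hf (m1.mul_const _) measurable_snd))
  have hH1 : ∀ n n' τ s x, |H n n' τ s x| ≤ 1 := by
    intro n n' τ s x
    rw [hH]
    simp only [abs_mul]
    exact mul_le_one₀ (mul_le_one₀ (hu1 _ _ _) (abs_nonneg _) (hu1 _ _ _)) (by positivity)
      (mul_le_one₀ (hf1 _) (abs_nonneg _) (hf1 _))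
  have hHx : ∀ n n' τ s, Measurable (fun x => H n n' τ s x) := fun n n' τ s =>
    (hHm n n').comp (by fun_prop : Measurable (fun x : Ω => (((τ, s) : Vec k × ℝ), x)))
  have hHs : ∀ n n', Measurable (fun z : Vec k × ℝ => ∫ x, H n n' z.1 z.2 x ∂μ) := fun n n' =>
    ((hHm n n').stronglyMeasurable.integral_prod_right' (ν := μ)).measurable
  have e1 : ∀ τ s, ∫ x, (∑ n ∈ range N, u n τ x * f (φ ((τ + Pi.single i s) * q n) x)) ^ 2 ∂μ
      = ∑ n ∈ range N, ∑ n' ∈ range N, ∫ x, H n n' τ s x ∂μ := by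
    intro τ s
    have : ∀ x, (∑ n ∈ range N, u n τ x * f (φ ((τ + Pi.single i s) * q n) x)) ^ 2
        = ∑ n ∈ range N, ∑ n' ∈ range N, H n n' τ s x := by
      intro x
      rw [sq, Finset.sum_mul_sum]
      refine Finset.sum_congr rfl fun n _ => Finset.sum_congr rfl fun n' _ => ?_
      simp only [hH]
      ring
    simp only [this]
    rw [integral_finsetSum _ fun n _ => ?_]
    · refine Finset.sum_congr rfl fun n _ => ?_
      rw [integral_finsetSum _ fun n' _ => ?_]
      exact integrable_bd (hHx n n' τ s) 1 (hH1 n n' τ s)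
    · exact integrable_finsetSum _ fun n' _ => integrable_bd (hHx n n' τ s) 1 (hH1 n n' τ s)
  have e2 : ∀ τ, ∫ s, ∫ x, (∑ n ∈ range N, u n τ x * f (φ ((τ + Pi.single i s) * q n) x)) ^ 2
      ∂μ ∂ν = ∑ n ∈ range N, ∑ n' ∈ range N, ∫ s, ∫ x, H n n' τ s x ∂μ ∂ν := by
    intro τ
    simp only [e1]
    have hint : ∀ n n', Integrable (fun s => ∫ x, H n n' τ s x ∂μ) ν := fun n n' =>
      integrable_bd ((hHs n n').comp (measurable_const.prodMk measurable_id)) 1
        fun s => abs_integral_bd 1 (hH1 n n' τ s)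
    rw [integral_finsetSum _ fun n _ => ?_]
    · refine Finset.sum_congr rfl fun n _ => ?_
      rw [integral_finsetSum _ fun n' _ => hint n n']
    · exact integrable_finsetSum _ fun n' _ => hint n n'
  have hHt : ∀ n n', Measurable (fun τ : Vec k => ∫ s, ∫ x, H n n' τ s x ∂μ ∂ν) := fun n n' =>
    ((hHs n n').stronglyMeasurable.integral_prod_right (ν := ν)).measurable
  have e3 : ∫ τ, ∫ s, ∫ x, (∑ n ∈ range N, u n τ x * f (φ ((τ + Pi.single i s) * q n) x)) ^ 2
      ∂μ ∂ν ∂κ = ∑ n ∈ range N, ∑ n' ∈ range N, ∫ τ, ∫ s, ∫ x, H n n' τ s x ∂μ ∂ν ∂κ := by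
    simp only [e2]
    have hint : ∀ n n', Integrable (fun τ => ∫ s, ∫ x, H n n' τ s x ∂μ ∂ν) κ := fun n n' =>
      integrable_bd (hHt n n') 1 fun τ => abs_integral_bd 1 fun s =>
        abs_integral_bd 1 (hH1 n n' τ s)
    rw [integral_finsetSum _ fun n _ => ?_]
    · refine Finset.sum_congr rfl fun n _ => ?_
      rw [integral_finsetSum _ fun n' _ => hint n n']
    · exact integrable_finsetSum _ fun n' _ => hint n n'
  -- the correlations
  have hcm : ∀ n n', Measurable (fun z : Vec k × Ω => corr φ f i ν z.1 (q n) (q n') z.2) :=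
    fun n n' => corr_measurable h hf i ν (q n) (q n')
  have hc1 : ∀ n n' τ x, |corr φ f i ν τ (q n) (q n') x| ≤ 1 := fun n n' τ x =>
    corr_abs_le hf1 i ν τ (q n) (q n') x
  have e4 : ∀ n n' τ, ∫ s, ∫ x, H n n' τ s x ∂μ ∂ν
      ≤ ∫ x, |corr φ f i ν τ (q n) (q n') x| ∂μ := by
    intro n n' τ
    have hi : Integrable (Function.uncurry (fun s x => H n n' τ s x)) (ν.prod μ) := by
      refine integrable_bd ?_ 1 fun z => hH1 n n' τ z.1 z.2
      exact (hHm n n').comp (by fun_prop : Measurable (fun z : ℝ × Ω => ((τ, z.1), z.2)))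
    rw [integral_integral_swap hi]
    have : ∀ x, ∫ s, H n n' τ s x ∂ν
        = (u n τ x * u n' τ x) * corr φ f i ν τ (q n) (q n') x := by
      intro x
      simp only [hH, corr]
      rw [integral_const_mul]
    simp only [this]
    have hcx : Measurable (fun x => corr φ f i ν τ (q n) (q n') x) :=
      (hcm n n').comp (measurable_const.prodMk measurable_id)
    have hux : ∀ n, Measurable (fun x => u n τ x) := fun n =>
      (hu n).comp (measurable_const.prodMk measurable_id)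
    refine integral_mono (integrable_bd (((hux n).mul (hux n')).mul hcx) 1 fun x => ?_)
      (integrable_bd hcx.abs 1 fun x => by rw [abs_abs]; exact hc1 n n' τ x) fun x => ?_
    · simp only [abs_mul]
      exact mul_le_one₀ (mul_le_one₀ (hu1 _ _ _) (abs_nonneg _) (hu1 _ _ _)) (abs_nonneg _)
        (hc1 n n' τ x)
    · refine (le_abs_self _).trans ?_
      rw [abs_mul, abs_mul]
      have : |u n τ x| * |u n' τ x| ≤ 1 := mul_le_one₀ (hu1 _ _ _) (abs_nonneg _) (hu1 _ _ _)
      calc |u n τ x| * |u n' τ x| * |corr φ f i ν τ (q n) (q n') x|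
          ≤ 1 * |corr φ f i ν τ (q n) (q n') x| := by gcongr
        _ = _ := one_mul _
  rw [e3]
  set K : ℕ → ℕ → ℝ := fun n n' => ∫ z, |corr φ f i ν z.1 (q n) (q n') z.2| ∂(κ.prod μ) with hK
  have hK1 : ∀ n n', ∫ τ, ∫ s, ∫ x, H n n' τ s x ∂μ ∂ν ∂κ ≤ K n n' := by
    intro n n'
    have hab : Integrable (fun z : Vec k × Ω => |corr φ f i ν z.1 (q n) (q n') z.2|)
        (κ.prod μ) := integrable_bd (hcm n n').abs 1 fun z => by
          rw [abs_abs]
          exact hc1 n n' z.1 z.2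
    rw [hK]
    simp only
    rw [integral_prod _ hab]
    refine integral_mono ?_ hab.integral_prod_left (e4 n n')
    exact integrable_bd (hHt n n') 1 fun τ => abs_integral_bd 1 fun s =>
        abs_integral_bd 1 (hH1 n n' τ s)
  have hK2 : ∀ n n', (K n n') ^ 2
      ≤ κ.real univ * ∫ τ, ∫ x, (corr φ f i ν τ (q n) (q n') x) ^ 2 ∂μ ∂κ := by
    intro n n'
    have h1 := cs_bd (κ := κ.prod μ) (hcm n n') 1 fun z => hc1 n n' z.1 z.2
    have h2 : (κ.prod μ).real univ = κ.real univ := by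
      rw [← univ_prod_univ, measureReal_prod_prod]
      simp
    have h3 : Integrable (fun z : Vec k × Ω => (corr φ f i ν z.1 (q n) (q n') z.2) ^ 2)
        (κ.prod μ) := by
      refine integrable_bd ((hcm n n').pow_const 2) 1 fun z => ?_
      rw [abs_pow]
      exact pow_le_one₀ (abs_nonneg _) (hc1 n n' z.1 z.2)
    rw [h2, integral_prod _ h3] at h1
    exact h1
  have h4 : ∑ n ∈ range N, ∑ n' ∈ range N, ∫ τ, ∫ s, ∫ x, H n n' τ s x ∂μ ∂ν ∂κ
      ≤ ∑ n ∈ range N, ∑ n' ∈ range N, K n n' :=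
    Finset.sum_le_sum fun n _ => Finset.sum_le_sum fun n' _ => hK1 n n'
  refine h4.trans ?_
  have h5 : (∑ n ∈ range N, ∑ n' ∈ range N, K n n') ^ 2 ≤ (N : ℝ) ^ 2 * (κ.real univ * R) := by
    rw [← Finset.sum_product']
    have h6 := sq_sum_le_card_mul_sum_sq (s := range N ×ˢ range N) (f := fun p : ℕ × ℕ => K p.1 p.2)
    refine h6.trans ?_
    have h7 : ((range N ×ˢ range N).card : ℝ) = (N : ℝ) ^ 2 := by
      rw [Finset.card_product, Finset.card_range]
      push_cast
      ring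
    rw [h7]
    refine mul_le_mul_of_nonneg_left ?_ (by positivity)
    rw [Finset.sum_product]
    refine (Finset.sum_le_sum fun n _ => Finset.sum_le_sum fun n' _ => hK2 n n').trans ?_
    simp_rw [← Finset.mul_sum]
    exact mul_le_mul_of_nonneg_left hsum measureReal_nonneg
  have h8 : ∑ n ∈ range N, ∑ n' ∈ range N, K n n' ≤ Real.sqrt ((N : ℝ) ^ 2 * (κ.real univ * R)) :=
    Real.le_sqrt_of_sq_le h5
  refine h8.trans (le_of_eq ?_)
  rw [Real.sqrt_mul (by positivity), Real.sqrt_sq (by positivity)]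

end Pool.AEW
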