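import Pool.Agent.AEW.Defs

/-!
# The identity for the square of a correlation
-/

set_option autoImplicit false

open MeasureTheory Set
open Pool.AET (integrable_bd abs_integral_bd)
open Pool.AEV (Vec IsFlow)

namespace Pool.AEW

variable {k : ℕ} {Ω : Type*} [MeasurableSpace Ω] {μ : Measure Ω} {φ : Vec k → Ω → Ω}

private theorem abs4 {a b c d : ℝ} (ha : |a| ≤ 1) (hb : |b| ≤ 1) (hc : |c| ≤ 1) (hd : |d| ≤ 1) :
    |a * b * (c * d)| ≤ 1 := by
  rw [abs_mul, abs_mul, abs_mul]
  exact mul_le_one₀ (mul_le_one₀ ha (abs_nonneg _) hb) (by positivity)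
    (mul_le_one₀ hc (abs_nonneg _) hd)

theorem swap3 [IsProbabilityMeasure μ] (ν : Measure ℝ) [IsProbabilityMeasure ν]
    (κ : Measure (Vec k)) [IsFiniteMeasure κ] (G : Vec k → Ω → ℝ → ℝ)
    (hG : Measurable (fun z : (Vec k × Ω) × ℝ => G z.1.1 z.1.2 z.2)) (C : ℝ)
    (hC : ∀ τ x s, |G τ x s| ≤ C) :
    ∫ τ, ∫ x, ∫ s, G τ x s ∂ν ∂μ ∂κ = ∫ s, ∫ τ, ∫ x, G τ x s ∂μ ∂κ ∂ν := by
  have h1 : Measurable (fun z : Vec k × Ω => ∫ s, G z.1 z.2 s ∂ν) :=
    (hG.stronglyMeasurable.integral_prod_right).measurable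
  have h2 : ∫ τ, ∫ x, ∫ s, G τ x s ∂ν ∂μ ∂κ = ∫ z, ∫ s, G z.1 z.2 s ∂ν ∂(κ.prod μ) := by
    rw [integral_prod]
    exact integrable_bd h1 C fun z => abs_integral_bd C fun s => hC _ _ _
  have h3 : ∀ s, ∫ τ, ∫ x, G τ x s ∂μ ∂κ = ∫ z, G z.1 z.2 s ∂(κ.prod μ) := by
    intro s
    rw [integral_prod]
    exact integrable_bd (hG.comp (measurable_id.prodMk measurable_const)) C fun z => hC _ _ _
  rw [h2, integral_integral_swap]
  · exact integral_congr_ae (Filter.Eventually.of_forall fun s => (h3 s).symm)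
  · exact integrable_bd hG C fun z => hC _ _ _

theorem sq_corr [IsProbabilityMeasure μ] (h : IsFlow μ φ) {f : Ω → ℝ} (hf : Measurable f)
    (hf1 : ∀ x, |f x| ≤ 1) (i : Fin (k + 1)) (ν : Measure ℝ) [IsProbabilityMeasure ν]
    (κ : Measure (Vec k)) [IsFiniteMeasure κ] (p q : Vec k) :
    ∫ τ, ∫ x, (corr φ f i ν τ p q x) ^ 2 ∂μ ∂κ
      = ∫ s, ∫ s', ∫ x, f x * f (φ (Pi.single i ((s' - s) * q i)) x)
          * wnd φ f i κ s (s' - s) p (q - p) x ∂μ ∂ν ∂ν := by
  have hsm := single_measurable i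
  -- the four fold product
  set F : Vec k → Ω → ℝ → ℝ → ℝ := fun τ x s s' =>
    f (φ ((τ + Pi.single i s) * p) x) * f (φ ((τ + Pi.single i s) * q) x)
      * (f (φ ((τ + Pi.single i s') * p) x) * f (φ ((τ + Pi.single i s') * q) x)) with hF
  have hFm : Measurable (fun z : ((Vec k × Ω) × ℝ) × ℝ => F z.1.1.1 z.1.1.2 z.1.2 z.2) := by
    have m1 : Measurable (fun z : ((Vec k × Ω) × ℝ) × ℝ => (z.1.1.1 + Pi.single i z.1.2)) :=
      (measurable_fst.comp (measurable_fst.comp measurable_fst)).add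
        (hsm.comp (measurable_snd.comp measurable_fst))
    have m2 : Measurable (fun z : ((Vec k × Ω) × ℝ) × ℝ => (z.1.1.1 + Pi.single i z.2)) :=
      (measurable_fst.comp (measurable_fst.comp measurable_fst)).add
        (hsm.comp measurable_snd)
    have m3 : Measurable (fun z : ((Vec k × Ω) × ℝ) × ℝ => z.1.1.2) :=
      measurable_snd.comp (measurable_fst.comp measurable_fst)
    exact ((h.meas_comp hf (m1.mul_const p) m3).mul (h.meas_comp hf (m1.mul_const q) m3)).mul
      ((h.meas_comp hf (m2.mul_const p) m3).mul (h.meas_comp hf (m2.mul_const q) m3))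
  have hF1 : ∀ τ x s s', |F τ x s s'| ≤ 1 := fun τ x s s' =>
    abs4 (hf1 _) (hf1 _) (hf1 _) (hf1 _)
  have e1 : ∀ τ x, (corr φ f i ν τ p q x) ^ 2 = ∫ s, ∫ s', F τ x s s' ∂ν ∂ν := by
    intro τ x
    unfold corr
    rw [sq, ← integral_mul_const]
    refine integral_congr_ae (Filter.Eventually.of_forall fun a => ?_)
    simp only
    rw [← integral_const_mul]
  have e2 : ∫ τ, ∫ x, ∫ s, ∫ s', F τ x s s' ∂ν ∂ν ∂μ ∂κ
      = ∫ s, ∫ s', ∫ τ, ∫ x, F τ x s s' ∂μ ∂κ ∂ν ∂ν := by
    rw [swap3 ν κ (fun τ x s => ∫ s', F τ x s s' ∂ν) ?_ 1 ?_]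
    · refine integral_congr_ae (Filter.Eventually.of_forall fun s => ?_)
      refine swap3 ν κ (fun τ x s' => F τ x s s') ?_ 1 (fun τ x s' => hF1 _ _ _ _)
      exact hFm.comp (by fun_prop : Measurable (fun z : (Vec k × Ω) × ℝ => ((z.1, s), z.2)))
    · exact (hFm.stronglyMeasurable.integral_prod_right).measurable
    · intro τ x s
      exact abs_integral_bd 1 fun s' => hF1 _ _ _ _
  -- the shifted product
  set Ψ : Vec k → Ω → ℝ → ℝ → ℝ := fun τ x s s' =>
    f (φ (-((τ + Pi.single i s) * (q - p))) x) * f x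
      * (f (φ (Pi.single i ((s' - s) * p i) - (τ + Pi.single i s) * (q - p)) x)
        * f (φ (Pi.single i ((s' - s) * q i)) x)) with hΨ
  have e3 : ∀ τ s s', ∫ x, F τ x s s' ∂μ = ∫ x, Ψ τ x s s' ∂μ := by
    intro τ s s'
    rw [← h.integral_comp (-((τ + Pi.single i s) * q)) (g := fun x => F τ x s s')
      (hFm.comp (by fun_prop : Measurable (fun x : Ω => (((τ, x), s), s'))))]
    refine integral_congr_ae (Filter.Eventually.of_forall fun x => ?_)
    simp only [hF, hΨ, ← h.add]
    have z1 : (τ + Pi.single i s) * q + -((τ + Pi.single i s) * q) = 0 := by ring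
    have z2 : (τ + Pi.single i s) * p + -((τ + Pi.single i s) * q)
        = -((τ + Pi.single i s) * (q - p)) := by ring
    have z3 : (τ + Pi.single i s') * p + -((τ + Pi.single i s) * q)
        = Pi.single i ((s' - s) * p i) - (τ + Pi.single i s) * (q - p) := by
      ext j
      by_cases hj : j = i
      · subst hj
        simp only [Pi.add_apply, Pi.mul_apply, Pi.neg_apply, Pi.sub_apply, Pi.single_eq_same]
        ring
      · simp only [Pi.add_apply, Pi.mul_apply, Pi.neg_apply, Pi.sub_apply, Pi.single_eq_of_ne hj]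
        ring
    have z4 : (τ + Pi.single i s') * q + -((τ + Pi.single i s) * q)
        = Pi.single i ((s' - s) * q i) := by
      ext j
      by_cases hj : j = i
      · subst hj
        simp only [Pi.add_apply, Pi.mul_apply, Pi.neg_apply, Pi.single_eq_same]
        ring
      · simp only [Pi.add_apply, Pi.mul_apply, Pi.neg_apply, Pi.single_eq_of_ne hj]
        ring
    rw [z1, z2, z3, z4, h.zero]
  calc ∫ τ, ∫ x, (corr φ f i ν τ p q x) ^ 2 ∂μ ∂κ
      = ∫ τ, ∫ x, ∫ s, ∫ s', F τ x s s' ∂ν ∂ν ∂μ ∂κ := by simp_rw [e1]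
    _ = ∫ s, ∫ s', ∫ τ, ∫ x, F τ x s s' ∂μ ∂κ ∂ν ∂ν := e2
    _ = ∫ s, ∫ s', ∫ τ, ∫ x, Ψ τ x s s' ∂μ ∂κ ∂ν ∂ν := by simp_rw [e3]
    _ = _ := by
        refine integral_congr_ae (Filter.Eventually.of_forall fun s => ?_)
        refine integral_congr_ae (Filter.Eventually.of_forall fun s' => ?_)
        simp only
        rw [integral_integral_swap]
        · refine integral_congr_ae (Filter.Eventually.of_forall fun x => ?_)
          simp only [wnd]
          rw [← integral_const_mul]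
          refine integral_congr_ae (Filter.Eventually.of_forall fun τ => ?_)
          simp only [hΨ]
          ring
        · refine integrable_bd ?_ 1 fun z => ?_
          · have m1 : Measurable (fun z : Vec k × Ω => (z.1 + Pi.single i s)) :=
              measurable_fst.add measurable_const
            exact ((h.meas_comp hf (m1.mul_const _).neg measurable_snd).mul
              (hf.comp measurable_snd)).mul
              ((h.meas_comp hf (measurable_const.sub (m1.mul_const _)) measurable_snd).mul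
              (h.meas_comp hf measurable_const measurable_snd))
          · exact abs4 (hf1 _) (hf1 _) (hf1 _) (hf1 _)

end Pool.AEW
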